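import Mathlib

set_option autoImplicit false

/-!
Systems of equations over solvable groups (MP_69c751_al): basic definitions.
-/

namespace Pool.Agent.Lib.MP_69c751_al.TM

open Monoid

universe u v

section Defs

variable {G : Type u} [Group G] {κ : Type} {ι : Type}

/-- The homomorphism from `G * F` (where `F` is the free group on the unknowns) to the integer
vectors which gives the exponent sums of the unknowns. -/
noncomputable def expHom (G : Type u) [Group G] (κ : Type) :
    Coprod G (FreeGroup κ) →* Multiplicative (κ → ℤ) :=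
  letI := Classical.decEq κ
  Coprod.lift 1 (FreeGroup.lift (fun j => Multiplicative.ofAdd (Pi.single j (1 : ℤ))))

/-- The exponent matrix of a system. -/
noncomputable def expMat (w : ι → Coprod G (FreeGroup κ)) : Matrix ι κ ℤ :=
  Matrix.of (fun i j => Multiplicative.toAdd (expHom G κ (w i)) j)

/-- The evaluation homomorphism. -/
noncomputable def evalHom {H : Type v} [Group H] (f : G →* H) (x : κ → H) :
    Coprod G (FreeGroup κ) →* H :=
  Coprod.lift f (FreeGroup.lift x)

/-- The system `w` has a solution in an overgroup of `G` of derived length at most `d`. -/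
def Sol (d : ℕ) (w : ι → Coprod G (FreeGroup κ)) : Prop :=
  ∃ (H : Type u) (_ : Group H) (f : G →* H), Function.Injective f ∧ derivedSeries H d = ⊥ ∧
    ∃ x : κ → H, ∀ i, evalHom f x (w i) = 1

theorem evalHom_inl {H : Type v} [Group H] (f : G →* H) (x : κ → H) (g : G) :
    evalHom f x (Coprod.inl g) = f g := by
  simp [evalHom]

theorem evalHom_inr {H : Type v} [Group H] (f : G →* H) (x : κ → H) (k : κ) :
    evalHom f x (Coprod.inr (FreeGroup.of k)) = x k := by
  simp [evalHom]

theorem hom_ext {H : Type v} [Group H] {a b : Coprod G (FreeGroup κ) →* H}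
    (h1 : ∀ g, a (Coprod.inl g) = b (Coprod.inl g))
    (h2 : ∀ k, a (Coprod.inr (FreeGroup.of k)) = b (Coprod.inr (FreeGroup.of k))) : a = b := by
  apply Coprod.hom_ext
  · ext g; exact h1 g
  · ext k; exact h2 k

theorem map_evalHom {H H' : Type*} [Group H] [Group H'] (p : H →* H') (f : G →* H) (x : κ → H)
    (u : Coprod G (FreeGroup κ)) : p (evalHom f x u) = evalHom (p.comp f) (fun k => p (x k)) u := by
  have : p.comp (evalHom f x) = evalHom (p.comp f) (fun k => p (x k)) :=
    hom_ext (by simp [evalHom]) (by simp [evalHom])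
  rw [← this]; rfl

theorem evalHom_map {G' : Type*} [Group G'] {κ' : Type} {H : Type v} [Group H] (p : G →* G')
    (s : FreeGroup κ →* FreeGroup κ') (f : G' →* H) (x : κ' → H) (u : Coprod G (FreeGroup κ)) :
    evalHom f x (Coprod.map p s u) =
      evalHom (f.comp p) (fun k => FreeGroup.lift x (s (FreeGroup.of k))) u := by
  have : (evalHom f x).comp (Coprod.map p s) =
      evalHom (f.comp p) (fun k => FreeGroup.lift x (s (FreeGroup.of k))) :=
    hom_ext (by simp [evalHom]) (by simp [evalHom])
  rw [← this]; rfl

theorem expHom_inl (g : G) : expHom G κ (Coprod.inl g) = 1 := by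
  simp [expHom]

theorem expHom_inr [DecidableEq κ] (k : κ) :
    expHom G κ (Coprod.inr (FreeGroup.of k)) = Multiplicative.ofAdd (Pi.single k (1 : ℤ)) := by
  have h : (Classical.decEq κ) = (inferInstance : DecidableEq κ) := Subsingleton.elim _ _
  unfold expHom
  simp only [Coprod.lift_apply_inr, FreeGroup.lift_apply_of]
  rw [h]

/-- Exponent sums do not change when the coefficients are mapped to another group. -/
theorem expHom_map {G' : Type*} [Group G'] (p : G →* G') (u : Coprod G (FreeGroup κ)) :
    expHom G' κ (Coprod.map p (MonoidHom.id _) u) = expHom G κ u := by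
  classical
  have : (expHom G' κ).comp (Coprod.map p (MonoidHom.id _)) = expHom G κ :=
    hom_ext (fun g => by simp [expHom_inl]) (fun k => by simp [expHom_inr])
  rw [← this]; rfl

theorem expMat_map {G' : Type*} [Group G'] (p : G →* G') (w : ι → Coprod G (FreeGroup κ)) :
    expMat (fun i => Coprod.map p (MonoidHom.id _) (w i)) = expMat w := by
  ext i j
  simp [expMat, expHom_map]

theorem Sol.mono {d d' : ℕ} (h : d ≤ d') {w : ι → Coprod G (FreeGroup κ)} (hw : Sol d w) :
    Sol d' w := by
  obtain ⟨H, _, f, hf, hd, x, hx⟩ := hw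
  refine ⟨H, inferInstance, f, hf, ?_, x, hx⟩
  exact eq_bot_iff.2 (hd ▸ derivedSeries_antitone H h)

end Defs

end Pool.Agent.Lib.MP_69c751_al.TM
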