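import Pool.Agent.Lib.MP_69c751_al.TM.Defs

set_option autoImplicit false

/-!
The semidirect product of a `ℤ[F]`-module `M` by the abelian group `F`.
-/

namespace Pool.Agent.Lib.MP_69c751_al.TM

universe u v

/-- The group of pairs `(m, f)` with `(m, f) (m', f') = (m + f m', f f')`. -/
@[ext]
structure Aff (F : Type u) (M : Type v) where
  m : M
  f : F

namespace Aff

/-- The element of the group ring given by a group element. -/
noncomputable def gr {F : Type u} [CommGroup F] (f : F) : MonoidAlgebra ℤ F :=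
  MonoidAlgebra.of ℤ F f

@[simp] theorem gr_one {F : Type u} [CommGroup F] : gr (1 : F) = 1 := map_one _

theorem gr_mul {F : Type u} [CommGroup F] (a b : F) : gr (a * b) = gr a * gr b := map_mul _ _ _

theorem gr_eq_single {F : Type u} [CommGroup F] (f : F) : gr f = MonoidAlgebra.single f 1 := rfl

variable {F : Type u} {M : Type v} [CommGroup F] [AddCommGroup M] [Module (MonoidAlgebra ℤ F) M]

noncomputable instance : Mul (Aff F M) := ⟨fun a b => ⟨a.m + gr a.f • b.m, a.f * b.f⟩⟩
noncomputable instance : One (Aff F M) := ⟨⟨0, 1⟩⟩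
noncomputable instance : Inv (Aff F M) := ⟨fun a => ⟨-(gr a.f⁻¹ • a.m), a.f⁻¹⟩⟩

@[simp] theorem mul_m (a b : Aff F M) : (a * b).m = a.m + gr a.f • b.m := rfl
@[simp] theorem mul_f (a b : Aff F M) : (a * b).f = a.f * b.f := rfl
@[simp] theorem one_m : (1 : Aff F M).m = 0 := rfl
@[simp] theorem one_f : (1 : Aff F M).f = 1 := rfl
@[simp] theorem inv_m (a : Aff F M) : (a⁻¹).m = -(gr a.f⁻¹ • a.m) := rfl
@[simp] theorem inv_f (a : Aff F M) : (a⁻¹).f = a.f⁻¹ := rfl

noncomputable instance : Group (Aff F M) :=
  Group.ofLeftAxioms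
    (fun a b c => by
      apply Aff.ext
      · simp only [mul_m, mul_f, gr_mul, smul_add, mul_smul, add_assoc]
      · simp [mul_assoc])
    (fun a => by apply Aff.ext <;> simp)
    (fun a => by
      apply Aff.ext
      · simp only [mul_m, inv_m, inv_f, one_m]
        abel
      · simp)

/-- The projection. -/
noncomputable def proj : Aff F M →* F where
  toFun := Aff.f
  map_one' := rfl
  map_mul' _ _ := rfl

@[simp] theorem proj_apply (a : Aff F M) : proj a = a.f := rfl

/-- The inclusion of `F`. -/
noncomputable def inF : F →* Aff F M where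
  toFun f := ⟨0, f⟩
  map_one' := rfl
  map_mul' a b := by apply Aff.ext <;> simp

@[simp] theorem inF_m (f : F) : (inF f : Aff F M).m = 0 := rfl
@[simp] theorem inF_f (f : F) : (inF f : Aff F M).f = f := rfl

/-- Functoriality. -/
noncomputable def map {M' : Type*} [AddCommGroup M'] [Module (MonoidAlgebra ℤ F) M']
    (l : M →ₗ[MonoidAlgebra ℤ F] M') : Aff F M →* Aff F M' where
  toFun a := ⟨l a.m, a.f⟩
  map_one' := by apply Aff.ext <;> simp
  map_mul' a b := by
    apply Aff.ext
    · simp only [mul_m, map_add, map_smul]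
    · simp

@[simp] theorem map_m {M' : Type*} [AddCommGroup M'] [Module (MonoidAlgebra ℤ F) M']
    (l : M →ₗ[MonoidAlgebra ℤ F] M') (a : Aff F M) : (map l a).m = l a.m := rfl
@[simp] theorem map_f {M' : Type*} [AddCommGroup M'] [Module (MonoidAlgebra ℤ F) M']
    (l : M →ₗ[MonoidAlgebra ℤ F] M') (a : Aff F M) : (map l a).f = a.f := rfl

theorem derivedSeries_two : derivedSeries (Aff F M) 2 = ⊥ := by
  have h1 : derivedSeries (Aff F M) 1 ≤ (proj : Aff F M →* F).ker := by
    rw [derivedSeries_one]
    exact Abelianization.commutator_subset_ker _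
  rw [derivedSeries_succ, eq_bot_iff, Subgroup.commutator_le]
  intro x hx y hy
  have hx1 : x.f = 1 := h1 hx
  have hy1 : y.f = 1 := h1 hy
  rw [Subgroup.mem_bot, commutatorElement_eq_one_iff_mul_comm]
  apply Aff.ext
  · simp [hx1, hy1, add_comm]
  · simp [hx1, hy1]

end Aff

end Pool.Agent.Lib.MP_69c751_al.TM
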