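import Mathlib

section

set_option autoImplicit false

/-!
Job TM-G1: the abelian group generated by `T` and the unknowns.
-/

namespace Pool.Agent.Lib.MP_69c751_al.TM

universe u

open Matrix

/-- index of the range of an injective endomorphism of a lattice -/
theorem exF_index_range_eq_det {M : Type} [AddCommGroup M] [Module.Free ℤ M] [Module.Finite ℤ M]
    (f : M →+ M) (hf : Function.Injective f) :
    f.range.index = (LinearMap.det f.toIntLinearMap).natAbs := by
  let e : M ≃+ f.range.toIntSubmodule := AddMonoidHom.ofInjective hf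
  have h := Submodule.natAbs_det_equiv (f.range.toIntSubmodule) e
  have h2 : ((f.range.toIntSubmodule).subtype ∘ₗ AddMonoidHom.toIntLinearMap (e : M →+ _)) =
      f.toIntLinearMap := by
    ext x
    rfl
  rw [h2] at h
  rw [h]
  rfl

/-- the homomorphism `c ↦ ∏ i, (r i) ^ c i` -/
def exFPhi {Y : Type u} [CommGroup Y] {κ : Type} [Fintype κ] (r : κ → Y) :
    Multiplicative (κ → ℤ) →* Y where
  toFun c := ∏ i, r i ^ (Multiplicative.toAdd c i)
  map_one' := by simp
  map_mul' a b := by
    rw [← Finset.prod_mul_distrib]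
    refine Finset.prod_congr rfl fun i _ => ?_
    rw [← _root_.zpow_add]
    rfl

/-- Adjoining a solution of a square system of nonsingular equations to an abelian group.

Proof: let `Y := T × Multiplicative (κ → ℤ)`,
`r i := (τ i, Multiplicative.ofAdd (e i))`, let `R := Subgroup.closure (Set.range r)` (or the range
of `c ↦ ∏ i, r i ^ c i`, a homomorphism from `Multiplicative (κ → ℤ)`), `F := Y ⧸ R`,
`j t := mk (t, 1)`, `x k := mk (1, ofAdd (Pi.single k 1))`.
* `j` is injective: if `(t, 1) = ∏ i, r i ^ c i` then `∑ i, c i • e i = 0`, that is `c ᵥ* e = 0`,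
  so `c = 0` (`Matrix.eq_zero_of_vecMul_eq_zero he`) and `t = 1`.
* the relation: the left-hand side is the class of `r i`.
* generation is clear.
* The index: the map `Multiplicative (κ → ℤ) → F ⧸ j.range` is surjective with kernel the set
  `L` of the integral combinations of the rows of `e`; so `j.range.index` is the index of `L` in
  `κ → ℤ`. The rows of `e` form a `ℤ`-basis of `L` (`Basis.span`, linear independence from
  `he`), so the index is `e.det.natAbs` by `AddSubgroup.index_eq_natAbs_det` with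
  `bE := Pi.basisFun ℤ κ` (`Basis.det` of the rows in the standard basis is `e.det` up to
  transposition). -/
theorem exists_F (T : Type u) [CommGroup T] {κ : Type} [Fintype κ] [DecidableEq κ]
    (e : Matrix κ κ ℤ) (he : e.det ≠ 0) (τ : κ → T) :
    ∃ (F : Type u) (_ : CommGroup F) (j : T →* F) (x : κ → F), Function.Injective j ∧
      (∀ i, j (τ i) * ∏ k, x k ^ (e i k) = 1) ∧
      Subgroup.closure (Set.range j ∪ Set.range x) = ⊤ ∧ j.range.index = e.det.natAbs := by
  classical
  let r : κ → T × Multiplicative (κ → ℤ) := fun i => (τ i, Multiplicative.ofAdd (e i))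
  let Φ : Multiplicative (κ → ℤ) →* T × Multiplicative (κ → ℤ) := exFPhi r
  have hΦ2 : ∀ c : κ → ℤ, (Φ (Multiplicative.ofAdd c)).2 = Multiplicative.ofAdd (c ᵥ* e) := by
    intro c
    change (∏ i, r i ^ (c i)).2 = _
    rw [Prod.snd_prod]
    simp only [Prod.pow_snd, r]
    apply Multiplicative.toAdd.injective
    rw [toAdd_prod, toAdd_ofAdd]
    funext k
    rw [Finset.sum_apply]
    simp only [toAdd_zpow, toAdd_ofAdd, Pi.smul_apply, smul_eq_mul, vecMul, dotProduct]
  have hvec : ∀ c : κ → ℤ, c ᵥ* e = 0 → c = 0 := fun c hc => eq_zero_of_vecMul_eq_zero he hc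
  let R : Subgroup (T × Multiplicative (κ → ℤ)) := Φ.range
  let j : T →* (T × Multiplicative (κ → ℤ)) ⧸ R :=
    (QuotientGroup.mk' R).comp (MonoidHom.inl T (Multiplicative (κ → ℤ)))
  let q : Multiplicative (κ → ℤ) →* (T × Multiplicative (κ → ℤ)) ⧸ R :=
    (QuotientGroup.mk' R).comp (MonoidHom.inr T (Multiplicative (κ → ℤ)))
  let x : κ → (T × Multiplicative (κ → ℤ)) ⧸ R :=
    fun k => q (Multiplicative.ofAdd (Pi.single k 1))
  have hqprod : ∀ a : κ → ℤ, q (Multiplicative.ofAdd a) = ∏ k, x k ^ (a k) := by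
    intro a
    have h1 : Multiplicative.ofAdd a =
        ∏ k, (Multiplicative.ofAdd (Pi.single k (1 : ℤ) : κ → ℤ)) ^ (a k) := by
      apply Multiplicative.toAdd.injective
      rw [toAdd_prod, toAdd_ofAdd]
      funext l
      rw [Finset.sum_apply]
      simp only [toAdd_zpow, toAdd_ofAdd, Pi.smul_apply, smul_eq_mul, Pi.single_apply]
      simp
    rw [h1, map_prod]
    refine Finset.prod_congr rfl fun k _ => ?_
    rw [map_zpow]
  have hsplit : ∀ (t : T) (a : Multiplicative (κ → ℤ)),
      (QuotientGroup.mk' R) (t, a) = j t * q a := by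
    intro t a
    change _ = (QuotientGroup.mk' R) (t, 1) * (QuotientGroup.mk' R) (1, a)
    rw [← map_mul, Prod.mk_mul_mk, mul_one, one_mul]
  refine ⟨(T × Multiplicative (κ → ℤ)) ⧸ R, inferInstance, j, x, ?_, ?_, ?_, ?_⟩
  · rw [injective_iff_map_eq_one]
    intro t ht
    have h1 : (t, (1 : Multiplicative (κ → ℤ))) ∈ R := by
      rw [← QuotientGroup.eq_one_iff]
      exact ht
    obtain ⟨c, hc⟩ := h1
    have h2 := hΦ2 (Multiplicative.toAdd c)
    rw [ofAdd_toAdd, hc] at h2
    have h3 : (Multiplicative.toAdd c) ᵥ* e = 0 := by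
      have := congrArg Multiplicative.toAdd h2
      rw [toAdd_ofAdd] at this
      exact this.symm
    have h4 : c = 1 := by
      have := hvec _ h3
      exact this
    rw [h4, map_one] at hc
    exact (congrArg Prod.fst hc).symm
  · intro i
    rw [← hqprod, ← hsplit]
    have h1 : (τ i, Multiplicative.ofAdd (e i)) ∈ R := by
      refine ⟨Multiplicative.ofAdd (Pi.single i 1), ?_⟩
      change ∏ l, r l ^ ((Pi.single i (1 : ℤ) : κ → ℤ) l) = r i
      rw [Finset.prod_eq_single i]
      · rw [Pi.single_eq_same, zpow_one]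
      · intro l _ hl
        rw [Pi.single_eq_of_ne hl, zpow_zero]
      · intro h
        exact absurd (Finset.mem_univ i) h
    exact (QuotientGroup.eq_one_iff _).2 h1
  · rw [eq_top_iff]
    intro z _
    obtain ⟨⟨t, a⟩, rfl⟩ := QuotientGroup.mk'_surjective R z
    rw [hsplit]
    refine Subgroup.mul_mem _ (Subgroup.subset_closure (Or.inl ⟨t, rfl⟩)) ?_
    rw [← ofAdd_toAdd a, hqprod]
    refine Subgroup.prod_mem _ fun k _ => Subgroup.zpow_mem _ ?_ _
    exact Subgroup.subset_closure (Or.inr ⟨k, rfl⟩)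
  · let g : Multiplicative (κ → ℤ) →* ((T × Multiplicative (κ → ℤ)) ⧸ R) ⧸ j.range :=
      (QuotientGroup.mk' j.range).comp q
    have hgs : Function.Surjective g := by
      intro z
      obtain ⟨z, rfl⟩ := QuotientGroup.mk'_surjective j.range z
      obtain ⟨⟨t, a⟩, rfl⟩ := QuotientGroup.mk'_surjective R z
      refine ⟨a, ?_⟩
      rw [hsplit, map_mul]
      have : (QuotientGroup.mk' j.range) (j t) = 1 :=
        (QuotientGroup.eq_one_iff _).2 ⟨t, rfl⟩
      rw [this]
      exact (one_mul (g a)).symm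
    let E : (κ → ℤ) →+ (κ → ℤ) :=
      { toFun := fun c => c ᵥ* e
        map_zero' := zero_vecMul e
        map_add' := fun a b => add_vecMul e a b }
    have hE : Function.Injective E := by
      rw [injective_iff_map_eq_zero]
      intro c hc
      exact hvec c hc
    have hker : g.ker = AddSubgroup.toSubgroup E.range := by
      ext a
      rw [MonoidHom.mem_ker]
      constructor
      · intro h
        have h1 : q a ∈ j.range := (QuotientGroup.eq_one_iff _).1 h
        obtain ⟨t, ht⟩ := h1
        have h2 : (t⁻¹, a) ∈ R := by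
          rw [← QuotientGroup.eq_one_iff]
          change (QuotientGroup.mk' R) (t⁻¹, a) = 1
          rw [hsplit, ← ht, ← map_mul, inv_mul_cancel, map_one]
        obtain ⟨c, hc⟩ := h2
        have h3 := hΦ2 (Multiplicative.toAdd c)
        rw [ofAdd_toAdd, hc] at h3
        refine ⟨Multiplicative.toAdd c, ?_⟩
        exact (congrArg Multiplicative.toAdd h3).symm
      · rintro ⟨c, hc⟩
        have h3 := hΦ2 c
        have h4 : (Φ (Multiplicative.ofAdd c)).2 = a := by
          rw [h3]
          exact congrArg Multiplicative.ofAdd hc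
        refine (QuotientGroup.eq_one_iff _).2 ?_
        refine ⟨(Φ (Multiplicative.ofAdd c)).1⁻¹, ?_⟩
        have h5 : j (Φ (Multiplicative.ofAdd c)).1 * q a = 1 := by
          rw [← hsplit, ← h4]
          exact (QuotientGroup.eq_one_iff _).2 ⟨_, rfl⟩
        rw [map_inv]
        exact inv_eq_of_mul_eq_one_right h5
    have h1 : j.range.index = g.ker.index := by
      rw [Subgroup.index_ker, MonoidHom.range_eq_top.2 hgs, Subgroup.card_top]
      rfl
    have h2 : g.ker.index = E.range.index := by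
      rw [hker]
      rfl
    rw [h1, h2, exF_index_range_eq_det E hE]
    have h3 : E.toIntLinearMap = Matrix.toLin' eᵀ := by
      ext c
      simp [E, Matrix.toLin'_apply]
    rw [h3, LinearMap.det_toLin', det_transpose]

end Pool.Agent.Lib.MP_69c751_al.TM
end

section

set_option autoImplicit false

/-!
Job TM-R2: components of zero products in `ℤ[V × B]`, `V` torsion-free.
-/

namespace Pool.Agent.Lib.MP_69c751_al.TM

/-- The `v`-component of an element of the group ring of `V × B`, an element of the group ring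
of `B`. -/
noncomputable def comp {V B : Type*} [CommGroup V] [CommGroup B] (v : V)
    (z : MonoidAlgebra ℤ (V × B)) : MonoidAlgebra ℤ B :=
  MonoidAlgebra.ofCoeff (z.coeff.comapDomain (fun b => (v, b))
    (fun _ _ _ _ h => (Prod.mk.inj h).2))

theorem comp_coeff {V B : Type*} [CommGroup V] [CommGroup B] (v : V)
    (z : MonoidAlgebra ℤ (V × B)) (b : B) : (comp v z).coeff b = z.coeff (v, b) := rfl

/-- Torsion-free abelian groups have the unique product property. -/
theorem rarm_uniqueProds (V : Type*) [CommGroup V] [IsMulTorsionFree V] : UniqueProds V where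
  uniqueMul_of_nonempty {A C} hA hC := by
    classical
    let H : Subgroup V := Subgroup.closure ((A : Set V) ∪ C)
    have hAH : ∀ a ∈ A, a ∈ H := fun a ha => Subgroup.subset_closure (Or.inl ha)
    have hCH : ∀ c ∈ C, c ∈ H := fun c hc => Subgroup.subset_closure (Or.inr hc)
    have hfg : H.FG := ⟨A ∪ C, by rw [Finset.coe_union]⟩
    have : Group.FG H := (Group.fg_iff_subgroup_fg H).2 hfg
    have : Monoid.FG H := Group.fg_iff_monoid_fg.1 inferInstance
    have hinj : Function.Injective H.subtype := Subtype.val_injective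
    have : IsMulTorsionFree H := hinj.isMulTorsionFree H.subtype
    let A' : Finset H := A.attach.image fun a => ⟨a.1, hAH a.1 a.2⟩
    let C' : Finset H := C.attach.image fun c => ⟨c.1, hCH c.1 c.2⟩
    have hA' : ∀ x : H, x ∈ A' ↔ (x : V) ∈ A := by
      intro x
      simp only [A', Finset.mem_image, Finset.mem_attach, true_and, Subtype.exists]
      constructor
      · rintro ⟨a, ha, rfl⟩
        exact ha
      · intro hx
        exact ⟨x, hx, rfl⟩
    have hC' : ∀ x : H, x ∈ C' ↔ (x : V) ∈ C := by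
      intro x
      simp only [C', Finset.mem_image, Finset.mem_attach, true_and, Subtype.exists]
      constructor
      · rintro ⟨a, ha, rfl⟩
        exact ha
      · intro hx
        exact ⟨x, hx, rfl⟩
    obtain ⟨a, ha⟩ := hA
    obtain ⟨c, hc⟩ := hC
    have : UniqueProds H := inferInstance
    obtain ⟨a0, ha0, c0, hc0, hu⟩ := UniqueProds.uniqueMul_of_nonempty (A := A') (B := C')
      ⟨⟨a, hAH a ha⟩, (hA' _).2 ha⟩ ⟨⟨c, hCH c hc⟩, (hC' _).2 hc⟩
    refine ⟨a0, (hA' _).1 ha0, c0, (hC' _).1 hc0, ?_⟩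
    intro x y hx hy hxy
    have h1 := hu (a := ⟨x, hAH x hx⟩) (b := ⟨y, hCH y hy⟩) ((hA' _).2 hx) ((hC' _).2 hy)
      (Subtype.ext hxy)
    exact ⟨congrArg Subtype.val h1.1, congrArg Subtype.val h1.2⟩

theorem rarm_curry {V B : Type*} [CommGroup V] [CommGroup B] (v : V)
    (z : MonoidAlgebra ℤ (V × B)) :
    (MonoidAlgebra.curryRingEquiv (R := ℤ) (M := V) (N := B) z).coeff v = comp v z := by
  classical
  have hadd : ∀ x y : MonoidAlgebra ℤ (V × B), comp v (x + y) = comp v x + comp v y := by
    intro x y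
    rw [← MonoidAlgebra.coeff_inj]
    ext b
    rw [MonoidAlgebra.coeff_add, Finsupp.add_apply, comp_coeff, comp_coeff, comp_coeff,
      MonoidAlgebra.coeff_add, Finsupp.add_apply]
  induction z using MonoidAlgebra.induction_linear with
  | zero =>
    rw [map_zero, ← MonoidAlgebra.coeff_inj]
    ext b
    rw [comp_coeff]
    simp
  | add x y hx hy => rw [map_add, MonoidAlgebra.coeff_add, Finsupp.add_apply, hx, hy, hadd]
  | single a r =>
    obtain ⟨w, b⟩ := a
    rw [MonoidAlgebra.curryRingEquiv_single, ← MonoidAlgebra.coeff_inj]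
    ext c
    rw [comp_coeff, MonoidAlgebra.coeff_single, MonoidAlgebra.coeff_single, Finsupp.single_apply,
      Finsupp.single_apply]
    by_cases h : w = v
    · subst h
      simp [Finsupp.single_apply]
    · simp [h]

/-- If `V` is torsion-free, `ℤ[B]` is reduced and `D * z = 0` in `ℤ[V × B]` then every product of
a component of `D` with a component of `z` is zero.

Proof: `ℤ[B]` is reduced, so it is enough to show that the product lies in every prime ideal `P`
of `ℤ[B]` (`nilradical_eq_sInf`, `isReduced_iff_nilpotent..`/`mem_nilradical`). Let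
`R := ℤ[B] ⧸ P`, a domain. Let `φ : MonoidAlgebra ℤ (V × B) →+* MonoidAlgebra R V` be
`MonoidAlgebra.lift ℤ _ (V × B)` applied to the monoid homomorphism
`(v, b) ↦ MonoidAlgebra.single v (mk (single b 1))`; the coefficient of `φ z` at `v` is
`mk (comp v z)` (check it on `single (v, b) n` and use linearity). `MonoidAlgebra R V` has no zero
divisors (`UniqueProds V` holds for torsion-free abelian groups: Mathlib has
`TwoUniqueSums`/`UniqueProds` for `IsMulTorsionFree` commutative groups in
`Mathlib/Algebra/Group/UniqueProds/VectorSpace.lean`), and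
`φ D * φ z = 0`, so `φ D = 0` or `φ z = 0`; in both cases `comp v D * comp v' z ∈ P`. -/
theorem comp_mul_comp_eq_zero {V B : Type*} [CommGroup V] [IsMulTorsionFree V] [CommGroup B]
    [IsReduced (MonoidAlgebra ℤ B)] (D z : MonoidAlgebra ℤ (V × B)) (h : D * z = 0) (v v' : V) :
    comp v D * comp v' z = 0 := by
  have : UniqueProds V := rarm_uniqueProds V
  have key : ∀ P : Ideal (MonoidAlgebra ℤ B), P.IsPrime → comp v D * comp v' z ∈ P := by
    intro P hP
    have := hP
    let φ : MonoidAlgebra ℤ (V × B) →+* MonoidAlgebra (MonoidAlgebra ℤ B ⧸ P) V :=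
      (MonoidAlgebra.mapRingHom V (Ideal.Quotient.mk P)).comp
        (MonoidAlgebra.curryRingEquiv (R := ℤ) (M := V) (N := B)).toRingHom
    have hφ : ∀ (x : MonoidAlgebra ℤ (V × B)) (w : V),
        (φ x).coeff w = Ideal.Quotient.mk P (comp w x) := by
      intro x w
      rw [← rarm_curry w x]
      exact MonoidAlgebra.coeff_mapRingHom _ _ _
    have h0 : φ D * φ z = 0 := by rw [← map_mul, h, map_zero]
    rcases mul_eq_zero.1 h0 with h1 | h1
    · have h2 : Ideal.Quotient.mk P (comp v D) = 0 := by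
        rw [← hφ, h1]; simp
      exact Ideal.mul_mem_right _ _ (Ideal.Quotient.eq_zero_iff_mem.1 h2)
    · have h2 : Ideal.Quotient.mk P (comp v' z) = 0 := by
        rw [← hφ, h1]; simp
      exact Ideal.mul_mem_left _ _ (Ideal.Quotient.eq_zero_iff_mem.1 h2)
  have h3 : comp v D * comp v' z ∈ nilradical (MonoidAlgebra ℤ B) := by
    rw [nilradical_eq_sInf, Submodule.mem_sInf]
    intro P hP
    exact key P hP
  exact (mem_nilradical.1 h3).eq_zero

end Pool.Agent.Lib.MP_69c751_al.TM
end

section

set_option autoImplicit false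

/-!
Job TM-R4.
-/

namespace Pool.Agent.Lib.MP_69c751_al.TM

private lemma rmod2_dvd_iff {Q : Type*} [CommGroup Q] (p : ℕ) [NeZero p] (z : MonoidAlgebra ℤ Q) :
    ((p : ℤ) : MonoidAlgebra ℤ Q) ∣ z ↔
      MonoidAlgebra.mapRingHom Q (Int.castRingHom (ZMod p)) z = 0 := by
  constructor
  · rintro ⟨w, rfl⟩
    rw [map_mul, map_intCast, ← map_intCast (algebraMap (ZMod p) (MonoidAlgebra (ZMod p) Q))]
    simp
  · intro h
    refine ⟨MonoidAlgebra.ofCoeff (Finsupp.mapRange (fun a : ℤ => a / (p : ℤ)) (by simp) z.coeff),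
      ?_⟩
    rw [← zsmul_eq_mul]
    ext q
    have h1 : (MonoidAlgebra.mapRingHom Q (Int.castRingHom (ZMod p)) z).coeff q = 0 := by
      rw [h]; rfl
    rw [MonoidAlgebra.coeff_mapRingHom] at h1
    have h2 : ((z.coeff q : ℤ) : ZMod p) = 0 := h1
    rw [ZMod.intCast_zmod_eq_zero_iff_dvd] at h2
    rw [MonoidAlgebra.coeff_smul, Finsupp.smul_apply]
    show z.coeff q = (p : ℤ) • (Finsupp.mapRange (fun a : ℤ => a / (p : ℤ)) (by simp) z.coeff) q
    rw [Finsupp.mapRange_apply, smul_eq_mul, Int.mul_ediv_cancel' h2]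

private lemma rmod2_surj {Q : Type*} [CommGroup Q] (p : ℕ) [NeZero p] :
    Function.Surjective (MonoidAlgebra.mapRingHom Q (Int.castRingHom (ZMod p))) := by
  intro x
  refine ⟨MonoidAlgebra.ofCoeff (Finsupp.mapRange (fun a : ZMod p => (a.val : ℤ)) (by simp) x.coeff),
    ?_⟩
  ext q
  rw [MonoidAlgebra.coeff_mapRingHom]
  show ((Finsupp.mapRange (fun a : ZMod p => (a.val : ℤ)) (by simp) x.coeff q : ℤ) : ZMod p) = _
  rw [Finsupp.mapRange_apply]
  simp

/-- Let `Q` be a finite abelian group, `p` a prime not dividing `|Q|` and `M` a proper ideal of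
`ℤ[Q]` with `p ∈ M`. Then there is `z ∈ ℤ[Q]`, such that no power of `z` is divisible by `p` and
`z * m` is divisible by `p` for all `m ∈ M`.

Proof: let `k = ZMod p` and let `Mbar` be the image of `M` in `k[Q]` under
`π : ℤ[Q] → k[Q]` (`MonoidAlgebra.mapRangeRingHom Q (Int.castRingHom (ZMod p))`), which is a
surjective ring homomorphism with kernel `p ℤ[Q]`; since `p ∈ M`, `Mbar` is a proper ideal.
By Maschke's theorem (`MonoidAlgebra.Submodule.complementedLattice` or
`MonoidAlgebra.Submodule.exists_isCompl`, for the module `k[Q]` over itself) there is an ideal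
`J` of `k[Q]` with `IsCompl Mbar J`. Write `1 = m + e` with `m ∈ Mbar`, `e ∈ J`. Then `e ≠ 0`,
`e * Mbar ⊆ J ⊓ Mbar = 0`, and `e * e = e * (1 - m) = e`. Lift `e` to `z`. Every power of `z`
maps to `e ≠ 0` (for the power zero: `1 ≠ 0`), so it is not divisible by `p`. -/
theorem exists_annihilator_mod (Q : Type*) [CommGroup Q] [Fintype Q] (p : ℕ) (hp : p.Prime)
    (hpQ : ¬ p ∣ Fintype.card Q) (M : Ideal (MonoidAlgebra ℤ Q)) (hM : M ≠ ⊤)
    (hpM : ((p : ℤ) : MonoidAlgebra ℤ Q) ∈ M) :
    ∃ z : MonoidAlgebra ℤ Q, (∀ k : ℕ, ¬ ((p : ℤ) : MonoidAlgebra ℤ Q) ∣ z ^ k) ∧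
      ∀ m ∈ M, ((p : ℤ) : MonoidAlgebra ℤ Q) ∣ z * m := by
  have : Fact p.Prime := ⟨hp⟩
  have : NeZero p := ⟨hp.ne_zero⟩
  have : NeZero (Nat.card Q : ZMod p) := by
    refine ⟨?_⟩
    rw [Nat.card_eq_fintype_card, Ne, ZMod.natCast_eq_zero_iff]
    exact hpQ
  set π := MonoidAlgebra.mapRingHom Q (Int.castRingHom (ZMod p)) with hπ
  have hdvd : ∀ z : MonoidAlgebra ℤ Q, ((p : ℤ) : MonoidAlgebra ℤ Q) ∣ z ↔ π z = 0 :=
    rmod2_dvd_iff p
  have hsurj : Function.Surjective π := rmod2_surj p
  set Mb : Ideal (MonoidAlgebra (ZMod p) Q) := Ideal.map π M with hMb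
  have hmem : ∀ y, y ∈ Mb ↔ ∃ x ∈ M, π x = y := fun y =>
    Ideal.mem_map_iff_of_surjective π hsurj
  have h1 : (1 : MonoidAlgebra (ZMod p) Q) ∉ Mb := by
    intro h
    obtain ⟨x, hx, hx1⟩ := (hmem _).mp h
    have h2 : π (1 - x) = 0 := by rw [map_sub, map_one, hx1, sub_self]
    rw [← hdvd] at h2
    have h3 : 1 - x ∈ M := Ideal.mem_of_dvd M h2 hpM
    have h4 : (1 : MonoidAlgebra ℤ Q) ∈ M := by
      have := M.add_mem h3 hx
      rwa [sub_add_cancel] at this
    exact hM ((Ideal.eq_top_iff_one _).mpr h4)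
  obtain ⟨J, hJ⟩ := exists_isCompl (α := Submodule (MonoidAlgebra (ZMod p) Q)
    (MonoidAlgebra (ZMod p) Q)) Mb
  have h5 : (1 : MonoidAlgebra (ZMod p) Q) ∈ (Mb ⊔ J : Submodule (MonoidAlgebra (ZMod p) Q)
    (MonoidAlgebra (ZMod p) Q)) := by rw [hJ.sup_eq_top]; trivial
  obtain ⟨m, hm, e, he, hme⟩ := Submodule.mem_sup.mp h5
  have he0 : e ≠ 0 := by
    intro h
    rw [h, add_zero] at hme
    exact h1 (hme ▸ hm)
  have hann : ∀ x ∈ Mb, e * x = 0 := by
    intro x hx
    have a1 : e * x ∈ Mb := Mb.mul_mem_left e hx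
    have a2 : e * x ∈ J := by
      rw [mul_comm]
      exact J.smul_mem x he
    have a3 : e * x ∈ (Mb ⊓ J : Submodule (MonoidAlgebra (ZMod p) Q)
      (MonoidAlgebra (ZMod p) Q)) := ⟨a1, a2⟩
    rw [hJ.inf_eq_bot] at a3
    exact (Submodule.mem_bot _).mp a3
  have hee : IsIdempotentElem e := by
    have a1 : e * 1 = e * m + e * e := by rw [← hme, mul_add]
    rw [hann m hm, zero_add, mul_one] at a1
    exact a1.symm
  obtain ⟨z, hz⟩ := hsurj e
  refine ⟨z, ?_, ?_⟩
  · intro k hk
    rw [hdvd, map_pow, hz] at hk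
    cases k with
    | zero =>
      rw [pow_zero] at hk
      apply he0
      rw [← mul_one e, hk, mul_zero]
    | succ k =>
      rw [hee.pow_succ_eq] at hk
      exact he0 hk
  · intro x hx
    rw [hdvd, map_mul, hz]
    exact hann _ ((hmem _).mpr ⟨x, hx, rfl⟩)

end Pool.Agent.Lib.MP_69c751_al.TM
end

section

set_option autoImplicit false

/-!
Job TM-R1: the integral group ring of an abelian group is reduced.
-/

namespace Pool.Agent.Lib.MP_69c751_al.TM

private noncomputable def st {B : Type*} [CommGroup B] :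
    MonoidAlgebra ℤ B ≃+* MonoidAlgebra ℤ B :=
  MonoidAlgebra.mapDomainRingEquiv ℤ (MulEquiv.inv B)

private theorem st_coeff {B : Type*} [CommGroup B] (y : MonoidAlgebra ℤ B) (b : B) :
    (st y).coeff b = y.coeff b⁻¹ := by
  simp [st]

private theorem st_st {B : Type*} [CommGroup B] (y : MonoidAlgebra ℤ B) : st (st y) = y := by
  apply MonoidAlgebra.coeff_injective
  ext b
  rw [st_coeff, st_coeff, inv_inv]

private theorem eq_zero_of_mul_st {B : Type*} [CommGroup B] {y : MonoidAlgebra ℤ B}
    (h : y * st y = 0) : y = 0 := by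
  have h1 : (y * st y).coeff 1 = 0 := by rw [h]; rfl
  rw [MonoidAlgebra.coeff_mul_apply_left, Finsupp.sum] at h1
  have h2 : ∀ g ∈ y.coeff.support, y.coeff g * (st y).coeff (g⁻¹ * 1) = 0 := by
    refine (Finset.sum_eq_zero_iff_of_nonneg fun g _ => ?_).1 h1
    rw [st_coeff, mul_one, inv_inv]
    exact mul_self_nonneg _
  apply MonoidAlgebra.coeff_injective
  ext g
  by_cases hg : g ∈ y.coeff.support
  · have := h2 g hg
    rw [st_coeff, mul_one, inv_inv] at this
    exact mul_self_eq_zero.1 this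
  · exact Finsupp.notMem_support_iff.1 hg

/-- The integral group ring of an abelian group is reduced.

Proof: let `star` be the ring endomorphism `MonoidAlgebra.mapDomainRingHom ℤ (invMonoidHom)`
(`g ↦ g⁻¹`). The coefficient at `1` of `y * star y` is `∑ g, (y g) ^ 2`, so `y * star y = 0`
implies `y = 0`. If `y ^ 2 = 0` put `u = y * star y`; then `star u = u` and
`u * star u = u ^ 2 = y ^ 2 * star y ^ 2 = 0`, so `u = 0`, hence `y = 0`. By induction (for
instance `isReduced_of_sq`-type lemmas: it is enough to show `y ^ 2 = 0 → y = 0`), the ring is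
reduced. -/
theorem groupRing_isReduced (B : Type*) [CommGroup B] : IsReduced (MonoidAlgebra ℤ B) := by
  rw [isReduced_iff_pow_one_lt 2 (by norm_num)]
  intro y hy
  apply eq_zero_of_mul_st
  apply eq_zero_of_mul_st
  rw [map_mul, st_st]
  calc y * st y * (st y * y) = y ^ 2 * (st y * st y) := by ring
    _ = 0 := by rw [hy, zero_mul]

end Pool.Agent.Lib.MP_69c751_al.TM
end

section

set_option autoImplicit false

/-!
Job TM-R3.
-/

namespace Pool.Agent.Lib.MP_69c751_al.TM

/-- Let `Q` be a finite abelian `q`-group, `M` an ideal of `ℤ[Q]` with `q ∈ M` and `M ≠ ⊤` prime.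
Then `M` contains `single t 1 - 1` for all `t` (because `(t - 1) ^ (q ^ k) ∈ q ℤ[Q] ⊆ M` when
`t ^ (q ^ k) = 1`; see `add_pow_char_pow`/`sub_pow_char_pow` in the quotient ring
`ℤ[Q] ⧸ M`, which has characteristic `q`), and hence every `d ∈ M` has augmentation divisible
by `q`: otherwise, modulo `M`, `d` equals its augmentation `a`, an integer prime to `q`, which
would give `1 ∈ M`. -/
theorem dvd_aug_of_mem (Q : Type*) [CommGroup Q] [Fintype Q] (q : ℕ) (hq : q.Prime)
    (hQ : IsPGroup q Q) (M : Ideal (MonoidAlgebra ℤ Q)) (hM : M.IsPrime)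
    (hqM : ((q : ℤ) : MonoidAlgebra ℤ Q) ∈ M) (d : MonoidAlgebra ℤ Q) (hd : d ∈ M) :
    (q : ℤ) ∣ ∑ t, d.coeff t := by
  have := hM
  let R := MonoidAlgebra ℤ Q ⧸ M
  let mk : MonoidAlgebra ℤ Q →+* R := Ideal.Quotient.mk M
  have hq0 : ((q : ℕ) : R) = 0 := by
    have h1 : mk ((q : ℤ) : MonoidAlgebra ℤ Q) = 0 := Ideal.Quotient.eq_zero_iff_mem.2 hqM
    rw [map_intCast] at h1
    exact_mod_cast h1
  have : CharP R q := (CharP.charP_iff_prime_eq_zero hq).2 hq0
  have : Fact q.Prime := ⟨hq⟩
  have : ExpChar R q := ExpChar.prime hq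
  have ht : ∀ t : Q, mk (MonoidAlgebra.single t 1) = 1 := by
    intro t
    obtain ⟨k, hk⟩ := hQ t
    have h1 : (mk (MonoidAlgebra.single t 1) - 1) ^ q ^ k = 0 := by
      rw [sub_pow_expChar_pow, one_pow, ← map_pow, MonoidAlgebra.single_pow, hk, one_pow,
        ← MonoidAlgebra.one_def, map_one, sub_self]
    exact sub_eq_zero.1 (eq_zero_of_pow_eq_zero h1)
  have hsum : mk d = ((∑ t, d.coeff t : ℤ) : R) := by
    have h1 : d = ∑ t, (d.coeff t) • MonoidAlgebra.single t (1 : ℤ) := by
      apply MonoidAlgebra.coeff_injective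
      ext u
      rw [MonoidAlgebra.coeff_sum, Finsupp.finsetSum_apply, Finset.sum_eq_single u]
      · simp
      · intro b _ hb
        simp [hb]
      · intro h
        exact absurd (Finset.mem_univ u) h
    conv_lhs => rw [h1]
    rw [map_sum, Int.cast_sum]
    refine Finset.sum_congr rfl fun t _ => ?_
    rw [map_zsmul, ht, zsmul_eq_mul, mul_one]
  have h0 : ((∑ t, d.coeff t : ℤ) : R) = 0 := by
    rw [← hsum]
    exact Ideal.Quotient.eq_zero_iff_mem.2 hd
  exact (CharP.intCast_eq_zero_iff R q _).1 h0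

end Pool.Agent.Lib.MP_69c751_al.TM
end
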