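import Mathlib
import Pool.Agent.Lib.MP_69c751_al.TM.RMod1
import Pool.Agent.Lib.MP_69c751_al.TM.Aff

section

set_option autoImplicit false

/-!
Job TM-R6.
-/

namespace Pool.Agent.Lib.MP_69c751_al.TM

/-- A maximal ideal of the integral group ring of a finite group contains a prime number.
(`Ideal.isMaximal_comap_of_isIntegral_of_isMaximal` applied to `algebraMap ℤ ℤ[Q]`, and a maximal
ideal of `ℤ` is generated by a prime.) -/
theorem exists_prime_mem (Q : Type*) [CommGroup Q] [Fintype Q] (M : Ideal (MonoidAlgebra ℤ Q))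
    (hM : M.IsMaximal) : ∃ p : ℕ, p.Prime ∧ ((p : ℤ) : MonoidAlgebra ℤ Q) ∈ M := by
  have := hM
  have h1 : (Ideal.comap (algebraMap ℤ (MonoidAlgebra ℤ Q)) M).IsMaximal :=
    Ideal.isMaximal_comap_of_isIntegral_of_isMaximal M
  set J := Ideal.comap (algebraMap ℤ (MonoidAlgebra ℤ Q)) M with hJ
  have hne : J ≠ ⊥ := Ring.ne_bot_of_isMaximal_of_not_isField h1 Int.not_isField
  have hpr := Submodule.IsPrincipal.prime_generator_of_isPrime J hne
  refine ⟨(Submodule.IsPrincipal.generator J).natAbs, Int.prime_iff_natAbs_prime.1 hpr, ?_⟩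
  have h2 : Submodule.IsPrincipal.generator J ∈ J := Submodule.IsPrincipal.generator_mem J
  have h3 : (((Submodule.IsPrincipal.generator J).natAbs : ℕ) : ℤ) ∈ J := by
    rcases Int.natAbs_eq (Submodule.IsPrincipal.generator J) with h | h
    · rw [← h]; exact h2
    · have h4 : ((Submodule.IsPrincipal.generator J).natAbs : ℤ) =
          - Submodule.IsPrincipal.generator J := by omega
      rw [h4]
      exact J.neg_mem h2
  have h5 := Ideal.mem_comap.1 h3
  simpa using h5

end Pool.Agent.Lib.MP_69c751_al.TM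
end

section

set_option autoImplicit false

/-!
Job TM-R7: the restriction of an element of a group ring to a subgroup.
-/

namespace Pool.Agent.Lib.MP_69c751_al.TM

/-- The `Q`-component of an element of the group ring of `B`. -/
noncomputable def res {B : Type*} [CommGroup B] (Q : Subgroup B) (z : MonoidAlgebra ℤ B) :
    MonoidAlgebra ℤ Q :=
  MonoidAlgebra.ofCoeff (z.coeff.comapDomain (fun t : Q => (t : B))
    (fun _ _ _ _ h => Subtype.ext h))

theorem res_coeff {B : Type*} [CommGroup B] (Q : Subgroup B) (z : MonoidAlgebra ℤ B) (t : Q) :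
    (res Q z).coeff t = z.coeff (t : B) := rfl

/-- The inclusion of group rings. -/
noncomputable def incl {B : Type*} [CommGroup B] (Q : Subgroup B) :
    MonoidAlgebra ℤ Q →+* MonoidAlgebra ℤ B :=
  MonoidAlgebra.mapDomainRingHom ℤ Q.subtype

private theorem res_zero {B : Type*} [CommGroup B] (Q : Subgroup B) :
    res Q (0 : MonoidAlgebra ℤ B) = 0 := by
  ext t
  rw [res_coeff]
  rfl

private theorem res_add {B : Type*} [CommGroup B] (Q : Subgroup B) (y z : MonoidAlgebra ℤ B) :
    res Q (y + z) = res Q y + res Q z := by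
  ext t
  rw [MonoidAlgebra.coeff_add, Finsupp.add_apply, res_coeff, res_coeff, res_coeff,
    MonoidAlgebra.coeff_add, Finsupp.add_apply]

/-- `res` is linear over the group ring of `Q`. (Check on `y = single t n`,
`z = single b m`.) -/
theorem res_incl_mul {B : Type*} [CommGroup B] (Q : Subgroup B) (y : MonoidAlgebra ℤ Q)
    (z : MonoidAlgebra ℤ B) : res Q (incl Q y * z) = y * res Q z := by
  induction y using MonoidAlgebra.induction_linear with
  | zero => rw [map_zero, zero_mul, zero_mul, res_zero]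
  | add x y hx hy => rw [map_add, add_mul, res_add, hx, hy, add_mul]
  | single t n =>
    ext s
    have h1 : incl Q (MonoidAlgebra.single t n) = MonoidAlgebra.single (t : B) n := by
      unfold incl
      simp
    have h2 : (MonoidAlgebra.single t n * res Q z).coeff s = n * (res Q z).coeff (t⁻¹ * s) := by
      refine MonoidAlgebra.coeff_single_mul_eq_mul_coeff (t⁻¹ * s) fun m' _ => ?_
      rw [eq_inv_mul_iff_mul_eq]
    have h3 : (MonoidAlgebra.single (t : B) n * z).coeff (s : B) =
        n * z.coeff ((t : B)⁻¹ * s) := by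
      refine MonoidAlgebra.coeff_single_mul_eq_mul_coeff ((t : B)⁻¹ * s) fun m' _ => ?_
      rw [eq_inv_mul_iff_mul_eq]
    rw [res_coeff, h1, h2, h3, res_coeff]
    simp

end Pool.Agent.Lib.MP_69c751_al.TM
end

section

set_option autoImplicit false

/-!
Job TM-R5.
-/

namespace Pool.Agent.Lib.MP_69c751_al.TM

/-- Let `Q` be a finite abelian `q`-group and let `d ∈ ℤ[Q]` have augmentation prime to `q`. Then
`d` divides a nonzero integer.

Proof: `d` is not a zero divisor: if `d * y = 0` with `y ≠ 0`, divide `y` by the largest power of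
`q` dividing all its coefficients, so that `y ∉ q ℤ[Q]`; but `d` is a unit modulo `q`
(`d - a` is nilpotent modulo `q`, where `a` is the augmentation, as `t - 1` is nilpotent modulo
`q` for all `t`), so `y ∈ q ℤ[Q]`, a contradiction. `ℤ[Q]` is integral over `ℤ` (it is a finite
`ℤ`-module), so `d` divides a nonzero integer: `IsAlgebraic.exists_nonzero_dvd`
(with `IsIntegral.isAlgebraic`); here `d ∈ nonZeroDivisors`. -/
theorem exists_dvd_int (Q : Type*) [CommGroup Q] [Fintype Q] (q : ℕ) (hq : q.Prime)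
    (hQ : IsPGroup q Q) (d : MonoidAlgebra ℤ Q) (hd : ¬ (q : ℤ) ∣ ∑ t, d.coeff t) :
    ∃ N : ℤ, N ≠ 0 ∧ d ∣ (N : MonoidAlgebra ℤ Q) := by
  -- `d` and `q` generate the unit ideal
  have hq1 : Ideal.span {d, ((q : ℤ) : MonoidAlgebra ℤ Q)} = ⊤ := by
    by_contra hne
    obtain ⟨M, hM, hle⟩ := Ideal.exists_le_maximal _ hne
    refine hd (dvd_aug_of_mem Q q hq hQ M hM.isPrime (hle (Ideal.subset_span (by simp))) d
      (hle (Ideal.subset_span (by simp))))
  obtain ⟨x, y, hxy⟩ := Ideal.mem_span_pair.1 ((Ideal.eq_top_iff_one _).1 hq1)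
  -- `d` is not a zero divisor
  have hnzd : d ∈ nonZeroDivisors (MonoidAlgebra ℤ Q) := by
    rw [mem_nonZeroDivisors_iff_right]
    intro z hz
    have hstep : z = (q : ℤ) • (y * z) := by
      calc z = (x * d + y * ((q : ℤ) : MonoidAlgebra ℤ Q)) * z := by rw [hxy, one_mul]
        _ = x * (z * d) + ((q : ℤ) : MonoidAlgebra ℤ Q) * (y * z) := by ring
        _ = (q : ℤ) • (y * z) := by rw [hz, mul_zero, zero_add, zsmul_eq_mul]
    have hpow : ∀ n : ℕ, z = ((q : ℤ) ^ n) • (y ^ n * z) := by
      intro n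
      induction n with
      | zero => simp
      | succ n ih =>
        calc z = ((q : ℤ) ^ n) • (y ^ n * z) := ih
          _ = ((q : ℤ) ^ n) • (y ^ n * ((q : ℤ) • (y * z))) := by rw [← hstep]
          _ = ((q : ℤ) ^ (n + 1)) • (y ^ (n + 1) * z) := by
            rw [mul_smul_comm, smul_smul, ← pow_succ, ← mul_assoc, ← pow_succ]
    apply MonoidAlgebra.coeff_injective
    ext t
    by_contra hne
    have hdvd : ∀ n : ℕ, ((q : ℤ) ^ n) ∣ z.coeff t := by
      intro n
      refine ⟨(y ^ n * z).coeff t, ?_⟩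
      conv_lhs => rw [hpow n]
      rfl
    have hfin : FiniteMultiplicity (q : ℤ) (z.coeff t) := by
      rw [Int.finiteMultiplicity_iff]
      exact ⟨by simpa using hq.one_lt.ne', hne⟩
    obtain ⟨n, hn⟩ := hfin
    exact hn (hdvd (n + 1))
  have halg : IsAlgebraic ℤ d := (Algebra.IsIntegral.isIntegral d).isAlgebraic
  obtain ⟨N, hN, hdN⟩ := halg.exists_nonzero_dvd hnzd
  refine ⟨N, hN, ?_⟩
  simpa using hdN

end Pool.Agent.Lib.MP_69c751_al.TM
end

section

set_option autoImplicit false
set_option linter.unusedSectionVars false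

/-!
Job TM-G5, TM-G6: the module of characters and the embedding.
-/

namespace Pool.Agent.Lib.MP_69c751_al.TM

open Monoid

universe u v

/-- If multiplication by `D` is injective on the ideal generated by `b`, it is surjective on the
character module of this ideal. (`CharacterModule.dual_surjective_of_injective` applied to the
linear endomorphism `D • ·` of `Ideal.span {b}`; elements of the ideal are of the form `b * y`,
`Ideal.mem_span_singleton'`.) -/
theorem smul_char_surjective {S : Type*} [CommRing S] (b D : S)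
    (h : ∀ y, D * (b * y) = 0 → b * y = 0) (c : CharacterModule (Ideal.span {b})) :
    ∃ c' : CharacterModule (Ideal.span {b}), D • c' = c := by
  let f : (Ideal.span {b} : Ideal S) →ₗ[S] (Ideal.span {b} : Ideal S) :=
    LinearMap.lsmul S (Ideal.span {b} : Ideal S) D
  have hf : Function.Injective f := by
    rw [injective_iff_map_eq_zero]
    rintro ⟨x, hx⟩ h0
    obtain ⟨y, rfl⟩ := Ideal.mem_span_singleton'.1 hx
    have h1 : D * (y * b) = 0 := congrArg Subtype.val h0
    rw [mul_comm y b] at h1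
    have h2 := h y h1
    apply Subtype.ext
    change y * b = 0
    rw [mul_comm, h2]
  obtain ⟨c', hc'⟩ := CharacterModule.dual_surjective_of_injective f hf c
  refine ⟨c', ?_⟩
  rw [← hc']
  rfl

section Emb

variable {F : Type u} [CommGroup F]

/-- the additive map of a function on `F` -/
private noncomputable def embPhi (φ : F → AddCircle (1 : ℚ)) :
    MonoidAlgebra ℤ F →+ AddCircle (1 : ℚ) :=
  (Finsupp.liftAddHom (fun t => (zmultiplesHom _ (φ t)))).comp
    (MonoidAlgebra.coeffAddEquiv.toAddMonoidHom)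

private lemma embPhi_apply (φ : F → AddCircle (1 : ℚ)) (y : MonoidAlgebra ℤ F) :
    embPhi φ y = y.coeff.sum fun t n => n • φ t := rfl

private lemma embPhi_single (φ : F → AddCircle (1 : ℚ)) (t : F) (n : ℤ) :
    embPhi φ (MonoidAlgebra.single t n) = n • φ t := by
  rw [embPhi_apply, MonoidAlgebra.coeff_single, Finsupp.sum_single_index]
  exact zero_smul _ _

private lemma embPhi_add (φ ψ : F → AddCircle (1 : ℚ)) (y : MonoidAlgebra ℤ F) :
    embPhi (fun t => φ t + ψ t) y = embPhi φ y + embPhi ψ y := by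
  simp only [embPhi_apply, smul_add]
  exact Finsupp.sum_add

private lemma embPhi_gr (φ : F → AddCircle (1 : ℚ)) (s : F) (y : MonoidAlgebra ℤ F) :
    embPhi φ (Aff.gr s * y) = embPhi (fun t => φ (s * t)) y := by
  induction y using MonoidAlgebra.induction_linear with
  | zero => simp
  | add a b ha hb => rw [mul_add, map_add, ha, hb, map_add]
  | single t n =>
    rw [Aff.gr_eq_single, MonoidAlgebra.single_mul_single, embPhi_single, embPhi_single, one_mul]

end Emb

/-- The embedding of `G` into the semidirect product of a power of the character module by `F`.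

Proof. Let `K := π.ker` (abelian by `hK`). Choose `σ : F → G` with `π (σ t) = t` for `t` in the
range of `π`. For `g : G` and `t` in the range put
`κ g t := σ t * g * (σ (t * π g))⁻¹ ∈ K`; then `κ (g * h) t = κ g t * κ h (t * π g)`.
Let `I := K →* Multiplicative (AddCircle (1 : ℚ))` (or the additive version
`Additive K →+ AddCircle (1 : ℚ)`), and for `g : G`, `χ : I` let `c g χ` be the character
`y ↦ y.coeff.sum (fun t n => if t ∈ range π then n • χ (κ g t) else 0)` of `Ideal.span {b}`.
Since the coefficient of `gr s * y` at `s * t` is the one of `y` at `t`, one gets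
`c (g * h) χ y = c g χ y + c h χ (gr (π g) * y)`, i.e. `c (g * h) = c g + gr (π g) • c h`, and
`g ↦ (c g, π g)` is a homomorphism. If `g` is in its kernel then `π g = 1`, `g ∈ K`, and
`0 = c g χ b = χ (σ 1 * g * (σ 1)⁻¹)` for all `χ`, by `hb1`, `hb` (only `t = 1` contributes); as
characters separate the elements of the abelian group `K`
(`CharacterModule.exists_character_apply_ne_zero_of_ne_zero`), `σ 1 * g * (σ 1)⁻¹ = 1`. -/
theorem exists_embedding {G : Type u} [Group G] {F : Type u} [CommGroup F] (π : G →* F)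
    (hK : ∀ a ∈ π.ker, ∀ b ∈ π.ker, a * b = b * a) (b : MonoidAlgebra ℤ F)
    (hb1 : ∀ g, π g ≠ 1 → b.coeff (π g) = 0) (hb : b.coeff 1 = 1) :
    ∃ (I : Type u) (f : G →* Aff F (I → CharacterModule (Ideal.span {b}))),
      Function.Injective f ∧ ∀ g, (f g).f = π g := by
  classical
  let _ : CommGroup π.ker :=
    { (inferInstance : Group π.ker) with
      mul_comm := fun a b => Subtype.ext (hK a a.2 b b.2) }
  have hσ : ∀ t : F, ∃ x : G, t ∈ π.range → π x = t := by
    intro t
    by_cases ht : t ∈ π.range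
    · obtain ⟨x, hx⟩ := ht
      exact ⟨x, fun _ => hx⟩
    · exact ⟨1, fun h => absurd h ht⟩
  choose σ hσ using hσ
  have hmem : ∀ (g : G) (t : F), t ∈ π.range → π g * t ∈ π.range := fun g t ht =>
    π.range.mul_mem ⟨g, rfl⟩ ht
  have hker : ∀ (g : G) (t : F), t ∈ π.range → σ t * g * (σ (π g * t))⁻¹ ∈ π.ker := by
    intro g t ht
    rw [MonoidHom.mem_ker, map_mul, map_mul, map_inv, hσ t ht, hσ _ (hmem g t ht), mul_comm t,
      mul_inv_cancel]
  let κ : G → F → π.ker := fun g t =>
    if ht : t ∈ π.range then ⟨σ t * g * (σ (π g * t))⁻¹, hker g t ht⟩ else 1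
  have hκ : ∀ (g h : G) (t : F), κ (g * h) t = κ g t * κ h (π g * t) := by
    intro g h t
    by_cases ht : t ∈ π.range
    · have h1 : κ (g * h) t = ⟨σ t * (g * h) * (σ (π (g * h) * t))⁻¹, hker _ t ht⟩ := dif_pos ht
      have h2 : κ g t = ⟨σ t * g * (σ (π g * t))⁻¹, hker g t ht⟩ := dif_pos ht
      have h3 : κ h (π g * t) =
          ⟨σ (π g * t) * h * (σ (π h * (π g * t)))⁻¹, hker h _ (hmem g t ht)⟩ :=
        dif_pos (hmem g t ht)
      rw [h1, h2, h3]
      apply Subtype.ext
      change σ t * (g * h) * (σ (π (g * h) * t))⁻¹ =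
        (σ t * g * (σ (π g * t))⁻¹) * (σ (π g * t) * h * (σ (π h * (π g * t)))⁻¹)
      have h4 : π (g * h) * t = π h * (π g * t) := by
        rw [map_mul, mul_comm (π g), mul_assoc]
      rw [h4]
      group
    · have ht' : π g * t ∉ π.range := by
        intro h'
        apply ht
        have := π.range.mul_mem (π.range.inv_mem ⟨g, rfl⟩) h'
        rwa [inv_mul_cancel_left] at this
      have h1 : κ (g * h) t = 1 := dif_neg ht
      have h2 : κ g t = 1 := dif_neg ht
      have h3 : κ h (π g * t) = 1 := dif_neg ht'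
      rw [h1, h2, h3, mul_one]
  let I : Type u := CharacterModule (Additive π.ker)
  let φ : G → I → F → AddCircle (1 : ℚ) := fun g χ t =>
    (show Additive π.ker →+ AddCircle (1 : ℚ) from χ) (Additive.ofMul (κ g t))
  have hφ : ∀ (g h : G) (χ : I) (t : F), φ (g * h) χ t = φ g χ t + φ h χ (π g * t) := by
    intro g h χ t
    change (show Additive π.ker →+ AddCircle (1 : ℚ) from χ) (Additive.ofMul (κ (g * h) t)) = _
    rw [hκ, ofMul_mul, map_add]
  let c : G → I → CharacterModule (Ideal.span {b}) := fun g χ =>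
    (embPhi (φ g χ)).comp (Ideal.span {b} : Ideal (MonoidAlgebra ℤ F)).subtype.toAddMonoidHom
  have hc : ∀ (g : G) (χ : I) (y : (Ideal.span {b} : Ideal (MonoidAlgebra ℤ F))),
      c g χ y = embPhi (φ g χ) (y : MonoidAlgebra ℤ F) := fun _ _ _ => rfl
  let f : G →* Aff F (I → CharacterModule (Ideal.span {b})) :=
    MonoidHom.mk' (fun g => ⟨fun χ => c g χ, π g⟩) (by
      intro g h
      apply Aff.ext
      · funext χ
        apply CharacterModule.ext
        intro y
        change c (g * h) χ y = (c g χ + Aff.gr (π g) • c h χ) y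
        have h1 : (c g χ + Aff.gr (π g) • c h χ) y = c g χ y + c h χ (Aff.gr (π g) • y) := rfl
        rw [h1, hc, hc, hc]
        have h2 : ((Aff.gr (π g) • y : (Ideal.span {b} : Ideal (MonoidAlgebra ℤ F))) :
          MonoidAlgebra ℤ F) = Aff.gr (π g) * (y : MonoidAlgebra ℤ F) := rfl
        rw [h2, embPhi_gr, ← embPhi_add]
        congr 2
        funext t
        exact hφ g h χ t
      · exact map_mul π g h)
  have hfm : ∀ g χ, (f g).m χ = c g χ := fun _ _ => rfl
  have hff : ∀ g, (f g).f = π g := fun _ => rfl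
  refine ⟨I, f, ?_, hff⟩
  rw [injective_iff_map_eq_one]
  intro g hg
  have hπ : π g = 1 := by
    rw [← hff, hg]; rfl
  have hcz : ∀ χ, c g χ = 0 := by
    intro χ
    rw [← hfm, hg]; rfl
  have hbm : b ∈ (Ideal.span {b} : Ideal (MonoidAlgebra ℤ F)) := Ideal.mem_span_singleton_self b
  have hval : ∀ χ : I, φ g χ 1 = 0 := by
    intro χ
    have h1 : c g χ ⟨b, hbm⟩ = 0 := by rw [hcz]; rfl
    rw [hc] at h1
    change embPhi (φ g χ) b = 0 at h1
    rw [embPhi_apply, Finsupp.sum_eq_single 1, hb, one_smul] at h1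
    · exact h1
    · intro t ht ht1
      by_cases htr : t ∈ π.range
      · obtain ⟨x, rfl⟩ := htr
        rw [hb1 x ht1, zero_smul]
      · have h2 : κ g t = 1 := dif_neg htr
        change b.coeff t • (show Additive π.ker →+ AddCircle (1 : ℚ) from χ)
          (Additive.ofMul (κ g t)) = 0
        rw [h2, ofMul_one, map_zero, smul_zero]
    · intro _
      exact zero_smul _ _
  have hκ1 : κ g 1 = 1 := by
    have h1 : Additive.ofMul (κ g 1) = 0 := by
      apply CharacterModule.eq_zero_of_character_apply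
      intro χ
      exact hval χ
    exact h1
  have h1r : (1 : F) ∈ π.range := π.range.one_mem
  have h2 : κ g 1 = ⟨σ 1 * g * (σ (π g * 1))⁻¹, hker g 1 h1r⟩ := dif_pos h1r
  rw [h2] at hκ1
  have h3 : σ 1 * g * (σ (π g * 1))⁻¹ = 1 := congrArg Subtype.val hκ1
  rw [hπ, one_mul, mul_inv_eq_one] at h3
  exact mul_eq_left.1 h3

end Pool.Agent.Lib.MP_69c751_al.TM
end

section

set_option autoImplicit false

/-!
The Fox derivatives of a system over a group, evaluated in an abelian quotient.
-/

namespace Pool.Agent.Lib.MP_69c751_al.TM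

open Monoid

universe u v

section

variable {G : Type u} [Group G] {κ : Type} [Fintype κ] [DecidableEq κ] {F : Type v} [CommGroup F]

/-- The vector of the Fox derivatives. -/
noncomputable def jac (π : G →* F) (x : κ → F) (u : Coprod G (FreeGroup κ)) :
    κ → MonoidAlgebra ℤ F :=
  (evalHom ((Aff.inF : F →* Aff F (κ → MonoidAlgebra ℤ F)).comp π)
    (fun k => ⟨Pi.single k 1, x k⟩) u).m

/-- The Fox matrix of a system. -/
noncomputable def jacMat {ι : Type} (π : G →* F) (x : κ → F) (w : ι → Coprod G (FreeGroup κ)) :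
    Matrix ι κ (MonoidAlgebra ℤ F) := Matrix.of (fun i => jac π x (w i))

omit [Fintype κ] [DecidableEq κ] in
theorem evalHom_f {M : Type*} [AddCommGroup M] [Module (MonoidAlgebra ℤ F) M]
    (f : G →* Aff F M) (y : κ → Aff F M) (u : Coprod G (FreeGroup κ)) :
    (evalHom f y u).f = evalHom ((Aff.proj).comp f) (fun k => (y k).f) u :=
  map_evalHom Aff.proj f y u

/-- The value of a word is an affine function of the unknown module elements. -/
theorem evalHom_m {M : Type*} [AddCommGroup M] [Module (MonoidAlgebra ℤ F) M]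
    (f : G →* Aff F M) (π : G →* F) (hf : ∀ g, (f g).f = π g) (x : κ → F) (m : κ → M)
    (u : Coprod G (FreeGroup κ)) :
    (evalHom f (fun k => ⟨m k, x k⟩) u).m =
      (evalHom f (fun k => ⟨0, x k⟩) u).m + ∑ k, jac π x u k • m k := by
  -- the universal homomorphism
  let fU : G →* Aff F (M × (κ → MonoidAlgebra ℤ F)) :=
    { toFun := fun g => ⟨((f g).m, 0), (f g).f⟩
      map_one' := by apply Aff.ext <;> simp
      map_mul' := fun a b => by
        apply Aff.ext
        · simp
        · simp }
  let U := evalHom fU (fun k => ⟨((0 : M), Pi.single k 1), x k⟩)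
  let l : (M × (κ → MonoidAlgebra ℤ F)) →ₗ[MonoidAlgebra ℤ F] M :=
    LinearMap.coprod LinearMap.id (∑ k, (LinearMap.toSpanSingleton (MonoidAlgebra ℤ F) M (m k)).comp
      (LinearMap.proj k))
  have h1 : evalHom f (fun k => ⟨m k, x k⟩) = (Aff.map l).comp U := by
    apply hom_ext
    · intro g
      simp only [MonoidHom.comp_apply, U, evalHom_inl]
      apply Aff.ext
      · simp [l, fU]
      · simp [fU]
    · intro k
      simp only [MonoidHom.comp_apply, U, evalHom_inr]
      apply Aff.ext
      · simp [l, Pi.single_apply]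
      · simp
  have h2 : evalHom f (fun k => ⟨0, x k⟩) = (Aff.map (LinearMap.fst _ _ _)).comp U := by
    apply hom_ext
    · intro g
      simp only [MonoidHom.comp_apply, U, evalHom_inl]
      apply Aff.ext
      · simp [fU]
      · simp [fU]
    · intro k
      simp only [MonoidHom.comp_apply, U, evalHom_inr]
      apply Aff.ext
      · simp
      · simp
  have h3 : evalHom ((Aff.inF : F →* Aff F (κ → MonoidAlgebra ℤ F)).comp π)
      (fun k => ⟨Pi.single k 1, x k⟩) = (Aff.map (LinearMap.snd _ _ _)).comp U := by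
    apply hom_ext
    · intro g
      simp only [MonoidHom.comp_apply, U, evalHom_inl]
      apply Aff.ext
      · simp [fU]
      · simp [fU, hf]
    · intro k
      simp only [MonoidHom.comp_apply, U, evalHom_inr]
      apply Aff.ext
      · simp
      · simp
  unfold jac
  rw [h1, h2, h3]
  simp [l]

/-- Solving a system in the semidirect product. -/
theorem exists_solution {M : Type*} [AddCommGroup M] [Module (MonoidAlgebra ℤ F) M]
    (f : G →* Aff F M) (π : G →* F) (hf : ∀ g, (f g).f = π g) (x : κ → F)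
    (w : κ → Coprod G (FreeGroup κ)) (hx : ∀ i, evalHom π x (w i) = 1)
    (hD : ∀ m : M, ∃ m', (jacMat π x w).det • m' = m) :
    ∃ y : κ → Aff F M, ∀ i, evalHom f y (w i) = 1 := by
  choose s hs using hD
  let J := jacMat π x w
  let c : κ → M := fun i => (evalHom f (fun k => ⟨0, x k⟩) (w i)).m
  refine ⟨fun k => ⟨∑ i, J.adjugate k i • s (-(c i)), x k⟩, fun i => ?_⟩
  apply Aff.ext
  · rw [evalHom_m f π hf]
    have h1 : ∑ k, jac π x (w i) k • ∑ i', J.adjugate k i' • s (-(c i')) = -(c i) := by
      have h2 : ∀ i', ∑ k, jac π x (w i) k * J.adjugate k i' = if i = i' then J.det else 0 := by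
        intro i'
        have := congrFun (congrFun (Matrix.mul_adjugate J) i) i'
        rw [Matrix.mul_apply] at this
        rw [Matrix.smul_apply, Matrix.one_apply] at this
        simpa [J, jacMat] using this
      calc ∑ k, jac π x (w i) k • ∑ i', J.adjugate k i' • s (-(c i'))
          = ∑ k, ∑ i', (jac π x (w i) k * J.adjugate k i') • s (-(c i')) := by
            apply Finset.sum_congr rfl
            intro k _
            rw [Finset.smul_sum]
            apply Finset.sum_congr rfl
            intro i' _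
            rw [mul_smul]
        _ = ∑ i', (∑ k, jac π x (w i) k * J.adjugate k i') • s (-(c i')) := by
            rw [Finset.sum_comm]
            apply Finset.sum_congr rfl
            intro i' _
            rw [Finset.sum_smul]
        _ = -(c i) := by
            simp only [h2, ite_smul, zero_smul, Finset.sum_ite_eq, Finset.mem_univ, if_true]
            exact hs _
    rw [h1]
    simp [c]
  · rw [evalHom_f]
    have h1 : (Aff.proj).comp f = π := by ext g; exact hf g
    rw [h1]
    exact hx i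

/-- In an abelian group the value of a word is determined by the exponent sums. -/
theorem evalHom_comm (π : G →* F) (x : κ → F) (u : Coprod G (FreeGroup κ)) :
    evalHom π x u = evalHom π (fun _ => 1) u *
      ∏ k, x k ^ (Multiplicative.toAdd (expHom G κ u) k) := by
  let p : Multiplicative (κ → ℤ) →* F :=
    { toFun := fun c => ∏ k, x k ^ (Multiplicative.toAdd c k)
      map_one' := by simp
      map_mul' := fun a b => by simp [zpow_add, Finset.prod_mul_distrib] }
  have h1 : evalHom π x = (evalHom π (fun _ => 1)) * (p.comp (expHom G κ)) := by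
    apply hom_ext
    · intro g
      simp [evalHom_inl, expHom_inl]
    · intro k
      simp [evalHom_inr, expHom_inr, p, Pi.single_apply, apply_ite]
  rw [h1]
  rfl

end

end Pool.Agent.Lib.MP_69c751_al.TM
end

section

set_option autoImplicit false

/-!
Job TM-G2, TM-G3: the augmentation of the Fox matrix and the fundamental identity.
-/

namespace Pool.Agent.Lib.MP_69c751_al.TM

open Monoid

universe u v

section

variable {G : Type u} [Group G] {κ : Type} [Fintype κ] [DecidableEq κ] {F : Type v} [CommGroup F]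

/-- The augmentation. -/
noncomputable def augF (F : Type v) [CommGroup F] : MonoidAlgebra ℤ F →+* ℤ :=
  (MonoidAlgebra.lift ℤ ℤ F 1).toRingHom

theorem augF_apply (z : MonoidAlgebra ℤ F) : augF F z = z.coeff.sum (fun _ n => n) := by
  unfold augF
  rw [AlgHom.toRingHom_eq_coe, RingHom.coe_coe, MonoidAlgebra.lift_apply]
  simp [Finsupp.sum]

theorem augF_gr (f : F) : augF F (Aff.gr f) = 1 := by
  simp [augF, Aff.gr]

/-- The augmentation of a Fox derivative is an exponent sum.

Proof: `a ↦ Multiplicative.ofAdd (fun k => augF F (a.m k))` is a homomorphism from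
`Aff F (κ → MonoidAlgebra ℤ F)` to `Multiplicative (κ → ℤ)` (`augF_gr`); its composition with the
evaluation homomorphism in the definition of `jac` equals `expHom G κ` by `hom_ext`. -/
theorem augF_jac (π : G →* F) (x : κ → F) (u : Coprod G (FreeGroup κ)) (k : κ) :
    augF F (jac π x u k) = Multiplicative.toAdd (expHom G κ u) k := by
  let p : Aff F (κ → MonoidAlgebra ℤ F) →* Multiplicative (κ → ℤ) :=
    { toFun := fun a => Multiplicative.ofAdd (fun k => augF F (a.m k))
      map_one' := by
        have h : (fun k => augF F ((1 : Aff F (κ → MonoidAlgebra ℤ F)).m k)) = 0 := by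
          funext k
          simp
        rw [h]
        rfl
      map_mul' := fun a b => by
        have h : (fun k => augF F ((a * b).m k)) =
            (fun k => augF F (a.m k)) + (fun k => augF F (b.m k)) := by
          funext k
          simp only [Aff.mul_m, Pi.add_apply, Pi.smul_apply, smul_eq_mul, map_add, map_mul,
            augF_gr, one_mul]
        rw [h]
        rfl }
  have h1 : p.comp (evalHom ((Aff.inF : F →* Aff F (κ → MonoidAlgebra ℤ F)).comp π)
      (fun k => ⟨Pi.single k 1, x k⟩)) = expHom G κ := by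
    apply hom_ext
    · intro g
      rw [MonoidHom.comp_apply, evalHom_inl, expHom_inl]
      change Multiplicative.ofAdd (fun k => augF F (0 : MonoidAlgebra ℤ F)) = 1
      rw [map_zero]
      rfl
    · intro j
      rw [MonoidHom.comp_apply, evalHom_inr, expHom_inr]
      change Multiplicative.ofAdd _ = Multiplicative.ofAdd _
      congr 1
      funext k
      by_cases h : k = j
      · subst h
        simp
      · simp [Pi.single_eq_of_ne h]
  rw [← h1]
  rfl

/-- The fundamental identity of the Fox calculus, modulo a subgroup `T` which contains the image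
of `G`.

Proof: let `E = F ⧸ T` and `μ = MonoidAlgebra.mapDomainRingHom ℤ (QuotientGroup.mk' T)`.
View `MonoidAlgebra ℤ E` as a module over `MonoidAlgebra ℤ F` through `μ` (or argue directly:
the map `a ↦ (∑ k, μ (a.m k) * (gr (mk (x k)) - 1), mk a.f)` is a homomorphism from
`Aff F (κ → MonoidAlgebra ℤ F)` to `Aff E (MonoidAlgebra ℤ E)`, where `MonoidAlgebra ℤ E` is a
module over itself). The map `e ↦ (gr e - 1, e)` is a homomorphism `E →* Aff E (MonoidAlgebra ℤ E)`.
Two homomorphisms from `Coprod G (FreeGroup κ)` to `Aff E (MonoidAlgebra ℤ E)`: the first map after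
the evaluation homomorphism of `jac`, and the second map after `mk ∘ evalHom π x`. They agree on
`G` (both are `(0, 1)` because `mk (π g) = 1`) and on the unknowns, so they are equal by
`hom_ext`; compare the first components. -/
theorem fox_identity (π : G →* F) (x : κ → F) (T : Subgroup F) (hT : ∀ g, π g ∈ T)
    (u : Coprod G (FreeGroup κ)) :
    ∑ k, MonoidAlgebra.mapDomainRingHom ℤ (QuotientGroup.mk' T) (jac π x u k) *
        (Aff.gr ((x k : F) : F ⧸ T) - 1) =
      Aff.gr ((evalHom π x u : F) : F ⧸ T) - 1 := by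
  set μ := MonoidAlgebra.mapDomainRingHom ℤ (QuotientGroup.mk' T) with hμ
  have hμg : ∀ f : F, μ (Aff.gr f) = Aff.gr ((f : F) : F ⧸ T) := by
    intro f
    rw [hμ, Aff.gr_eq_single, Aff.gr_eq_single, MonoidAlgebra.mapDomainRingHom_apply]
    exact MonoidAlgebra.mapDomain_single
  let A : Aff F (κ → MonoidAlgebra ℤ F) →* Aff (F ⧸ T) (MonoidAlgebra ℤ (F ⧸ T)) :=
    { toFun := fun a => ⟨∑ k, μ (a.m k) * (Aff.gr ((x k : F) : F ⧸ T) - 1), (a.f : F ⧸ T)⟩
      map_one' := by
        apply Aff.ext
        · simp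
        · simp
      map_mul' := fun a b => by
        apply Aff.ext
        · simp only [Aff.mul_m, Pi.add_apply, Pi.smul_apply, smul_eq_mul, map_add, map_mul,
            hμg, add_mul, Finset.sum_add_distrib, Finset.mul_sum, mul_assoc]
        · simp }
  let B : F ⧸ T →* Aff (F ⧸ T) (MonoidAlgebra ℤ (F ⧸ T)) :=
    { toFun := fun e => ⟨Aff.gr e - 1, e⟩
      map_one' := by
        apply Aff.ext
        · simp
        · simp
      map_mul' := fun a b => by
        apply Aff.ext
        · simp only [Aff.mul_m, smul_eq_mul, Aff.gr_mul]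
          ring
        · simp }
  have h1 : A.comp (evalHom ((Aff.inF : F →* Aff F (κ → MonoidAlgebra ℤ F)).comp π)
      (fun k => ⟨Pi.single k 1, x k⟩)) =
      (B.comp (QuotientGroup.mk' T)).comp (evalHom π x) := by
    apply hom_ext
    · intro g
      rw [MonoidHom.comp_apply, MonoidHom.comp_apply, evalHom_inl, evalHom_inl]
      have hg : ((π g : F) : F ⧸ T) = 1 := (QuotientGroup.eq_one_iff _).2 (hT g)
      apply Aff.ext
      · simp [A, B, hg]
      · simp [A, B]
    · intro j
      rw [MonoidHom.comp_apply, MonoidHom.comp_apply, evalHom_inr, evalHom_inr]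
      apply Aff.ext
      · change ∑ k, μ ((Pi.single j 1 : κ → MonoidAlgebra ℤ F) k) *
          (Aff.gr ((x k : F) : F ⧸ T) - 1) = Aff.gr ((x j : F) : F ⧸ T) - 1
        rw [Finset.sum_eq_single j]
        · simp
        · intro k _ hk
          simp [Pi.single_eq_of_ne hk]
        · simp
      · rfl
  have h2 := congrArg Aff.m (DFunLike.congr_fun h1 u)
  exact h2

end

end Pool.Agent.Lib.MP_69c751_al.TM
end

section

set_option autoImplicit false

/-!
Job TM-G4: the `T`-component of the Fox determinant has augmentation `1` or `-1`.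
-/

namespace Pool.Agent.Lib.MP_69c751_al.TM

open Monoid

universe u v

variable {G : Type u} [Group G] {κ : Type} [Fintype κ] [DecidableEq κ] {F : Type v} [CommGroup F]

private theorem augF_map (T : Subgroup F) (z : MonoidAlgebra ℤ F) :
    augF (F ⧸ T) (MonoidAlgebra.mapDomainRingHom ℤ (QuotientGroup.mk' T) z) = augF F z := by
  have h : (augF (F ⧸ T)).comp (MonoidAlgebra.mapDomainRingHom ℤ (QuotientGroup.mk' T)) =
      augF F := by
    apply MonoidAlgebra.ringHom_ext
    · intro r
      simp [augF_apply]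
    · intro m
      simp [augF_apply]
  rw [← h]; rfl

private theorem coeff_one_map (T : Subgroup F) (z : MonoidAlgebra ℤ F) :
    (MonoidAlgebra.mapDomainRingHom ℤ (QuotientGroup.mk' T) z).coeff 1 =
      ∑ᶠ t : T, z.coeff (t : F) := by
  classical
  have hfin : ∀ z : MonoidAlgebra ℤ F, (Function.support fun t : T => z.coeff (t : F)).Finite := by
    intro z
    have : (Function.support fun t : T => z.coeff (t : F)) ⊆
        (Subtype.val) ⁻¹' (z.coeff.support : Set F) := by
      intro t ht
      simpa using ht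
    exact (Set.Finite.preimage Subtype.val_injective.injOn (Finset.finite_toSet _)).subset this
  induction z using MonoidAlgebra.induction_linear with
  | zero => simp
  | add x y hx hy =>
    rw [map_add]
    have h1 : ∀ t : T, (x + y).coeff (t : F) = x.coeff (t : F) + y.coeff (t : F) := fun t => by simp
    rw [finsum_congr h1, finsum_add_distrib (hfin x) (hfin y), ← hx, ← hy]
    simp
  | single m r =>
    by_cases hm : m ∈ T
    · have h1 : ∑ᶠ t : T, (MonoidAlgebra.single m r).coeff (t : F) = r := by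
        rw [finsum_eq_single _ (⟨m, hm⟩ : T)]
        · simp
        · intro t ht
          have : m ≠ (t : F) := by
            rintro rfl
            exact ht rfl
          simp [this]
      rw [h1]
      have h2 : (QuotientGroup.mk' T) m = 1 := (QuotientGroup.eq_one_iff m).2 hm
      simp only [MonoidAlgebra.mapDomainRingHom_apply, MonoidAlgebra.mapDomain_single]
      rw [h2]; simp
    · have h1 : ∑ᶠ t : T, (MonoidAlgebra.single m r).coeff (t : F) = 0 := by
        rw [← finsum_zero (α := T)]
        apply finsum_congr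
        intro t
        have : m ≠ (t : F) := by
          rintro rfl
          exact hm t.2
        simp [this]
      rw [h1]
      have h2 : (QuotientGroup.mk' T) m ≠ 1 := fun h => hm ((QuotientGroup.eq_one_iff m).1 h)
      simp only [MonoidAlgebra.mapDomainRingHom_apply, MonoidAlgebra.mapDomain_single]
      exact Finsupp.single_eq_of_ne (Ne.symm h2)

/-- The sum of the coefficients of the Fox determinant over `T` is `1` or `-1`.

Proof: let `E = F ⧸ T`, `μ = MonoidAlgebra.mapDomainRingHom ℤ (QuotientGroup.mk' T)`,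
`D = (jacMat π x w).det`, `Dbar = μ D = (μ.mapMatrix (jacMat π x w)).det` (`RingHom.map_det`).
By `fox_identity` and `hx` the vector `v k = gr (mk (x k)) - 1` satisfies
`(μ.mapMatrix (jacMat π x w)).mulVec v = 0`, so `Dbar • v = 0` (multiply by the adjugate,
`Matrix.adjugate_mul`), that is `Dbar * gr (mk (x k)) = Dbar` for all `k`. The set of `f : F` with
`Dbar * gr (mk f) = Dbar` is a subgroup which contains `T` and all `x k`, so by `hgen` it is
everything. Comparing coefficients, `Dbar.coeff e = c` for all `e : E`, where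
`c := Dbar.coeff 1 = ∑ᶠ t : T, D.coeff t` (the coefficient of `mapDomain` at `1` is the sum of
the coefficients over the fibre `T`). `E` is finite (its cardinality is `T.index`, and
`(expMat w).det ≠ 0`), and
`augF E Dbar = c * Nat.card E`; on the other hand `augF E (μ z) = augF F z`, and
`augF F D = (expMat w).det` by `RingHom.map_det` and `augF_jac`. So
`c * Nat.card E = (expMat w).det = ± Nat.card E`, and `c = ± 1`. -/
theorem isUnit_sum_det (π : G →* F) (x : κ → F) (T : Subgroup F) (hT : ∀ g, π g ∈ T)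
    (hgen : Subgroup.closure ((T : Set F) ∪ Set.range x) = ⊤)
    (w : κ → Coprod G (FreeGroup κ)) (hx : ∀ i, evalHom π x (w i) = 1)
    (hdet : (expMat w).det ≠ 0) (hidx : T.index = (expMat w).det.natAbs) :
    IsUnit (∑ᶠ t : T, (jacMat π x w).det.coeff (t : F)) := by
  classical
  set μ : MonoidAlgebra ℤ F →+* MonoidAlgebra ℤ (F ⧸ T) :=
    MonoidAlgebra.mapDomainRingHom ℤ (QuotientGroup.mk' T) with hμ
  set D := (jacMat π x w).det with hD
  set M := μ.mapMatrix (jacMat π x w) with hM
  have hDM : μ D = M.det := RingHom.map_det _ _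
  set v : κ → MonoidAlgebra ℤ (F ⧸ T) := fun k => Aff.gr ((x k : F) : F ⧸ T) - 1 with hv
  have hMv : M.mulVec v = 0 := by
    funext i
    have h := fox_identity π x T hT (w i)
    rw [hx i] at h
    have h1 : (((1 : F) : F ⧸ T)) = 1 := rfl
    rw [h1, Aff.gr_one, sub_self] at h
    simp only [Matrix.mulVec, dotProduct, Pi.zero_apply]
    exact h
  have hDv : ∀ k, μ D * v k = 0 := by
    have h1 : (M.adjugate * M).mulVec v = 0 := by
      rw [← Matrix.mulVec_mulVec, hMv, Matrix.mulVec_zero]
    rw [Matrix.adjugate_mul] at h1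
    intro k
    have h2 := congrFun h1 k
    rw [Matrix.smul_mulVec, Matrix.one_mulVec] at h2
    rw [hDM]
    simpa using h2
  have hall : ∀ f : F, μ D * Aff.gr ((f : F) : F ⧸ T) = μ D := by
    intro f
    have hf : f ∈ Subgroup.closure ((T : Set F) ∪ Set.range x) := by rw [hgen]; trivial
    induction hf using Subgroup.closure_induction with
    | mem a ha =>
      rcases ha with ha | ⟨k, rfl⟩
      · have : ((a : F) : F ⧸ T) = 1 := (QuotientGroup.eq_one_iff a).2 ha
        rw [this, Aff.gr_one, mul_one]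
      · have := hDv k
        rw [hv] at this
        simp only [mul_sub, mul_one] at this
        exact sub_eq_zero.1 this
    | one =>
      have h1 : (((1 : F) : F ⧸ T)) = 1 := rfl
      rw [h1, Aff.gr_one, mul_one]
    | mul a b _ _ ha hb =>
      rw [QuotientGroup.mk_mul, Aff.gr_mul, ← mul_assoc, ha, hb]
    | inv a _ ha =>
      have h1 : Aff.gr ((a : F) : F ⧸ T) * Aff.gr ((a⁻¹ : F) : F ⧸ T) = 1 := by
        rw [← Aff.gr_mul, ← QuotientGroup.mk_mul, mul_inv_cancel]
        exact Aff.gr_one
      calc μ D * Aff.gr ((a⁻¹ : F) : F ⧸ T)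
          = (μ D * Aff.gr ((a : F) : F ⧸ T)) * Aff.gr ((a⁻¹ : F) : F ⧸ T) := by rw [ha]
        _ = μ D := by rw [mul_assoc, h1, mul_one]
  have hcoeff : ∀ e : F ⧸ T, (μ D).coeff e = (μ D).coeff 1 := by
    intro e
    obtain ⟨f, rfl⟩ := QuotientGroup.mk_surjective e
    have h1 := congrArg (fun z : MonoidAlgebra ℤ (F ⧸ T) => z.coeff ((f : F) : F ⧸ T)) (hall f)
    simp only [Aff.gr, MonoidAlgebra.of_apply, MonoidAlgebra.coeff_mul_single_apply, mul_one,
      mul_inv_cancel] at h1
    exact h1.symm
  have hne : (expMat w).det.natAbs ≠ 0 := Int.natAbs_ne_zero.2 hdet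
  have hfi : T.FiniteIndex := ⟨by rw [hidx]; exact hne⟩
  have : Finite (F ⧸ T) := inferInstance
  have : Fintype (F ⧸ T) := Fintype.ofFinite _
  have haug : augF (F ⧸ T) (μ D) = (μ D).coeff 1 * (T.index : ℤ) := by
    rw [augF_apply, Finsupp.sum_fintype _ _ (fun _ => rfl)]
    rw [Finset.sum_congr rfl (fun e _ => hcoeff e), Finset.sum_const, Finset.card_univ,
      nsmul_eq_mul, mul_comm, Subgroup.index, Nat.card_eq_fintype_card]
  have haug2 : augF (F ⧸ T) (μ D) = (expMat w).det := by
    rw [hμ, augF_map, hD, RingHom.map_det]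
    congr 1
    ext i j
    simp only [RingHom.mapMatrix_apply, Matrix.map_apply, jacMat, Matrix.of_apply, expMat]
    exact augF_jac π x (w i) j
  rw [← coeff_one_map T D]
  have h1 : (μ D).coeff 1 * (T.index : ℤ) = (expMat w).det := by rw [← haug, haug2]
  rw [hidx] at h1
  have h2 : ((μ D).coeff 1).natAbs * (expMat w).det.natAbs = (expMat w).det.natAbs := by
    conv_rhs => rw [← h1]
    rw [Int.natAbs_mul, Int.natAbs_natCast]
  have h3 : ((μ D).coeff 1).natAbs = 1 :=
    Nat.eq_of_mul_eq_mul_right (Nat.pos_of_ne_zero hne) (by rw [h2, one_mul])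
  exact Int.isUnit_iff_natAbs_eq.2 h3

end Pool.Agent.Lib.MP_69c751_al.TM
end

section

set_option autoImplicit false

/-!
Job TM-R8: Lemma F.
-/

namespace Pool.Agent.Lib.MP_69c751_al.TM

private theorem lf_ext {G : Type*} {x y : MonoidAlgebra ℤ G} (h : ∀ g, x.coeff g = y.coeff g) :
    x = y := by
  apply MonoidAlgebra.coeff_injective
  exact Finsupp.ext h

private theorem lf_res_add {B : Type*} [CommGroup B] (Q : Subgroup B) (x y : MonoidAlgebra ℤ B) :
    res Q (x + y) = res Q x + res Q y := by
  apply lf_ext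
  intro t
  rw [res_coeff, MonoidAlgebra.coeff_add, MonoidAlgebra.coeff_add, Finsupp.add_apply,
    Finsupp.add_apply, res_coeff, res_coeff]

private theorem lf_res_zero {B : Type*} [CommGroup B] (Q : Subgroup B) :
    res Q (0 : MonoidAlgebra ℤ B) = 0 := by
  apply lf_ext
  intro t
  rw [res_coeff, MonoidAlgebra.coeff_zero, MonoidAlgebra.coeff_zero, Finsupp.zero_apply,
    Finsupp.zero_apply]

private theorem lf_res_smul {B : Type*} [CommGroup B] (Q : Subgroup B) (n : ℤ)
    (x : MonoidAlgebra ℤ B) : res Q (n • x) = n • res Q x := by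
  apply lf_ext
  intro t
  rw [res_coeff, MonoidAlgebra.coeff_smul, MonoidAlgebra.coeff_smul, Finsupp.smul_apply,
    Finsupp.smul_apply, res_coeff]

private theorem lf_intCast_mul {G : Type*} [CommGroup G] (n : ℤ) (x : MonoidAlgebra ℤ G) (g : G) :
    ((n : MonoidAlgebra ℤ G) * x).coeff g = n * x.coeff g := by
  rw [MonoidAlgebra.intCast_def, MonoidAlgebra.coeff_single_mul_apply, inv_one, one_mul, Int.cast_id]

/-- an element whose coefficients are divisible -/
private theorem lf_div {G : Type*} [CommGroup G] (n : ℤ) (x : MonoidAlgebra ℤ G)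
    (h : ∀ g, n ∣ x.coeff g) : ∃ y : MonoidAlgebra ℤ G, x = n • y := by
  refine ⟨MonoidAlgebra.ofCoeff (x.coeff.mapRange (fun a => a / n) (by simp)), ?_⟩
  apply lf_ext
  intro g
  rw [MonoidAlgebra.coeff_smul, MonoidAlgebra.coeff_ofCoeff, Finsupp.smul_apply,
    Finsupp.mapRange_apply, smul_eq_mul, Int.mul_ediv_cancel' (h g)]

/-- Lemma F. Let `B` be a finite abelian group, `Q` a subgroup which is a `q`-group and `L` a pure
ideal of `ℤ[B]` which contains an element whose `Q`-component has augmentation prime to `q`. Then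
`L` contains an element with `Q`-component `1`.

Proof: `I := {res Q l | l ∈ L}` is an ideal of `ℤ[Q]` (by `res_incl_mul`), and it contains
`d := res Q D` whose augmentation is prime to `q`. Suppose `I ≠ ⊤`; let `M ⊇ I` be a maximal ideal
and `p ∈ M` a prime (`exists_prime_mem`). If `p = q` then `dvd_aug_of_mem` contradicts `hD`. If
`p ≠ q` then `p ∤ |Q|` (`IsPGroup.iff_card`); take `z` as in `exists_annihilator_mod`, and put
`Z = incl Q z`. For `l ∈ L` all coefficients of `Z * l` are divisible by `p`: the coefficient at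
`g : B` is the coefficient at `1 : Q` of `res Q (Z * (single g⁻¹ 1 * l)) = z * res Q (single g⁻¹ 1 * l)`
and `single g⁻¹ 1 * l ∈ L`. So `Z * l = p • l'`, and `l' ∈ L` by purity. By induction, for all `k`,
`Z ^ k * l = p ^ k • l'` with `l' ∈ L`. Apply this to `l = D` and take `res Q`:
`z ^ k * d ∈ p ^ k ℤ[Q]` for all `k`. Let `d * e = N ≠ 0` be an integer (`exists_dvd_int`), then
`z ^ k * N ∈ p ^ k ℤ[Q]`. Let `p ^ k` be a power which does not divide `N` (`k ≥ 1`); looking at
coefficients, `p` divides all coefficients of `z ^ k` (if `p ^ k ∣ c * N` and `¬ p ^ k ∣ N` then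
`p ∣ c`, by `IsCoprime`), contradicting the choice of `z`. -/
theorem lemmaF (B : Type*) [CommGroup B] [Finite B] (Q : Subgroup B) (q : ℕ) (hq : q.Prime)
    (hQ : IsPGroup q Q) (L : Ideal (MonoidAlgebra ℤ B))
    (hpure : ∀ (n : ℤ) (b : MonoidAlgebra ℤ B), n ≠ 0 → n • b ∈ L → b ∈ L)
    (D : MonoidAlgebra ℤ B) (hDL : D ∈ L)
    (hD : ¬ (q : ℤ) ∣ ∑ᶠ t : Q, D.coeff (t : B)) :
    ∃ b ∈ L, res Q b = 1 := by
  classical
  have : Fintype Q := Fintype.ofFinite Q
  rw [finsum_eq_sum_of_fintype] at hD
  let I : Ideal (MonoidAlgebra ℤ Q) :=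
    { carrier := {x | ∃ l ∈ L, res Q l = x}
      add_mem' := by
        rintro _ _ ⟨a, ha, rfl⟩ ⟨b, hb, rfl⟩
        exact ⟨a + b, L.add_mem ha hb, lf_res_add Q a b⟩
      zero_mem' := ⟨0, L.zero_mem, lf_res_zero Q⟩
      smul_mem' := by
        rintro y _ ⟨l, hl, rfl⟩
        exact ⟨incl Q y * l, L.mul_mem_left _ hl, res_incl_mul Q y l⟩ }
  have hImem : ∀ l ∈ L, res Q l ∈ I := fun l hl => ⟨l, hl, rfl⟩
  by_cases hI : I = ⊤
  · have h1 : (1 : MonoidAlgebra ℤ Q) ∈ I := by rw [hI]; trivial
    exact h1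
  exfalso
  obtain ⟨M, hM, hIM⟩ := Ideal.exists_le_maximal I hI
  obtain ⟨p, hp, hpM⟩ := exists_prime_mem Q M hM
  set d := res Q D with hd
  have hdM : d ∈ M := hIM (hImem D hDL)
  have hDd : ¬ (q : ℤ) ∣ ∑ t, d.coeff t := hD
  by_cases hpq : p = q
  · subst hpq
    exact hDd (dvd_aug_of_mem Q p hp hQ M hM.isPrime hpM d hdM)
  have hpQ : ¬ p ∣ Fintype.card Q := by
    intro h
    have : Fact q.Prime := ⟨hq⟩
    obtain ⟨n, hn⟩ := IsPGroup.iff_card.1 hQ
    rw [← Nat.card_eq_fintype_card, hn] at h
    have h2 := hp.dvd_of_dvd_pow h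
    exact hpq ((Nat.prime_dvd_prime_iff_eq hp hq).1 h2)
  obtain ⟨z, hz1, hz2⟩ := exists_annihilator_mod Q p hp hpQ M hM.ne_top hpM
  have hp0 : (p : ℤ) ≠ 0 := by exact_mod_cast hp.ne_zero
  -- divisibility of coefficients
  have hdvd : ∀ w : MonoidAlgebra ℤ Q, ((p : ℤ) : MonoidAlgebra ℤ Q) ∣ w →
      ∀ t, (p : ℤ) ∣ w.coeff t := by
    rintro w ⟨y, rfl⟩ t
    rw [lf_intCast_mul]
    exact dvd_mul_right _ _
  set Z := incl Q z with hZ
  have hA : ∀ l ∈ L, ∃ l' ∈ L, Z * l = (p : ℤ) • l' := by
    intro l hl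
    have h1 : ∀ g, (p : ℤ) ∣ (Z * l).coeff g := by
      intro g
      have h2 : (Z * l).coeff g = (MonoidAlgebra.single g⁻¹ 1 * (Z * l)).coeff 1 := by
        rw [MonoidAlgebra.coeff_single_mul_apply, inv_inv, mul_one, one_mul]
      have h3 : MonoidAlgebra.single g⁻¹ 1 * (Z * l) = Z * (MonoidAlgebra.single g⁻¹ 1 * l) := by
        ring
      have h4 : (Z * l).coeff g = (z * res Q (MonoidAlgebra.single g⁻¹ 1 * l)).coeff 1 := by
        rw [h2, h3, ← res_incl_mul, res_coeff, hZ]
        rfl
      rw [h4]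
      exact hdvd _ (hz2 _ (hIM (hImem _ (L.mul_mem_left _ hl)))) 1
    obtain ⟨l', hl'⟩ := lf_div (p : ℤ) (Z * l) h1
    refine ⟨l', hpure (p : ℤ) l' hp0 ?_, hl'⟩
    rw [← hl']
    exact L.mul_mem_left _ hl
  have hB : ∀ k : ℕ, ∃ l' ∈ L, Z ^ k * D = ((p : ℤ) ^ k) • l' := by
    intro k
    induction k with
    | zero => exact ⟨D, hDL, by rw [pow_zero, pow_zero, one_mul, one_smul]⟩
    | succ k ih =>
      obtain ⟨l, hl, hlk⟩ := ih
      obtain ⟨l', hl', hll⟩ := hA l hl
      refine ⟨l', hl', ?_⟩
      rw [pow_succ', mul_assoc, hlk, mul_smul_comm, hll, smul_smul, pow_succ]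
  obtain ⟨N, hN0, e, he⟩ := exists_dvd_int Q q hq hQ d hDd
  -- a power of `p` which does not divide `N`
  obtain ⟨k, hk⟩ : ∃ k : ℕ, ¬ (p : ℤ) ^ k ∣ N := by
    refine ⟨N.natAbs, fun h => ?_⟩
    have h1 := Int.natAbs_dvd_natAbs.2 h
    rw [Int.natAbs_pow, Int.natAbs_natCast] at h1
    have h2 := Nat.le_of_dvd (Int.natAbs_pos.2 hN0) h1
    have h3 : N.natAbs < p ^ N.natAbs := Nat.lt_pow_self hp.one_lt
    omega
  obtain ⟨l', hl', hlk⟩ := hB k
  have h1 : z ^ k * d = ((p : ℤ) ^ k) • res Q l' := by
    rw [hd, ← res_incl_mul, map_pow, ← hZ, hlk, lf_res_smul]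
  have h2 : z ^ k * (N : MonoidAlgebra ℤ Q) = ((p : ℤ) ^ k) • (res Q l' * e) := by
    rw [he, ← mul_assoc, h1, smul_mul_assoc]
  have h3 : ∀ t, (p : ℤ) ∣ (z ^ k).coeff t := by
    intro t
    by_contra hnd
    have h4 : ((N : MonoidAlgebra ℤ Q) * z ^ k).coeff t =
        (((p : ℤ) ^ k) • (res Q l' * e)).coeff t := by
      rw [mul_comm, h2]
    rw [lf_intCast_mul, MonoidAlgebra.coeff_smul, Finsupp.smul_apply, smul_eq_mul] at h4
    have h5 : (p : ℤ) ^ k ∣ N * (z ^ k).coeff t := by
      rw [h4]
      exact dvd_mul_right _ _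
    exact hk ((Nat.prime_iff_prime_int.1 hp).pow_dvd_of_dvd_mul_right k hnd h5)
  obtain ⟨y, hy⟩ := lf_div (p : ℤ) (z ^ k) h3
  apply hz1 k
  refine ⟨y, ?_⟩
  rw [hy]
  apply lf_ext
  intro t
  rw [lf_intCast_mul, MonoidAlgebra.coeff_smul, Finsupp.smul_apply, smul_eq_mul]

end Pool.Agent.Lib.MP_69c751_al.TM
end

section

set_option autoImplicit false

/-!
Job TM-R9: Lemma G for a product.
-/

namespace Pool.Agent.Lib.MP_69c751_al.TM

private theorem comp_zero_G {V B : Type*} [CommGroup V] [CommGroup B] (v : V) :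
    comp v (0 : MonoidAlgebra ℤ (V × B)) = 0 := by
  ext b
  rw [comp_coeff]
  rfl

private theorem comp_add_G {V B : Type*} [CommGroup V] [CommGroup B] (v : V)
    (y z : MonoidAlgebra ℤ (V × B)) : comp v (y + z) = comp v y + comp v z := by
  ext b
  rw [MonoidAlgebra.coeff_add, Finsupp.add_apply, comp_coeff, comp_coeff, comp_coeff,
    MonoidAlgebra.coeff_add, Finsupp.add_apply]

private theorem comp_inr_mul_G {V B : Type*} [CommGroup V] [CommGroup B] (v : V)
    (b : MonoidAlgebra ℤ B) (y : MonoidAlgebra ℤ (V × B)) :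
    comp v (MonoidAlgebra.mapDomainRingHom ℤ (MonoidHom.inr V B) b * y) = b * comp v y := by
  induction b using MonoidAlgebra.induction_linear with
  | zero => rw [map_zero, zero_mul, zero_mul, comp_zero_G]
  | add x z hx hz => rw [map_add, add_mul, comp_add_G, hx, hz, add_mul]
  | single t n =>
    ext s
    have h1 : MonoidAlgebra.mapDomainRingHom ℤ (MonoidHom.inr V B) (MonoidAlgebra.single t n) =
        MonoidAlgebra.single ((1, t) : V × B) n := by
      simp
    have h2 : (MonoidAlgebra.single t n * comp v y).coeff s =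
        n * (comp v y).coeff (t⁻¹ * s) := by
      refine MonoidAlgebra.coeff_single_mul_eq_mul_coeff (t⁻¹ * s) fun m' _ => ?_
      rw [eq_inv_mul_iff_mul_eq]
    have h3 : (MonoidAlgebra.single ((1, t) : V × B) n * y).coeff (v, s) =
        n * y.coeff (v, t⁻¹ * s) := by
      refine MonoidAlgebra.coeff_single_mul_eq_mul_coeff (v, t⁻¹ * s) fun m' _ => ?_
      rw [show ((v, t⁻¹ * s) : V × B) = (1, t)⁻¹ * (v, s) by
        ext <;> simp, eq_inv_mul_iff_mul_eq]
    rw [comp_coeff, h1, h2, h3, comp_coeff]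

private theorem inr_coeff_G {V B : Type*} [CommGroup V] [CommGroup B]
    (b : MonoidAlgebra ℤ B) (x : B) :
    (MonoidAlgebra.mapDomainRingHom ℤ (MonoidHom.inr V B) b).coeff (1, x) = b.coeff x := by
  have h := comp_inr_mul_G (1 : V) b 1
  have h1 : comp (1 : V) (1 : MonoidAlgebra ℤ (V × B)) = 1 := by
    classical
    ext s
    rw [comp_coeff, MonoidAlgebra.one_def, MonoidAlgebra.one_def, MonoidAlgebra.coeff_single,
      MonoidAlgebra.coeff_single, Finsupp.single_apply, Finsupp.single_apply]
    have : ((1 : V × B) = (1, s)) ↔ (1 = s) := by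
      rw [Prod.ext_iff]
      simp
    simp only [this]
  rw [mul_one, h1, mul_one] at h
  rw [← comp_coeff, h]

private theorem inr_coeff_ne_G {V B : Type*} [CommGroup V] [CommGroup B]
    (b : MonoidAlgebra ℤ B) {v : V} (hv : v ≠ 1) (x : B) :
    (MonoidAlgebra.mapDomainRingHom ℤ (MonoidHom.inr V B) b).coeff (v, x) = 0 := by
  have h := comp_inr_mul_G v b 1
  have h1 : comp v (1 : MonoidAlgebra ℤ (V × B)) = 0 := by
    classical
    ext s
    rw [comp_coeff, MonoidAlgebra.one_def, MonoidAlgebra.coeff_single, Finsupp.single_apply,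
      if_neg]
    · rfl
    · intro h2
      exact hv (Prod.ext_iff.mp h2).1.symm
  rw [mul_one, h1, mul_zero] at h
  rw [← comp_coeff, h]
  rfl

/-- Lemma G for a product `V × B`, `V` torsion-free and `B` finite.

Proof. Let `Q := T.comap (MonoidHom.inr V B)`, a subgroup of `B`; it is a `q`-group by `hT`. For
`v : V` let `S v := ∑ β with (v, β) ∈ T, D (v, β)` (a finite sum, `B` is finite). Since
`∑ᶠ t : T, D t = ∑ v, S v` (finitely many nonzero terms; `D` has finite support), there is `v`
with `¬ q ∣ S v`, in particular there is `β₀` with `(v, β₀) ∈ T`; then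
`(v, β₀ * β) ∈ T ↔ β ∈ Q`. Let `D' := single β₀⁻¹ 1 * comp v D`; its `Q`-component has
augmentation `S v`. Let
`L := {b | ∀ a, (∀ v, a * comp v D = 0) → a * b = 0}`, an ideal of `ℤ[B]`; it is pure
(`ℤ[B]` is torsion-free over `ℤ`) and contains `D'`. By `lemmaF` there is `b₀ ∈ L` with
`res Q b₀ = 1`. Let `b := MonoidAlgebra.mapDomainRingHom ℤ (MonoidHom.inr V B) b₀`. The first two
assertions follow: `b.coeff (v, β) = 0` for `v ≠ 1`, and `b.coeff (1, β) = b₀.coeff β`. For the
last one: `comp v' (b * y) = b₀ * comp v' y` (check on singles). If `D * (b * y) = 0` then by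
`comp_mul_comp_eq_zero` (with `groupRing_isReduced B`) `comp v D * (b₀ * comp v' y) = 0` for all
`v`, `v'`; as `b₀ ∈ L` this gives `(b₀ * comp v' y) * b₀ = 0`, so `(b₀ * comp v' y) ^ 2 = 0`,
so `comp v' (b * y) = b₀ * comp v' y = 0` for all `v'`, and `b * y = 0`. -/
theorem lemmaG_prod (V B : Type*) [CommGroup V] [IsMulTorsionFree V] [CommGroup B] [Finite B]
    (T : Subgroup (V × B)) (q : ℕ) (hq : q.Prime)
    (hT : ∀ t ∈ T, t.1 = 1 → ∃ k : ℕ, t ^ q ^ k = 1) (D : MonoidAlgebra ℤ (V × B))
    (hD : ¬ (q : ℤ) ∣ ∑ᶠ t : T, D.coeff (t : V × B)) :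
    ∃ b : MonoidAlgebra ℤ (V × B), (∀ t ∈ T, t ≠ 1 → b.coeff t = 0) ∧ b.coeff 1 = 1 ∧
      ∀ y, D * (b * y) = 0 → b * y = 0 := by
  classical
  set Q : Subgroup B := T.comap (MonoidHom.inr V B) with hQdef
  have hQmem : ∀ t : B, t ∈ Q ↔ ((1, t) : V × B) ∈ T := fun t => Iff.rfl
  have hQ : IsPGroup q Q := by
    rintro ⟨t, ht⟩
    obtain ⟨k, hk⟩ := hT (1, t) ((hQmem t).mp ht) rfl
    refine ⟨k, ?_⟩
    ext
    have := (Prod.ext_iff.mp hk).2
    simpa using this
  -- the sum as a sum over the first components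
  have hsum : ∑ᶠ t : T, D.coeff (t : V × B) =
      ∑ x ∈ D.coeff.support.filter (· ∈ T), D.coeff x := by
    have h1 : ∑ᶠ t : T, D.coeff (t : V × B) = ∑ᶠ x ∈ (T : Set (V × B)), D.coeff x :=
      finsum_set_coe_eq_finsum_mem (f := fun x => D.coeff x) (T : Set (V × B))
    rw [h1]
    refine finsum_mem_eq_sum_of_inter_support_eq _ ?_
    ext x
    simp only [Set.mem_inter_iff, SetLike.mem_coe, Function.mem_support, Finset.coe_filter,
      Finsupp.mem_support_iff, Set.mem_ofPred_eq]
    tauto
  obtain ⟨v, hv⟩ : ∃ v : V, ¬ (q : ℤ) ∣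
      ∑ x ∈ (D.coeff.support.filter (· ∈ T)).filter (fun x => x.1 = v), D.coeff x := by
    by_contra hcon
    push Not at hcon
    apply hD
    rw [hsum, ← Finset.sum_fiberwise_of_maps_to
      (t := (D.coeff.support.filter (· ∈ T)).image Prod.fst) (g := Prod.fst)
      (fun x hx => Finset.mem_image_of_mem _ hx)]
    exact Finset.dvd_sum fun v _ => hcon v
  obtain ⟨β₀, hβ₀⟩ : ∃ β₀ : B, (v, β₀) ∈ T := by
    rcases Finset.eq_empty_or_nonempty
      ((D.coeff.support.filter (· ∈ T)).filter (fun x => x.1 = v)) with h | ⟨x, hx⟩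
    · rw [h] at hv
      exact absurd (by simp) hv
    · rw [Finset.mem_filter, Finset.mem_filter] at hx
      refine ⟨x.2, ?_⟩
      have : x = (v, x.2) := by rw [← hx.2]
      rw [← this]
      exact hx.1.2
  set D' : MonoidAlgebra ℤ B := MonoidAlgebra.single β₀⁻¹ 1 * comp v D with hD'
  have hD'c : ∀ t : B, D'.coeff t = D.coeff (v, β₀ * t) := by
    intro t
    have h2 : (MonoidAlgebra.single β₀⁻¹ (1 : ℤ) * comp v D).coeff t =
        1 * (comp v D).coeff (β₀ * t) := by
      refine MonoidAlgebra.coeff_single_mul_eq_mul_coeff (β₀ * t) fun m' _ => ?_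
      rw [inv_mul_eq_iff_eq_mul]
    rw [hD', h2, one_mul, comp_coeff]
  have hD'aug : ∑ᶠ t : Q, D'.coeff (t : B) =
      ∑ x ∈ (D.coeff.support.filter (· ∈ T)).filter (fun x => x.1 = v), D.coeff x := by
    have : Fintype Q := Fintype.ofFinite Q
    rw [finsum_eq_sum_of_fintype]
    refine Finset.sum_bij_ne_zero (fun t _ _ => (v, β₀ * (t : B))) ?_ ?_ ?_ ?_
    · intro t _ ht
      rw [hD'c] at ht
      rw [Finset.mem_filter, Finset.mem_filter, Finsupp.mem_support_iff]
      refine ⟨⟨ht, ?_⟩, rfl⟩
      have h1 := T.mul_mem hβ₀ ((hQmem t).mp t.2)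
      simpa using h1
    · intro t₁ _ _ t₂ _ _ h
      have h1 := (Prod.ext_iff.mp h).2
      exact Subtype.ext (mul_left_cancel h1)
    · intro x hx hx0
      rw [Finset.mem_filter, Finset.mem_filter] at hx
      obtain ⟨⟨hx1, hx2⟩, hx3⟩ := hx
      have hxe : x = (v, x.2) := by rw [← hx3]
      have hm : β₀⁻¹ * x.2 ∈ Q := by
        rw [hQmem]
        have h1 := T.mul_mem (T.inv_mem hβ₀) hx2
        rw [hxe] at h1
        simpa using h1
      have hxe' : (v, β₀ * (β₀⁻¹ * x.2)) = x := by
        rw [mul_inv_cancel_left]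
        exact hxe.symm
      refine ⟨⟨β₀⁻¹ * x.2, hm⟩, Finset.mem_univ _, ?_, hxe'⟩
      rw [hD'c]
      simp only
      rw [hxe']
      exact hx0
    · intro t _ _
      exact hD'c t
  -- the ideal
  let L : Ideal (MonoidAlgebra ℤ B) :=
    { carrier := {b | ∀ a : MonoidAlgebra ℤ B, (∀ v, a * comp v D = 0) → a * b = 0}
      add_mem' := fun {x y} hx hy a ha => by rw [mul_add, hx a ha, hy a ha, add_zero]
      zero_mem' := fun a _ => mul_zero a
      smul_mem' := fun c x hx a ha => by
        rw [smul_eq_mul, mul_left_comm, hx a ha, mul_zero] }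
  have hLmem : ∀ b, b ∈ L ↔ ∀ a : MonoidAlgebra ℤ B, (∀ v, a * comp v D = 0) → a * b = 0 :=
    fun b => Iff.rfl
  have hpure : ∀ (n : ℤ) (b : MonoidAlgebra ℤ B), n ≠ 0 → n • b ∈ L → b ∈ L := by
    intro n b hn hb a ha
    have h1 := hb a ha
    rw [mul_smul_comm] at h1
    ext t
    have h2 := congrArg (fun z : MonoidAlgebra ℤ B => z.coeff t) h1
    simp only [MonoidAlgebra.coeff_smul, Finsupp.smul_apply, MonoidAlgebra.coeff_zero,
      Finsupp.zero_apply, smul_eq_mul, mul_eq_zero, hn, false_or] at h2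
    rw [h2]
    rfl
  have hD'L : D' ∈ L := by
    intro a ha
    rw [hD', mul_left_comm, ha v, mul_zero]
  obtain ⟨b₀, hb₀L, hb₀⟩ := lemmaF B Q q hq hQ L hpure D' hD'L (by rw [hD'aug]; exact hv)
  have hb₀c : ∀ t : Q, b₀.coeff (t : B) = (1 : MonoidAlgebra ℤ Q).coeff t := by
    intro t
    rw [← hb₀, res_coeff]
  refine ⟨MonoidAlgebra.mapDomainRingHom ℤ (MonoidHom.inr V B) b₀, ?_, ?_, ?_⟩
  · rintro ⟨w, β⟩ ht hne
    by_cases hw : w = 1
    · subst hw
      rw [inr_coeff_G]
      have hβ : β ∈ Q := (hQmem β).mpr ht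
      have h1 := hb₀c ⟨β, hβ⟩
      simp only at h1
      rw [h1, MonoidAlgebra.one_def, MonoidAlgebra.coeff_single, Finsupp.single_apply, if_neg]
      intro h2
      apply hne
      have h3 := congrArg Subtype.val h2
      simp only [Subgroup.coe_one] at h3
      rw [← h3]
      rfl
    · exact inr_coeff_ne_G b₀ hw β
  · have h1 := hb₀c 1
    rw [show (1 : V × B) = (1, 1) from rfl, inr_coeff_G]
    rw [Subgroup.coe_one] at h1
    rw [h1, MonoidAlgebra.coeff_one_one]
  · intro y hy
    have := groupRing_isReduced B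
    have hkey : ∀ v' : V, comp v' (MonoidAlgebra.mapDomainRingHom ℤ (MonoidHom.inr V B) b₀ * y)
        = 0 := by
      intro v'
      rw [comp_inr_mul_G]
      have h1 : (b₀ * comp v' y) * b₀ = 0 := by
        refine (hLmem b₀).mp hb₀L _ fun v => ?_
        have h2 := comp_mul_comp_eq_zero D _ hy v v'
        rw [comp_inr_mul_G] at h2
        rw [mul_comm]
        exact h2
      have h2 : (b₀ * comp v' y) ^ 2 = 0 := by
        calc (b₀ * comp v' y) ^ 2 = ((b₀ * comp v' y) * b₀) * comp v' y := by ring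
          _ = 0 := by rw [h1, zero_mul]
      exact pow_eq_zero_iff (two_ne_zero) |>.mp h2
    ext ⟨v', x⟩
    have h1 := congrArg (fun z : MonoidAlgebra ℤ B => z.coeff x) (hkey v')
    simp only [comp_coeff] at h1
    rw [h1]
    rfl

end Pool.Agent.Lib.MP_69c751_al.TM
end

section

set_option autoImplicit false

/-!
Job TM-R10: Lemma G for finitely generated abelian groups.
-/

namespace Pool.Agent.Lib.MP_69c751_al.TM

/-- Lemma G. Proof: transport `lemmaG_prod` along the isomorphism
`F ≃* (Fin n →₀ Multiplicative ℤ) × ((i : ι) → Multiplicative (ZMod (p i ^ e i)))` of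
`CommGroup.equiv_free_prod_prod_multiplicative_zmod` (the first factor is torsion-free, the second
one finite), using `MonoidAlgebra.mapDomainRingEquiv` or the two ring homomorphisms
`MonoidAlgebra.mapDomainRingHom ℤ e`, `MonoidAlgebra.mapDomainRingHom ℤ e.symm`, and
`T' := T.map e`. If `t ∈ T'` and `t.1 = 1` then `t` has finite order, because the second factor
is finite. -/
theorem lemmaG (F : Type*) [CommGroup F] [Group.FG F] (T : Subgroup F) (q : ℕ) (hq : q.Prime)
    (hT : ∀ t ∈ T, ∀ n : ℕ, 0 < n → t ^ n = 1 → ∃ k : ℕ, t ^ q ^ k = 1) (D : MonoidAlgebra ℤ F)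
    (hD : ¬ (q : ℤ) ∣ ∑ᶠ t : T, D.coeff (t : F)) :
    ∃ b : MonoidAlgebra ℤ F, (∀ t ∈ T, t ≠ 1 → b.coeff t = 0) ∧ b.coeff 1 = 1 ∧
      ∀ y, D * (b * y) = 0 → b * y = 0 := by
  classical
  obtain ⟨ι, j, hι, hj, p, hp, e, ⟨f⟩⟩ := CommGroup.equiv_free_prod_prod_multiplicative_zmod F
  have hne : ∀ i, NeZero (p i ^ e i) := fun i => ⟨pow_ne_zero _ (hp i).ne_zero⟩
  have hfin : ∀ i, Finite (Multiplicative (ZMod (p i ^ e i))) := fun i => by
    have := hne i
    have : Finite (ZMod (p i ^ e i)) := Finite.of_fintype _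
    exact inferInstanceAs (Finite (ZMod (p i ^ e i)))
  have hmem : ∀ x, x ∈ T.map f.toMonoidHom ↔ f.symm x ∈ T := by
    intro x
    constructor
    · rintro ⟨t, ht, rfl⟩
      simpa using ht
    · intro hx
      exact ⟨f.symm x, hx, by simp⟩
  have hcoef : ∀ (z : MonoidAlgebra ℤ F) x,
      (MonoidAlgebra.mapDomainRingEquiv ℤ f z).coeff x = z.coeff (f.symm x) := by
    intro z x
    rw [MonoidAlgebra.coeff_mapDomainRingEquiv]
    rfl
  have hcoef' : ∀ z x,
      ((MonoidAlgebra.mapDomainRingEquiv ℤ f).symm z).coeff x = z.coeff (f x) := by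
    intro z x
    have h1 := hcoef ((MonoidAlgebra.mapDomainRingEquiv ℤ f).symm z) (f x)
    rw [RingEquiv.apply_symm_apply, MulEquiv.symm_apply_apply] at h1
    exact h1.symm
  obtain ⟨b', hb1, hb2, hb3⟩ := lemmaG_prod (j → Multiplicative ℤ)
    ((i : ι) → Multiplicative (ZMod (p i ^ e i))) (T.map f.toMonoidHom) q hq (by
      intro t ht ht1
      have h1 : t ^ Nat.card ((i : ι) → Multiplicative (ZMod (p i ^ e i))) = 1 := by
        refine Prod.ext ?_ ?_
        · rw [Prod.pow_fst, ht1, one_pow]; rfl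
        · rw [Prod.pow_snd]
          exact pow_card_eq_one'
      obtain ⟨k, hk⟩ := hT (f.symm t) ((hmem t).mp ht) _ Nat.card_pos (by
        rw [← map_pow, h1, map_one])
      refine ⟨k, ?_⟩
      rw [← map_pow] at hk
      have h2 := congrArg f hk
      rwa [MulEquiv.apply_symm_apply, map_one] at h2)
    (MonoidAlgebra.mapDomainRingEquiv ℤ f D) (by
      have h1 : ∑ᶠ t : (T.map f.toMonoidHom : Subgroup _),
          (MonoidAlgebra.mapDomainRingEquiv ℤ f D).coeff t = ∑ᶠ t : T, D.coeff (t : F) := by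
        symm
        refine finsum_eq_of_bijective
          (fun t : T => (⟨f t, (hmem _).mpr (by simp)⟩ : (T.map f.toMonoidHom : Subgroup _)))
          ⟨?_, ?_⟩ ?_
        · intro a b hab
          exact Subtype.ext (f.injective (congrArg Subtype.val hab))
        · rintro ⟨x, hx⟩
          exact ⟨⟨f.symm x, (hmem x).mp hx⟩, Subtype.ext (by simp)⟩
        · intro t
          rw [hcoef]
          simp
      rw [h1]
      exact hD)
  refine ⟨(MonoidAlgebra.mapDomainRingEquiv ℤ f).symm b', ?_, ?_, ?_⟩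
  · intro t ht htne
    rw [hcoef']
    refine hb1 _ ((hmem _).mpr (by simpa using ht)) fun h => htne ?_
    exact f.injective (by rw [h, map_one])
  · rw [hcoef', map_one, hb2]
  · intro y hy
    have h1 := congrArg (MonoidAlgebra.mapDomainRingEquiv ℤ f) hy
    rw [map_mul, map_mul, RingEquiv.apply_symm_apply, map_zero] at h1
    have h2 := hb3 _ h1
    have h3 := congrArg (MonoidAlgebra.mapDomainRingEquiv ℤ f).symm h2
    rw [map_mul, RingEquiv.symm_apply_apply, map_zero] at h3
    exact h3

end Pool.Agent.Lib.MP_69c751_al.TM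
end

section

set_option autoImplicit false

/-!
Part A: nonsingular systems over finitely generated abelian-by-abelian groups with one torsion
prime.
-/

namespace Pool.Agent.Lib.MP_69c751_al.TM

open Monoid

universe u

/-- Part A, for a surjective homomorphism to an abelian group. -/
theorem partA' {G : Type u} [Group G] [Group.FG G] {T : Type u} [CommGroup T] (p : G →* T)
    (hp : Function.Surjective p) (hK : ∀ a ∈ p.ker, ∀ b ∈ p.ker, a * b = b * a) (q : ℕ)
    (hq : q.Prime) (htor : ∀ t : T, ∀ n : ℕ, 0 < n → t ^ n = 1 → ∃ k : ℕ, t ^ q ^ k = 1)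
    {κ : Type} [Fintype κ] [DecidableEq κ] (w : κ → Coprod G (FreeGroup κ))
    (hdet : (expMat w).det ≠ 0) : Sol 2 w := by
  classical
  obtain ⟨F, _, j, x, hj, hrel, hgen, hidx⟩ := exists_F T (expMat w) hdet
    (fun i => evalHom p (fun _ => 1) (w i))
  set π : G →* F := j.comp p with hπ
  have hx : ∀ i, evalHom π x (w i) = 1 := by
    intro i
    rw [evalHom_comm π x (w i)]
    have h1 : evalHom π (fun _ : κ => (1 : F)) (w i) = j (evalHom p (fun _ => 1) (w i)) := by
      rw [map_evalHom]
      simp [hπ]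
    rw [h1]
    exact hrel i
  have hTr : ∀ g, π g ∈ j.range := fun g => ⟨p g, rfl⟩
  have hgen' : Subgroup.closure ((j.range : Set F) ∪ Set.range x) = ⊤ := by
    rw [MonoidHom.coe_range]
    exact hgen
  -- `F` is finitely generated
  have hTfg : Group.FG T := Group.fg_of_surjective hp
  have hFfg : Group.FG F := by
    obtain ⟨S, hS⟩ := hTfg.out
    refine ⟨⟨S.image j ∪ Finset.univ.image x, ?_⟩⟩
    rw [eq_top_iff, ← hgen', Subgroup.closure_le]
    intro y hy
    rcases hy with hy | ⟨k, rfl⟩
    · obtain ⟨t, rfl⟩ := hy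
      have h1 : t ∈ Subgroup.closure (S : Set T) := by rw [hS]; trivial
      have h2 : j t ∈ (Subgroup.closure (S : Set T)).map j := ⟨t, h1, rfl⟩
      rw [MonoidHom.map_closure] at h2
      refine Subgroup.closure_mono ?_ h2
      intro z hz
      simp only [Finset.coe_union, Finset.coe_image]
      exact Or.inl hz
    · apply Subgroup.subset_closure
      simp only [Finset.coe_union, Finset.coe_image]
      exact Or.inr ⟨k, by simp, rfl⟩
  have hunit := isUnit_sum_det π x j.range hTr hgen' w hx hdet hidx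
  have hnd : ¬ (q : ℤ) ∣ ∑ᶠ t : j.range, (jacMat π x w).det.coeff (t : F) := by
    intro h
    have h1 : IsUnit (q : ℤ) := isUnit_of_dvd_unit h hunit
    have h2 := Int.isUnit_iff.1 h1
    have h3 := hq.two_le
    omega
  have htorF : ∀ t ∈ j.range, ∀ n : ℕ, 0 < n → t ^ n = 1 → ∃ k : ℕ, t ^ q ^ k = 1 := by
    rintro _ ⟨t, rfl⟩ n hn ht
    rw [← map_pow] at ht
    obtain ⟨k, hk⟩ := htor t n hn (hj (by rw [ht, map_one]))
    exact ⟨k, by rw [← map_pow, hk, map_one]⟩
  obtain ⟨b, hb1, hb, hbD⟩ := lemmaG F j.range q hq htorF (jacMat π x w).det hnd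
  have hKπ : ∀ a ∈ π.ker, ∀ b ∈ π.ker, a * b = b * a := by
    intro a ha c hc
    refine hK a ?_ c ?_
    · exact hj (by rw [map_one]; exact ha)
    · exact hj (by rw [map_one]; exact hc)
  obtain ⟨I, f, hf, hfπ⟩ := exists_embedding π hKπ b (fun g hg => hb1 _ (hTr g) hg) hb
  have hsurj : ∀ m : I → CharacterModule (Ideal.span {b}), ∃ m', (jacMat π x w).det • m' = m := by
    intro m
    have h1 := fun i => smul_char_surjective b (jacMat π x w).det hbD (m i)
    choose m' hm' using h1
    exact ⟨m', by funext i; exact hm' i⟩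
  obtain ⟨y, hy⟩ := exists_solution f π hfπ x w hx hsurj
  exact ⟨Aff F (I → CharacterModule (Ideal.span {b})), inferInstance, f, hf,
    Aff.derivedSeries_two, y, hy⟩

/-- Part A. -/
theorem partA {G : Type u} [Group G] [Group.FG G] (A : Subgroup G) [A.Normal]
    (hA : ∀ a ∈ A, ∀ b ∈ A, a * b = b * a) (hT : ∀ a b : G, a * b * a⁻¹ * b⁻¹ ∈ A) (q : ℕ)
    (hq : q.Prime) (htor : ∀ g : G, ∀ n : ℕ, 0 < n → g ^ n ∈ A → ∃ k : ℕ, g ^ q ^ k ∈ A)
    {κ : Type} [Fintype κ] [DecidableEq κ] (w : κ → Coprod G (FreeGroup κ))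
    (hdet : (expMat w).det ≠ 0) : Sol 2 w := by
  have hcomm : ∀ a b : G ⧸ A, a * b = b * a := by
    intro a b
    induction a using QuotientGroup.induction_on with
    | H a =>
    induction b using QuotientGroup.induction_on with
    | H b =>
    rw [← QuotientGroup.mk_mul, ← QuotientGroup.mk_mul, QuotientGroup.eq]
    have h1 := hT b⁻¹ a⁻¹
    have h2 : (a * b)⁻¹ * (b * a) = b⁻¹ * a⁻¹ * b⁻¹⁻¹ * a⁻¹⁻¹ := by group
    rw [h2]
    exact h1
  let inst : CommGroup (G ⧸ A) := { (inferInstance : Group (G ⧸ A)) with mul_comm := hcomm }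
  refine @partA' G _ _ (G ⧸ A) inst (QuotientGroup.mk' A) (QuotientGroup.mk'_surjective A) ?_ q hq
    ?_ κ _ _ w hdet
  · intro a ha b hb
    rw [QuotientGroup.ker_mk'] at ha hb
    exact hA a ha b hb
  · intro t n hn ht
    induction t using QuotientGroup.induction_on with
    | H g =>
    have h1 : g ^ n ∈ A := (QuotientGroup.eq_one_iff _).1 ht
    obtain ⟨k, hk⟩ := htor g n hn h1
    exact ⟨k, (QuotientGroup.eq_one_iff (g ^ q ^ k)).2 hk⟩

end Pool.Agent.Lib.MP_69c751_al.TM
end
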