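import Pool.Agent.Lib.MP_69c751_al.TM.Wr
import Pool.Agent.Lib.MP_69c751_al.TM.Defs
import Pool.Agent.Lib.MP_69c751_al.TM.PartA

section

set_option autoImplicit false

/-!
The system of the components (Job TM-W4, TM-W5).
-/

namespace Pool.Agent.Lib.MP_69c751_al.TM

open Monoid

universe u v

section

variable {G : Type u} [Group G] {κ : Type} {P₀ : Type v} [Group P₀] {R : Type v} [Group R]
  {n : ℕ}

/-- The generic evaluation: the coefficients are mapped by `f : G → Wr P₀ R`, the unknown `x k` is
mapped to `((y (k, s))_s, σ k)`, where the `y (k, s)` are new unknowns. -/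
noncomputable def compHom (f : G →* Wr P₀ R) (ε : R ≃ Fin n) (σ : κ → R) :
    Coprod G (FreeGroup κ) →* Wr (Coprod P₀ (FreeGroup (κ × Fin n))) R :=
  evalHom ((Wr.map Coprod.inl).comp f)
    (fun k => ⟨fun s => Coprod.inr (FreeGroup.of (k, ε s)), σ k⟩)

/-- The system of the components. -/
noncomputable def compSys (f : G →* Wr P₀ R) (ε : R ≃ Fin n) (σ : κ → R)
    (w : κ → Coprod G (FreeGroup κ)) : κ × Fin n → Coprod P₀ (FreeGroup (κ × Fin n)) :=
  fun p => (compHom f ε σ (w p.1)).l (ε.symm p.2)

/-- A solution of the system of the components gives a solution of the system. -/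
theorem sol_of_comp (f : G →* Wr P₀ R) (ε : R ≃ Fin n) (σ : κ → R)
    (w : κ → Coprod G (FreeGroup κ)) (hσ : ∀ i, evalHom (Wr.proj.comp f) σ (w i) = 1)
    {H : Type*} [Group H] (g : P₀ →* H) (y : κ × Fin n → H)
    (hy : ∀ p, evalHom g y (compSys f ε σ w p) = 1) :
    ∀ i, evalHom ((Wr.map g).comp f) (fun k => ⟨fun s => y (k, ε s), σ k⟩ : κ → Wr H R) (w i) =
      1 := by
  intro i
  have h1 : evalHom ((Wr.map g).comp f) (fun k => ⟨fun s => y (k, ε s), σ k⟩ : κ → Wr H R) =
      (Wr.map (evalHom g y)).comp (compHom f ε σ) := by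
    apply hom_ext
    · intro a
      simp only [MonoidHom.comp_apply, compHom, evalHom_inl]
      apply Wr.ext
      · funext s
        simp [evalHom_inl]
      · simp
    · intro k
      simp only [MonoidHom.comp_apply, compHom, evalHom_inr]
      apply Wr.ext
      · funext s
        simp [evalHom_inr]
      · simp
  rw [h1]
  apply Wr.ext
  · funext s
    have h2 := hy (i, ε s)
    simp only [compSys, Equiv.symm_apply_apply] at h2
    exact h2
  · show (compHom f ε σ (w i)).r = 1
    have h3 : (compHom f ε σ (w i)).r = evalHom (Wr.proj.comp f) σ (w i) :=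
      map_evalHom Wr.proj _ _ (w i)
    rw [h3]
    exact hσ i

end

section

variable {G : Type u} [Group G] {κ : Type} [Fintype κ] [DecidableEq κ] {P₀ : Type v} [Group P₀]
  {R : Type v} [Group R] {n : ℕ}

omit [DecidableEq κ] in
/-- Evaluation in the additive group of a ring. -/
private theorem eval_one (F : Type*) [CommRing F] (v : κ → F) (u : Coprod G (FreeGroup κ)) :
    evalHom (1 : G →* Multiplicative F) (fun p => Multiplicative.ofAdd (v p)) u =
      Multiplicative.ofAdd (∑ p, ((Multiplicative.toAdd (expHom G κ u) p : ℤ) : F) * v p) := by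
  classical
  let φ : Coprod G (FreeGroup κ) →* Multiplicative F := MonoidHom.mk'
    (fun u => Multiplicative.ofAdd
      (∑ p, ((Multiplicative.toAdd (expHom G κ u) p : ℤ) : F) * v p)) (by
      intro a b
      rw [← ofAdd_add, ← Finset.sum_add_distrib]
      congr 1
      apply Finset.sum_congr rfl
      intro p _
      rw [map_mul, toAdd_mul, Pi.add_apply, Int.cast_add, add_mul])
  have h : evalHom (1 : G →* Multiplicative F) (fun p => Multiplicative.ofAdd (v p)) = φ := by
    apply hom_ext
    · intro g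
      show _ = Multiplicative.ofAdd
        (∑ p, ((Multiplicative.toAdd (expHom G κ (Coprod.inl g)) p : ℤ) : F) * v p)
      rw [evalHom_inl, expHom_inl]
      simp
    · intro k
      show _ = Multiplicative.ofAdd
        (∑ p, ((Multiplicative.toAdd (expHom G κ (Coprod.inr (FreeGroup.of k))) p : ℤ) : F) * v p)
      rw [evalHom_inr, expHom_inr, toAdd_ofAdd, Finset.sum_eq_single k]
      · simp
      · intro j _ hj
        rw [Pi.single_eq_of_ne hj]
        simp
      · intro h
        exact absurd (Finset.mem_univ k) h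
  rw [h]
  rfl

/-- The linearised components. -/
private noncomputable def lam (F : Type*) [CommRing F] (f : G →* Wr P₀ R) (ε : R ≃ Fin n)
    (σ : κ → R) (v : κ × Fin n → F) : Coprod G (FreeGroup κ) →* Wr (Multiplicative F) R :=
  evalHom ((Wr.map (1 : P₀ →* Multiplicative F)).comp f)
    (fun k => ⟨fun s => Multiplicative.ofAdd (v (k, ε s)), σ k⟩)

private theorem lam_eq (F : Type*) [CommRing F] (f : G →* Wr P₀ R) (ε : R ≃ Fin n)
    (σ : κ → R) (v : κ × Fin n → F) : lam F f ε σ v =
      (Wr.map (evalHom (1 : P₀ →* Multiplicative F) fun p => Multiplicative.ofAdd (v p))).comp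
        (compHom f ε σ) := by
  unfold lam
  apply hom_ext
  · intro a
    simp only [MonoidHom.comp_apply, compHom, evalHom_inl]
    apply Wr.ext
    · funext s
      simp [evalHom_inl]
    · simp
  · intro k
    simp only [MonoidHom.comp_apply, compHom, evalHom_inr]
    apply Wr.ext
    · funext s
      simp [evalHom_inr]
    · simp

private theorem lam_l (F : Type*) [CommRing F] (f : G →* Wr P₀ R) (ε : R ≃ Fin n)
    (σ : κ → R) (w : κ → Coprod G (FreeGroup κ)) (v : κ × Fin n → F) (i : κ) (s : R) :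
    (lam F f ε σ v (w i)).l s = Multiplicative.ofAdd
      (((expMat (compSys f ε σ w)).map (Int.cast : ℤ → F)).mulVec v (i, ε s)) := by
  rw [lam_eq]
  have h1 : ((Wr.map (evalHom (1 : P₀ →* Multiplicative F)
      fun p => Multiplicative.ofAdd (v p))).comp (compHom f ε σ) (w i)).l s =
      evalHom (1 : P₀ →* Multiplicative F) (fun p => Multiplicative.ofAdd (v p))
        (compSys f ε σ w (i, ε s)) := by
    simp only [compSys, Equiv.symm_apply_apply]
    rfl
  rw [h1, eval_one]
  rfl

/-- The shift of the components. -/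
private def tau {P : Type*} [Group P] (ρ : R) : Wr P R →* Wr P R where
  toFun a := ⟨fun s => a.l (ρ⁻¹ * s), a.r⟩
  map_one' := rfl
  map_mul' a b := by
    apply Wr.ext
    · funext s
      simp [mul_assoc]
    · simp

private theorem lam_shift (F : Type*) [CommRing F] (f : G →* Wr P₀ R) (ε : R ≃ Fin n)
    (σ : κ → R) (v : κ × Fin n → F) (ρ : R) :
    lam F f ε σ (fun p => v (p.1, ε (ρ⁻¹ * ε.symm p.2))) = (tau ρ).comp (lam F f ε σ v) := by
  unfold lam
  apply hom_ext
  · intro a
    simp only [MonoidHom.comp_apply, evalHom_inl]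
    rfl
  · intro k
    simp only [MonoidHom.comp_apply, evalHom_inr]
    apply Wr.ext
    · funext s
      show _ = Multiplicative.ofAdd (v (k, ε (ρ⁻¹ * s)))
      simp
    · rfl

/-- The linearised components of a constant vector. -/
private theorem lam_const (F : Type*) [CommRing F] (f : G →* Wr P₀ R) (ε : R ≃ Fin n)
    (σ : κ → R) (v : κ × Fin n → F) (c : κ → F) (hv : ∀ k s, v (k, ε s) = c k)
    (u : Coprod G (FreeGroup κ)) (s : R) :
    (lam F f ε σ v u).l s =
      evalHom (1 : G →* Multiplicative F) (fun p => Multiplicative.ofAdd (c p)) u := by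
  let Θ : Coprod G (FreeGroup κ) →* Wr (Multiplicative F) R := MonoidHom.mk'
    (fun u => ⟨fun _ => evalHom (1 : G →* Multiplicative F)
      (fun p => Multiplicative.ofAdd (c p)) u, evalHom (Wr.proj.comp f) σ u⟩) (by
      intro a b
      apply Wr.ext
      · funext s
        simp
      · simp)
  have h : lam F f ε σ v = Θ := by
    unfold lam
    apply hom_ext
    · intro a
      apply Wr.ext
      · funext s
        show _ = evalHom (1 : G →* Multiplicative F)
          (fun p => Multiplicative.ofAdd (c p)) (Coprod.inl a)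
        rw [evalHom_inl, evalHom_inl]
        rfl
      · show _ = evalHom (Wr.proj.comp f) σ (Coprod.inl a)
        rw [evalHom_inl, evalHom_inl]
        rfl
    · intro k
      apply Wr.ext
      · funext s
        show _ = evalHom (1 : G →* Multiplicative F)
          (fun p => Multiplicative.ofAdd (c p)) (Coprod.inr (FreeGroup.of k))
        rw [evalHom_inr, evalHom_inr]
        show Multiplicative.ofAdd (v (k, ε s)) = _
        rw [hv]
      · show _ = evalHom (Wr.proj.comp f) σ (Coprod.inr (FreeGroup.of k))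
        rw [evalHom_inr, evalHom_inr]
  rw [h]
  rfl

/-- The exponent matrix of the system of the components is nonsingular modulo `r` if the exponent
matrix of the system is nonsingular modulo `r` and `R` is an `r`-group.

Proof. Let `k = ZMod r`, `E = (expMat (compSys f ε σ w)).map (Int.cast : ℤ → k)`,
`e = (expMat w).map Int.cast`. If the determinant of `E` vanishes there is `v : κ × Fin n → k`,
`v ≠ 0`, with `E.mulVec v = 0` (`Matrix.exists_mulVec_eq_zero_iff`). For every vector
`v : κ × Fin n → k` let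
`λ_v : Coprod G (FreeGroup κ) →* Wr (Multiplicative k) R` be
`evalHom (g ↦ ⟨1, (f g).r⟩) (k ↦ ⟨s ↦ ofAdd (v (k, ε s)), σ k⟩)`. It is the composition of
`compHom` with `Wr.map (evalHom 1 (fun p => ofAdd (v p)))`, and
`evalHom 1 (fun p => ofAdd (v p)) u = ofAdd (∑ p, (toAdd (expHom _ _ u) p : k) * v p)`
(by `hom_ext`), so that
`(λ_v (w i)).l s = ofAdd ((E.mulVec v) (i, ε s))`.
Therefore `K := {v | E.mulVec v = 0} = {v | ∀ i s, (λ_v (w i)).l s = 1}`. The group `R` acts on the
vectors by `(ρ • v) (k, ε s) = v (k, ε (ρ⁻¹ * s))`, and for `τ_ρ : Wr _ R →* Wr _ R`,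
`τ_ρ a = ⟨s ↦ a.l (ρ⁻¹ * s), a.r⟩` (a homomorphism), `λ_(ρ • v) = τ_ρ ∘ λ_v` by `hom_ext`. So `K` is
stable under `R`. `K` is a finite set whose cardinality is a positive power of `r` (a nonzero
`k`-vector space), and `R` is an `r`-group, so the number of fixed points of `R` in `K` is divisible
by `r` (`IsPGroup.card_modEq_card_fixedPoints`), and there is a fixed point `v ≠ 0`: then
`v (k, ε s) = c k` does not depend on `s`, `c ≠ 0`. For such `v` the homomorphism
`u ↦ (∑ k, (toAdd (expHom G κ u) k) * c k)` satisfies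
`(λ_v u).l s = ofAdd (∑ k, (toAdd (expHom G κ u) k : k) * c k)` for all `u` (compare
`λ_v` with the homomorphism `u ↦ ⟨fun _ => ofAdd (∑ ...), evalHom (Wr.proj.comp f) σ u⟩`). So
`e.mulVec c = 0`, which contradicts `hdet`. -/
theorem not_dvd_det_comp (r : ℕ) (hr : r.Prime) [Finite R] (hR : IsPGroup r R)
    (f : G →* Wr P₀ R) (ε : R ≃ Fin n) (σ : κ → R)
    (w : κ → Coprod G (FreeGroup κ)) (hdet : ¬ (r : ℤ) ∣ (expMat w).det) :
    ¬ (r : ℤ) ∣ (expMat (compSys f ε σ w)).det := by
  have : Fact r.Prime := ⟨hr⟩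
  intro hE
  set E : Matrix (κ × Fin n) (κ × Fin n) (ZMod r) :=
    (expMat (compSys f ε σ w)).map (Int.cast : ℤ → ZMod r) with hEdef
  have hdetE : E.det = 0 := by
    have h1 := (Int.castRingHom (ZMod r)).map_det (expMat (compSys f ε σ w))
    rw [eq_intCast, (ZMod.intCast_zmod_eq_zero_iff_dvd _ r).mpr hE] at h1
    exact h1.symm
  obtain ⟨v, hv0, hv⟩ := Matrix.exists_mulVec_eq_zero_iff.mpr hdetE
  let K : Submodule (ZMod r) (κ × Fin n → ZMod r) := LinearMap.ker E.mulVecLin
  have hK : ∀ v, v ∈ K ↔ ∀ i s, (lam (ZMod r) f ε σ v (w i)).l s = 1 := by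
    intro v
    rw [LinearMap.mem_ker, Matrix.mulVecLin_apply]
    constructor
    · intro h i s
      rw [lam_l, ← hEdef, h]
      rfl
    · intro h
      funext p
      have h1 := h p.1 (ε.symm p.2)
      rw [lam_l, ← hEdef, Equiv.apply_symm_apply] at h1
      exact Multiplicative.ofAdd.injective h1
  have hstab : ∀ (ρ : R) (v : κ × Fin n → ZMod r), v ∈ K →
      (fun p => v (p.1, ε (ρ⁻¹ * ε.symm p.2))) ∈ K := by
    intro ρ v hv
    rw [hK] at hv ⊢
    intro i s
    rw [lam_shift]
    exact hv i (ρ⁻¹ * s)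
  let act : MulAction R K :=
    { smul := fun ρ v => ⟨fun p => v.1 (p.1, ε (ρ⁻¹ * ε.symm p.2)), hstab ρ v.1 v.2⟩
      one_smul := by
        intro v
        apply Subtype.ext
        funext p
        show v.1 (p.1, ε ((1 : R)⁻¹ * ε.symm p.2)) = v.1 p
        rw [inv_one, one_mul, Equiv.apply_symm_apply]
      mul_smul := by
        intro ρ ρ' v
        apply Subtype.ext
        funext p
        show v.1 (p.1, ε ((ρ * ρ')⁻¹ * ε.symm p.2)) =
          v.1 (p.1, ε (ρ'⁻¹ * ε.symm (ε (ρ⁻¹ * ε.symm p.2))))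
        rw [Equiv.symm_apply_apply, mul_inv_rev, mul_assoc] }
  have hnt : Nontrivial K := ⟨⟨v, hv⟩, 0, fun h => hv0 (congrArg Subtype.val h)⟩
  have hcard : r ∣ Nat.card K := by
    rw [Module.natCard_eq_pow_finrank (K := ZMod r) (V := K), Nat.card_zmod]
    exact dvd_pow_self r (Module.finrank_pos (R := ZMod r) (M := K)).ne'
  have hz : (0 : K) ∈ MulAction.fixedPoints R K := fun ρ => rfl
  obtain ⟨b, hb, hb0⟩ := hR.exists_fixed_point_of_prime_dvd_card_of_fixed_point K hcard hz
  have hfix : ∀ k s, b.1 (k, ε s) = b.1 (k, ε 1) := by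
    intro k s
    have h1 := congrArg (fun z : K => z.1 (k, ε s)) (hb s)
    have h2 : b.1 (k, ε (s⁻¹ * ε.symm (ε s))) = b.1 (k, ε s) := h1
    rw [Equiv.symm_apply_apply, inv_mul_cancel] at h2
    exact h2.symm
  have hc0 : (fun k => b.1 (k, ε 1)) ≠ 0 := by
    intro h
    apply hb0
    apply Subtype.ext
    funext p
    have h1 := hfix p.1 (ε.symm p.2)
    rw [Equiv.apply_symm_apply] at h1
    rw [h1]
    exact (congrFun h p.1).symm
  have hmul : ((expMat w).map (Int.cast : ℤ → ZMod r)).mulVec (fun k => b.1 (k, ε 1)) = 0 := by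
    funext i
    have h1 := (hK b.1).mp b.2 i 1
    rw [lam_const (ZMod r) f ε σ b.1 (fun k => b.1 (k, ε 1)) hfix, eval_one] at h1
    exact Multiplicative.ofAdd.injective h1
  have hd := Matrix.exists_mulVec_eq_zero_iff.mp ⟨_, hc0, hmul⟩
  apply hdet
  rw [← ZMod.intCast_zmod_eq_zero_iff_dvd _ r]
  have h1 := (Int.castRingHom (ZMod r)).map_det (expMat w)
  rw [eq_intCast] at h1
  rw [h1]
  exact hd

end

end Pool.Agent.Lib.MP_69c751_al.TM
end

section

section

set_option autoImplicit false

/-!
Job TM-L1, TM-L2: passage to finitely generated subgroups and to residual quotients.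
-/

namespace Pool.Agent.Lib.MP_69c751_al.TM

open Monoid

universe u

variable {G : Type u} [Group G] {ι κ : Type}

/-- Every element of `G * F` comes from `H * F` for a finitely generated subgroup `H`, and also
from every larger subgroup. (Induction on the element: `Coprod.induction_on`, or: the set of the
elements which come from some finitely generated `H` is a subgroup containing both factors. If
`u = Coprod.map H.subtype id u'` and `H ≤ H'` take
`Coprod.map (Subgroup.inclusion h) id u'`.) -/
theorem exists_fg_lift (u : Coprod G (FreeGroup κ)) :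
    ∃ H : Subgroup G, H.FG ∧ ∀ H' : Subgroup G, H ≤ H' →
      ∃ u' : Coprod H' (FreeGroup κ), Coprod.map H'.subtype (MonoidHom.id _) u' = u := by
  induction u using Coprod.induction_on with
  | inl g =>
    refine ⟨Subgroup.closure {g}, ⟨{g}, by simp⟩, fun H' hH => ?_⟩
    refine ⟨Coprod.inl ⟨g, hH (Subgroup.subset_closure rfl)⟩, ?_⟩
    rw [Coprod.map_apply_inl]; rfl
  | inr f =>
    refine ⟨⊥, Subgroup.FG.bot, fun H' _ => ⟨Coprod.inr f, ?_⟩⟩
    rw [Coprod.map_apply_inr]; rfl
  | mul a b ha hb =>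
    obtain ⟨H1, h1, k1⟩ := ha
    obtain ⟨H2, h2, k2⟩ := hb
    refine ⟨H1 ⊔ H2, h1.sup h2, fun H' hH => ?_⟩
    obtain ⟨u1, e1⟩ := k1 H' (le_sup_left.trans hH)
    obtain ⟨u2, e2⟩ := k2 H' (le_sup_right.trans hH)
    exact ⟨u1 * u2, by rw [map_mul, e1, e2]⟩

/-- A finite system is solvable in an overgroup of derived length at most `d` if this holds over
all finitely generated subgroups.

Proof: by `exists_fg_lift` (finitely many `i`, take the join) there are a finitely generated `H₀`
and for every `H ≥ H₀` a lift `w'_H` of `w`. Let `P` be the type of the finitely generated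
subgroups `H ≥ H₀`, directed by inclusion (the join of two finitely generated subgroups is
finitely generated). For `H : P` let `f_H : H →* Γ_H`, `x_H` be the data of `Sol d w'_H`. Let
`Π := ∀ H : P, Γ_H` and let `N` be the normal subgroup of the families which are equal to `1` for
all large `H` (`∃ H₁ : P, ∀ H ≥ H₁, a H = 1`, or `∀ᶠ H in Filter.atTop, a H = 1`). The group
`Π ⧸ N` has derived length at most `d` (an element of `derivedSeries Π d` has all its components in
`derivedSeries Γ_H d = ⊥`, and the derived series of a quotient is the image). The map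
`G →* Π ⧸ N`, `g ↦ mk (fun H => if h : g ∈ H then f_H ⟨g, h⟩ else 1)` is a homomorphism, injective
because `f_H` is. The element `x k := mk (fun H => x_H k)` is a solution: the evaluation of `w i`
is the class of `H ↦ evalHom f_H x_H (w'_H i) = 1`. For this, fix a lift `u'` of `w i` to
`Coprod H₀ _`; the evaluation homomorphism of `G` composed with
`Coprod.map H₀.subtype id` is the composition of `mk` with the family of the evaluation
homomorphisms (use `hom_ext`; on the coefficients `g ∈ H₀` the dependent `if` is always true).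
Note that the lift `w'_H i` can be taken to be
`Coprod.map (Subgroup.inclusion _) id (w'_{H₀} i)` for a fixed lift `w'_{H₀}`. -/
theorem sol_of_local [Finite ι] (d : ℕ) (w : ι → Coprod G (FreeGroup κ))
    (h : ∀ H : Subgroup G, H.FG → ∀ w' : ι → Coprod H (FreeGroup κ),
      (∀ i, Coprod.map H.subtype (MonoidHom.id _) (w' i) = w i) → Sol d w') : Sol d w := by
  classical
  have := Fintype.ofFinite ι
  choose Hi hfg hlift using fun i => exists_fg_lift (w i)
  obtain ⟨H₀, hH₀, hle⟩ : ∃ H₀ : Subgroup G, H₀.FG ∧ ∀ i, Hi i ≤ H₀ := by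
    choose S hS using hfg
    refine ⟨Subgroup.closure ((Finset.univ.biUnion S : Finset G) : Set G), ⟨_, rfl⟩, fun i => ?_⟩
    rw [← hS i]
    apply Subgroup.closure_mono
    intro g hg
    rw [Finset.mem_coe] at hg ⊢
    exact Finset.mem_biUnion.mpr ⟨i, Finset.mem_univ i, hg⟩
  choose w₀ hw₀ using fun i => hlift i H₀ (hle i)
  let P := {H : Subgroup G // H.FG ∧ H₀ ≤ H}
  have hsol : ∀ H : P, Sol d (fun i => Coprod.map (Subgroup.inclusion H.2.2)
      (MonoidHom.id (FreeGroup κ)) (w₀ i)) := by
    intro H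
    refine h H.1 H.2.1 _ fun i => ?_
    have e : (Coprod.map H.1.subtype (MonoidHom.id (FreeGroup κ))).comp
        (Coprod.map (Subgroup.inclusion H.2.2) (MonoidHom.id (FreeGroup κ))) =
        Coprod.map H₀.subtype (MonoidHom.id (FreeGroup κ)) :=
      hom_ext (fun g => by simp) (fun k => by simp)
    rw [← hw₀ i, ← e]; rfl
  unfold Sol at hsol
  choose Γ instΓ f hf hd x hx using hsol
  have hdir : ∀ H₁ H₂ : P, ∃ H₃ : P, H₁ ≤ H₃ ∧ H₂ ≤ H₃ := fun H₁ H₂ =>
    ⟨⟨H₁.1 ⊔ H₂.1, H₁.2.1.sup H₂.2.1, H₁.2.2.trans le_sup_left⟩, le_sup_left (a := H₁.1),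
      le_sup_right (b := H₂.1)⟩
  have hcont : ∀ g : G, ∃ H₁ : P, ∀ H : P, H₁ ≤ H → g ∈ H.1 := fun g =>
    ⟨⟨H₀ ⊔ Subgroup.closure {g}, hH₀.sup ⟨{g}, by simp⟩, le_sup_left⟩, fun H hH =>
      hH (Subgroup.mem_sup_right (Subgroup.subset_closure rfl))⟩
  let N : Subgroup (∀ H : P, Γ H) :=
    { carrier := {a | ∃ H₁ : P, ∀ H : P, H₁ ≤ H → a H = 1}
      mul_mem' := by
        rintro a b ⟨H₁, h₁⟩ ⟨H₂, h₂⟩
        obtain ⟨H₃, h3, h4⟩ := hdir H₁ H₂
        exact ⟨H₃, fun H hH => by rw [Pi.mul_apply, h₁ H (h3.trans hH), h₂ H (h4.trans hH), mul_one]⟩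
      one_mem' := ⟨⟨H₀, hH₀, le_rfl⟩, fun H _ => rfl⟩
      inv_mem' := by
        rintro a ⟨H₁, h₁⟩
        exact ⟨H₁, fun H hH => by rw [Pi.inv_apply, h₁ H hH, inv_one]⟩ }
  have hN : ∀ a : ∀ H : P, Γ H, a ∈ N ↔ ∃ H₁ : P, ∀ H : P, H₁ ≤ H → a H = 1 := fun a => Iff.rfl
  have hNn : N.Normal := ⟨by
    intro a ha g
    rw [hN] at ha ⊢
    obtain ⟨H₁, h₁⟩ := ha
    exact ⟨H₁, fun H hH => by
      rw [Pi.mul_apply, Pi.mul_apply, h₁ H hH, mul_one, Pi.inv_apply, mul_inv_cancel]⟩⟩
  let fam : G → ∀ H : P, Γ H := fun g H => if hg : g ∈ H.1 then f H ⟨g, hg⟩ else 1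
  have hfam : ∀ (g : G) (H : P) (hg : g ∈ H.1), fam g H = f H ⟨g, hg⟩ := fun g H hg => dif_pos hg
  let F : G →* (∀ H : P, Γ H) ⧸ N := MonoidHom.mk' (fun g => QuotientGroup.mk (fam g)) (by
    intro g g'
    rw [← QuotientGroup.mk_mul, QuotientGroup.eq, hN]
    obtain ⟨H₁, h₁⟩ := hcont g
    obtain ⟨H₂, h₂⟩ := hcont g'
    obtain ⟨H₃, h3, h4⟩ := hdir H₁ H₂
    refine ⟨H₃, fun H hH => ?_⟩
    have g1 := h₁ H (h3.trans hH)
    have g2 := h₂ H (h4.trans hH)
    rw [Pi.mul_apply, Pi.inv_apply, Pi.mul_apply, hfam _ H g1, hfam _ H g2,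
      hfam _ H (H.1.mul_mem g1 g2), ← map_mul]
    exact inv_mul_cancel _)
  refine ⟨(∀ H : P, Γ H) ⧸ N, inferInstance, F, ?_, ?_, fun k => QuotientGroup.mk fun H => x H k, ?_⟩
  · rw [injective_iff_map_eq_one]
    intro g hg
    have hg' : fam g ∈ N := (QuotientGroup.eq_one_iff _).mp hg
    rw [hN] at hg'
    obtain ⟨H₁, h₁⟩ := hg'
    obtain ⟨H₂, h₂⟩ := hcont g
    obtain ⟨H₃, h3, h4⟩ := hdir H₁ H₂
    have e1 := h₁ H₃ h3
    rw [hfam _ H₃ (h₂ H₃ h4)] at e1
    have e2 := hf H₃ (e1.trans (map_one (f H₃)).symm)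
    exact congrArg Subtype.val e2
  · have hbot : derivedSeries (∀ H : P, Γ H) d = ⊥ := by
      rw [eq_bot_iff]
      intro a ha
      rw [Subgroup.mem_bot]
      funext H
      have h1 : (Pi.evalMonoidHom Γ H) a ∈ (derivedSeries (∀ H : P, Γ H) d).map
          (Pi.evalMonoidHom Γ H) := Subgroup.mem_map_of_mem _ ha
      have h2 := map_derivedSeries_le_derivedSeries (Pi.evalMonoidHom Γ H) d h1
      rw [hd H, Subgroup.mem_bot] at h2
      exact h2
    rw [← map_derivedSeries_eq (QuotientGroup.mk'_surjective N), hbot, Subgroup.map_bot]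
  · intro i
    rw [← hw₀ i, evalHom_map]
    have e : evalHom (F.comp H₀.subtype) (fun k => FreeGroup.lift
        (fun k => (QuotientGroup.mk (fun H => x H k) : (∀ H : P, Γ H) ⧸ N))
        (MonoidHom.id (FreeGroup κ) (FreeGroup.of k))) =
        (QuotientGroup.mk' N).comp (MonoidHom.pi fun H : P => (evalHom (f H) (x H)).comp
          (Coprod.map (Subgroup.inclusion H.2.2) (MonoidHom.id (FreeGroup κ)))) := by
      apply hom_ext
      · intro g
        rw [evalHom_inl, MonoidHom.comp_apply, MonoidHom.comp_apply, QuotientGroup.mk'_apply]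
        show QuotientGroup.mk (fam g) = _
        congr 1
        funext H
        rw [hfam _ H (H.2.2 g.2)]
        show _ = evalHom (f H) (x H) (Coprod.map (Subgroup.inclusion H.2.2)
          (MonoidHom.id (FreeGroup κ)) (Coprod.inl g))
        rw [Coprod.map_apply_inl, evalHom_inl]
        rfl
      · intro k
        rw [evalHom_inr, MonoidHom.comp_apply, QuotientGroup.mk'_apply, MonoidHom.id_apply,
          FreeGroup.lift_apply_of]
        congr 1
        funext H
        show _ = evalHom (f H) (x H) (Coprod.map (Subgroup.inclusion H.2.2)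
          (MonoidHom.id (FreeGroup κ)) (Coprod.inr (FreeGroup.of k)))
        rw [Coprod.map_apply_inr, MonoidHom.id_apply, evalHom_inr]
    rw [e, MonoidHom.comp_apply, QuotientGroup.mk'_apply, QuotientGroup.eq_one_iff, hN]
    refine ⟨⟨H₀, hH₀, le_rfl⟩, fun H _ => ?_⟩
    exact hx H i

end Pool.Agent.Lib.MP_69c751_al.TM
end

section

set_option autoImplicit false

/-!
Job TM-W3: systems over finite `r`-groups.
-/

namespace Pool.Agent.Lib.MP_69c751_al.TM

open Monoid

universe u

/-- Multiplying the unknowns by central elements `c (z k)` multiplies the value of a word by the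
product of the `c (z k)` to the exponent sums. (The map
`u ↦ evalHom f x u * c (∏ k, z k ^ (toAdd (expHom G κ u) k))` is a homomorphism because the values
of `c` are central; it equals `evalHom f (fun k => x k * c (z k))` by `hom_ext`, using
`expHom_inl`, `expHom_inr`.) -/
theorem evalHom_mul_central {G : Type*} [Group G] {H : Type*} [Group H] {κ : Type} [Fintype κ]
    {Z : Type*} [CommGroup Z] (c : Z →* H) (hc : ∀ z h, c z * h = h * c z)
    (f : G →* H) (x : κ → H) (z : κ → Z) (u : Coprod G (FreeGroup κ)) :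
    evalHom f (fun k => x k * c (z k)) u =
      evalHom f x u * c (∏ k, z k ^ (Multiplicative.toAdd (expHom G κ u) k)) := by
  classical
  let φ : Coprod G (FreeGroup κ) →* H :=
    { toFun := fun u =>
        evalHom f x u * c (∏ k, z k ^ (Multiplicative.toAdd (expHom G κ u) k))
      map_one' := by simp
      map_mul' := by
        intro u v
        have h1 : ∏ k, z k ^ (Multiplicative.toAdd (expHom G κ (u * v)) k) =
            (∏ k, z k ^ (Multiplicative.toAdd (expHom G κ u) k)) *
              ∏ k, z k ^ (Multiplicative.toAdd (expHom G κ v) k) := by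
          rw [← Finset.prod_mul_distrib]
          apply Finset.prod_congr rfl
          intro k _
          rw [map_mul, toAdd_mul, Pi.add_apply, zpow_add]
        rw [h1, map_mul, map_mul]
        generalize (∏ k, z k ^ (Multiplicative.toAdd (expHom G κ u) k)) = a
        generalize (∏ k, z k ^ (Multiplicative.toAdd (expHom G κ v) k)) = b
        calc evalHom f x u * evalHom f x v * (c a * c b)
            = evalHom f x u * (evalHom f x v * c a) * c b := by group
          _ = evalHom f x u * (c a * evalHom f x v) * c b := by rw [hc]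
          _ = evalHom f x u * c a * (evalHom f x v * c b) := by group }
  have h : evalHom f (fun k => x k * c (z k)) = φ := by
    apply hom_ext
    · intro g
      show _ = evalHom f x (Coprod.inl g) *
        c (∏ k, z k ^ (Multiplicative.toAdd (expHom G κ (Coprod.inl g)) k))
      rw [evalHom_inl, evalHom_inl, expHom_inl]
      simp
    · intro j
      show _ = evalHom f x (Coprod.inr (FreeGroup.of j)) *
        c (∏ k, z k ^ (Multiplicative.toAdd (expHom G κ (Coprod.inr (FreeGroup.of j))) k))
      rw [evalHom_inr, evalHom_inr, expHom_inr, toAdd_ofAdd]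
      congr 2
      rw [Finset.prod_eq_single j]
      · simp
      · intro k _ hk
        rw [Pi.single_eq_of_ne hk, zpow_zero]
      · intro h
        exact absurd (Finset.mem_univ j) h
  rw [h]
  rfl

/-- The matrix equation modulo `r`. -/
private theorem exists_mod_sol (r : ℕ) (hr : r.Prime) {κ : Type} [Fintype κ] [DecidableEq κ]
    (e : Matrix κ κ ℤ) (hdet : ¬ (r : ℤ) ∣ e.det) (a : κ → ℤ) :
    ∃ b : κ → ℤ, ∀ i, (r : ℤ) ∣ a i + ∑ k, e i k * b k := by
  have hcop : IsCoprime e.det (r : ℤ) := by
    rw [isCoprime_comm]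
    exact (Nat.prime_iff_prime_int.mp hr).coprime_iff_not_dvd.mpr hdet
  obtain ⟨t, u, htu⟩ := hcop
  refine ⟨-(t • e.adjugate.mulVec a), fun i => ?_⟩
  have h1 : ∑ k, e i k * (-(t • e.adjugate.mulVec a)) k = -(t * e.det * a i) := by
    have h2 : (e.mulVec (-(t • e.adjugate.mulVec a))) i = -(t * e.det * a i) := by
      rw [Matrix.mulVec_neg, Matrix.mulVec_smul, Matrix.mulVec_mulVec, Matrix.mul_adjugate,
        Matrix.smul_mulVec, Matrix.one_mulVec]
      simp only [Pi.neg_apply, Pi.smul_apply, smul_eq_mul]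
      ring
    exact h2
  rw [h1]
  refine ⟨u * a i, ?_⟩
  linear_combination (-(a i)) * htu

/-- A square system whose exponent matrix is nonsingular modulo `r` is solvable in every finite
`r`-group itself.

Proof: induction on the order of `R` (for all groups receiving a homomorphism from `G`: the
statement is about `f : G →* R`, so that it passes to quotients of `R`). If `R` is trivial there
is nothing to do. Otherwise the center contains an element `c` of order `r`
(`IsPGroup.center_nontrivial`, `exists_prime_orderOf_dvd_card`), let `Z = zpowers c`, a normal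
subgroup of order `r`. By induction there is a solution in `R ⧸ Z`; lift it to `x : κ → R`; the
values `v i = evalHom f x (w i)` are in `Z`, `v i = c ^ a i`. By `evalHom_mul_central`, the family
`x k * c ^ b k` is a solution as soon as `a i + ∑ k, e i k * b k` is divisible by `r` for all `i`,
where `e = expMat w`. The matrix `e` is invertible modulo `r`: take `b = - e.adjugate.mulVec a`
multiplied by an inverse of `e.det` modulo `r`. -/
theorem pgroup_sol {G : Type*} [Group G] (r : ℕ) (hr : r.Prime) {κ : Type} [Fintype κ]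
    [DecidableEq κ] (w : κ → Coprod G (FreeGroup κ)) (hdet : ¬ (r : ℤ) ∣ (expMat w).det)
    (R : Type u) [Group R] [Finite R] (hR : IsPGroup r R) (f : G →* R) :
    ∃ x : κ → R, ∀ i, evalHom f x (w i) = 1 := by
  have main : ∀ (n : ℕ) (R : Type u) [Group R] [Finite R], Nat.card R = n → IsPGroup r R →
      ∀ f : G →* R, ∃ x : κ → R, ∀ i, evalHom f x (w i) = 1 := by
    intro n
    induction n using Nat.strong_induction_on with
    | _ n ih =>
      intro R _ _ hn hR f
      have : Fact r.Prime := ⟨hr⟩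
      rcases subsingleton_or_nontrivial R with hs | hs
      · exact ⟨1, fun i => Subsingleton.elim _ _⟩
      · have hcn : Nontrivial (Subgroup.center R) := hR.center_nontrivial
        obtain ⟨m, hm⟩ := IsPGroup.iff_card.mp (hR.to_subgroup (Subgroup.center R))
        have hdvd : r ∣ Nat.card (Subgroup.center R) := by
          have h1 : 1 < Nat.card (Subgroup.center R) := Finite.one_lt_card
          rw [hm] at h1 ⊢
          rcases m with _ | m
          · simp at h1
          · exact dvd_pow_self r (Nat.succ_ne_zero m)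
        obtain ⟨c', hc'⟩ := exists_prime_orderOf_dvd_card' r hdvd
        set c : R := (c' : R) with hcdef
        have hcc : ∀ g : R, c * g = g * c := fun g => (Subgroup.mem_center_iff.mp c'.2 g).symm
        have hord : orderOf c = r := by
          rw [hcdef, Subgroup.orderOf_coe]
          exact hc'
        have hcz : ∀ (j : ℤ) (g : R), c ^ j * g = g * c ^ j := by
          intro j g
          have h1 : Commute c g := hcc g
          exact h1.zpow_left j
        let Z : Subgroup R := Subgroup.zpowers c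
        have hZ : Z.Normal := by
          constructor
          rintro _ ⟨j, rfl⟩ g
          refine ⟨j, ?_⟩
          show c ^ j = g * c ^ j * g⁻¹
          rw [← hcz, mul_assoc, mul_inv_cancel, mul_one]
        have hlt : Nat.card (R ⧸ Z) < n := by
          have h1 := Subgroup.card_eq_card_quotient_mul_card_subgroup Z
          have h2 : Nat.card Z = r := by
            rw [← hord]
            exact Nat.card_zpowers c
          have h3 : 0 < Nat.card (R ⧸ Z) := Nat.card_pos
          have h4 := hr.two_le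
          rw [hn, h2] at h1
          rw [h1]
          nlinarith
        obtain ⟨xb, hxb⟩ := ih _ hlt (R ⧸ Z) rfl (hR.to_quotient Z)
          ((QuotientGroup.mk' Z).comp f)
        let x : κ → R := fun k => (xb k).out
        have hx : ∀ i, evalHom f x (w i) ∈ Z := by
          intro i
          rw [← QuotientGroup.eq_one_iff]
          have h1 := map_evalHom (QuotientGroup.mk' Z) f x (w i)
          have h2 : (fun k => QuotientGroup.mk' Z (x k)) = xb := by
            funext k
            exact QuotientGroup.out_eq' (xb k)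
          rw [h2, hxb i] at h1
          exact h1
        choose a ha using hx
        obtain ⟨b, hb⟩ := exists_mod_sol r hr (expMat w) hdet a
        refine ⟨fun k => x k * (zpowersHom R c) (Multiplicative.ofAdd (b k)), fun i => ?_⟩
        rw [evalHom_mul_central (zpowersHom R c) (by
          intro z h
          rw [zpowersHom_apply]
          exact hcz _ _) f x (fun k => Multiplicative.ofAdd (b k)) (w i)]
        have h1 : zpowersHom R c (∏ k, Multiplicative.ofAdd (b k) ^
            (Multiplicative.toAdd (expHom G κ (w i)) k)) = c ^ (∑ k, expMat w i k * b k) := by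
          rw [zpowersHom_apply, toAdd_prod]
          congr 1
        have h2 : evalHom f x (w i) = c ^ (a i) := (ha i).symm
        rw [h1, h2, ← zpow_add, ← orderOf_dvd_iff_zpow_eq_one, hord]
        exact hb i
  exact main _ R rfl hR f

end Pool.Agent.Lib.MP_69c751_al.TM
end

section

set_option autoImplicit false

/-!
Job TM-L3: residual quotients.
-/

namespace Pool.Agent.Lib.MP_69c751_al.TM

open Monoid

universe u

variable {G : Type u} [Group G] {ι κ : Type}

/-- The derived series of a product of groups of derived length at most `d`. (All projections map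
`derivedSeries _ d` into `derivedSeries _ d`: `map_derivedSeries_le_derivedSeries`.) -/
theorem derivedSeries_pi {J : Type*} (H : J → Type*) [∀ j, Group (H j)] (d : ℕ)
    (h : ∀ j, derivedSeries (H j) d = ⊥) : derivedSeries (∀ j, H j) d = ⊥ := by
  rw [eq_bot_iff]
  intro x hx
  rw [Subgroup.mem_bot]
  funext j
  have h1 : (Pi.evalMonoidHom H j) x ∈ derivedSeries (H j) d :=
    map_derivedSeries_le_derivedSeries (Pi.evalMonoidHom H j) d (Subgroup.mem_map_of_mem _ hx)
  rw [h j, Subgroup.mem_bot] at h1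
  exact h1

/-- A system is solvable in an overgroup of derived length at most `d` if for every nontrivial
element `g` there is a quotient in which `g` survives and over which the system is solvable in an
overgroup of derived length at most `d`. (Product over all `g ≠ 1`.) -/
theorem sol_of_residual (d : ℕ) (w : ι → Coprod G (FreeGroup κ))
    (h : ∀ g : G, g ≠ 1 → ∃ (Y : Type u) (_ : Group Y) (p : G →* Y), p g ≠ 1 ∧
      Sol d (fun i => Coprod.map p (MonoidHom.id (FreeGroup κ)) (w i))) : Sol d w := by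
  classical
  choose Y instY p hp H instH f hf hd x hx using h
  let J : Type u := {g : G // g ≠ 1}
  let _ : ∀ j : J, Group (H j.1 j.2) := fun j => instH j.1 j.2
  let _ : ∀ j : J, Group (Y j.1 j.2) := fun j => instY j.1 j.2
  let F : G →* (∀ j : J, H j.1 j.2) :=
    { toFun := fun g j => f j.1 j.2 (p j.1 j.2 g)
      map_one' := by
        funext j
        simp
      map_mul' := by
        intro a b
        funext j
        simp }
  refine ⟨(∀ j : J, H j.1 j.2), inferInstance, F, ?_, ?_, fun k j => x j.1 j.2 k, ?_⟩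
  · rw [injective_iff_map_eq_one]
    intro g hg
    by_contra hne
    have h1 : f g hne (p g hne g) = 1 := congrFun hg (⟨g, hne⟩ : J)
    have h2 : p g hne g = 1 := (injective_iff_map_eq_one _).1 (hf g hne) _ h1
    exact hp g hne h2
  · exact derivedSeries_pi (fun j : J => H j.1 j.2) d (fun j => hd j.1 j.2)
  · intro i
    funext j
    have h1 := map_evalHom (Pi.evalMonoidHom (fun j : J => H j.1 j.2) j) F
      (fun k (j : J) => x j.1 j.2 k) (w i)
    have h2 := hx j.1 j.2 i
    rw [evalHom_map] at h2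
    change Pi.evalMonoidHom (fun j : J => H j.1 j.2) j (evalHom F (fun k (j : J) => x j.1 j.2 k) (w i))
      = 1
    rw [h1]
    have e1 : (Pi.evalMonoidHom (fun j : J => H j.1 j.2) j).comp F = (f j.1 j.2).comp (p j.1 j.2) := by
      ext g
      rfl
    have e2 : (fun k => FreeGroup.lift (x j.1 j.2) ((MonoidHom.id (FreeGroup κ)) (FreeGroup.of k))) =
        fun k => (Pi.evalMonoidHom (fun j : J => H j.1 j.2) j) (fun j : J => x j.1 j.2 k) := by
      funext k
      simp
    rw [e2] at h2
    rw [e1]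
    exact h2

end Pool.Agent.Lib.MP_69c751_al.TM
end

section

set_option autoImplicit false

/-!
Job TM-L4, TM-L5: reduction to square systems.
-/

namespace Pool.Agent.Lib.MP_69c751_al.TM

open Monoid

universe u

variable {G : Type u} [Group G] {ι κ : Type}

open Classical in
/-- The substitution `x_{c i} ↦ x_i`, all other unknowns `↦ 1`. -/
noncomputable def colSub (c : ι → κ) : FreeGroup κ →* FreeGroup ι :=
  FreeGroup.lift (fun k => if h : ∃ i, c i = k then FreeGroup.of h.choose else 1)

theorem colSub_of {c : ι → κ} (hc : Function.Injective c) (i : ι) :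
    colSub c (FreeGroup.of (c i)) = FreeGroup.of i := by
  have h : ∃ i', c i' = c i := ⟨i, rfl⟩
  unfold colSub
  rw [FreeGroup.lift_apply_of, dif_pos h]
  congr 1
  exact hc h.choose_spec

theorem sol_of_cols (d : ℕ) (w : ι → Coprod G (FreeGroup κ)) (c : ι → κ)
    (h : Sol d (fun i => Coprod.map (MonoidHom.id G) (colSub c) (w i))) : Sol d w := by
  obtain ⟨H, _, f, hf, hd, x, hx⟩ := h
  refine ⟨H, inferInstance, f, hf, hd,
    fun k => FreeGroup.lift x (colSub c (FreeGroup.of k)), fun i => ?_⟩
  have h1 := hx i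
  rw [evalHom_map] at h1
  exact h1

/-- The homomorphism `v ↦ v ∘ c` of integer vectors. -/
def sqPull (c : ι → κ) : Multiplicative (κ → ℤ) →* Multiplicative (ι → ℤ) where
  toFun v := Multiplicative.ofAdd (fun i => Multiplicative.toAdd v (c i))
  map_one' := rfl
  map_mul' _ _ := rfl

theorem sqPull_apply (c : ι → κ) (v : Multiplicative (κ → ℤ)) (i : ι) :
    Multiplicative.toAdd (sqPull c v) i = Multiplicative.toAdd v (c i) := rfl

theorem colSub_not {c : ι → κ} {k : κ} (h : ¬ ∃ i, c i = k) :
    colSub c (FreeGroup.of k) = 1 := by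
  unfold colSub
  rw [FreeGroup.lift_apply_of, dif_neg h]

theorem sq_expHom {c : ι → κ} (hc : Function.Injective c) (u : Coprod G (FreeGroup κ)) :
    expHom G ι (Coprod.map (MonoidHom.id G) (colSub c) u) = sqPull c (expHom G κ u) := by
  classical
  have : (expHom G ι).comp (Coprod.map (MonoidHom.id G) (colSub c)) =
      (sqPull c).comp (expHom G κ) := by
    apply hom_ext
    · intro g
      rw [MonoidHom.comp_apply, MonoidHom.comp_apply, Coprod.map_apply_inl, expHom_inl,
        expHom_inl, map_one]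
    · intro k
      rw [MonoidHom.comp_apply, MonoidHom.comp_apply, Coprod.map_apply_inr, expHom_inr]
      by_cases h : ∃ i, c i = k
      · obtain ⟨i, rfl⟩ := h
        rw [colSub_of hc, expHom_inr]
        apply Multiplicative.toAdd.injective
        funext j
        rw [sqPull_apply]
        change (Pi.single i (1 : ℤ) : ι → ℤ) j = (Pi.single (c i) (1 : ℤ) : κ → ℤ) (c j)
        by_cases hij : j = i
        · subst hij
          rw [Pi.single_eq_same, Pi.single_eq_same]
        · rw [Pi.single_eq_of_ne hij, Pi.single_eq_of_ne (fun hh => hij (hc hh))]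
      · rw [colSub_not h, map_one, map_one]
        apply Multiplicative.toAdd.injective
        funext j
        rw [sqPull_apply]
        change (0 : ℤ) = (Pi.single k (1 : ℤ) : κ → ℤ) (c j)
        rw [Pi.single_eq_of_ne (fun hh => h ⟨j, hh⟩)]
  rw [← MonoidHom.comp_apply, this, MonoidHom.comp_apply]

/-- The exponent matrix after the substitution. (Compose `expHom G ι` with
`Coprod.map (MonoidHom.id G) (colSub c)`; by `hom_ext` it is the composition of `expHom G κ` with
the homomorphism `v ↦ v ∘ c`: on the unknown `x_k` both are `Pi.single i 1` if `k = c i` and `0` if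
`k` is not of this form.) -/
theorem expMat_cols (w : ι → Coprod G (FreeGroup κ)) {c : ι → κ} (hc : Function.Injective c) :
    expMat (fun i => Coprod.map (MonoidHom.id G) (colSub c) (w i)) =
      (expMat w).submatrix id c := by
  ext i j
  rw [Matrix.submatrix_apply, expMat, expMat, Matrix.of_apply, Matrix.of_apply, sq_expHom hc,
    sqPull_apply]
  rfl

/-- A matrix of full row rank over a field has a nonsingular square submatrix formed by columns.
(The columns span `Fin m → K`, so they contain a basis, e.g. `exists_linearIndependent'` or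
`Basis.ofSpan`/`exists_fun_fin_finrank_span_eq`; a square matrix whose columns are linearly
independent has nonzero determinant, `Matrix.linearIndependent_cols_iff_isUnit`.) -/
theorem exists_cols {K : Type*} [Field K] {m n : ℕ} (M : Matrix (Fin m) (Fin n) K)
    (h : M.rank = m) : ∃ c : Fin m → Fin n, Function.Injective c ∧
      (M.submatrix id c).det ≠ 0 := by
  classical
  obtain ⟨κ', a, ha, hspan, hli⟩ := exists_linearIndependent' K M.col
  have : Finite κ' := Finite.of_injective a ha
  have : Fintype κ' := Fintype.ofFinite κ'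
  have hcard : Fintype.card κ' = m := by
    rw [← h, Matrix.rank_eq_finrank_span_cols, ← hspan, finrank_span_eq_card hli]
  let e : Fin m ≃ κ' := (Fintype.equivFinOfCardEq hcard).symm
  refine ⟨a ∘ e, ha.comp e.injective, ?_⟩
  have h2 : LinearIndependent K (M.submatrix id (a ∘ e)).col := by
    have h3 := hli.comp e e.injective
    exact h3
  rw [Matrix.linearIndependent_cols_iff_isUnit, Matrix.isUnit_iff_isUnit_det] at h2
  exact h2.ne_zero

end Pool.Agent.Lib.MP_69c751_al.TM
end

section

set_option autoImplicit false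

/-!
Part B: a finite `r`-group on top.
-/

namespace Pool.Agent.Lib.MP_69c751_al.TM

open Monoid

universe u

/-- Part B. -/
theorem partB {G : Type u} [Group G] [Group.FG G] (A N : Subgroup G) [A.Normal] [N.Normal]
    (hA : ∀ a ∈ A, ∀ b ∈ A, a * b = b * a)
    (hT : ∀ a ∈ N, ∀ b ∈ N, a * b * a⁻¹ * b⁻¹ ∈ A) (q : ℕ) (hq : q.Prime)
    (htor : ∀ g ∈ N, ∀ n : ℕ, 0 < n → g ^ n ∈ A → ∃ k : ℕ, g ^ q ^ k ∈ A)
    (r : ℕ) (hr : r.Prime) (a : ℕ) (hidx : N.index = r ^ a) (s : ℕ) (hs : derivedSeries G s ≤ N)
    {κ : Type} [Fintype κ] [DecidableEq κ] (w : κ → Coprod G (FreeGroup κ))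
    (hdet : ¬ (r : ℤ) ∣ (expMat w).det) : Sol (s + 2) w := by
  classical
  have hidx0 : N.index ≠ 0 := by rw [hidx]; exact pow_ne_zero _ hr.ne_zero
  have hfi : N.FiniteIndex := ⟨hidx0⟩
  have : Finite (G ⧸ N) := Subgroup.finite_quotient_of_finiteIndex
  have hR : IsPGroup r (G ⧸ N) := by
    have := Fact.mk hr
    rw [IsPGroup.iff_card]
    exact ⟨a, by rw [← hidx]; rfl⟩
  obtain ⟨f, hf, hfr⟩ := Wr.exists_kk N
  let ε : (G ⧸ N) ≃ Fin (Nat.card (G ⧸ N)) := Finite.equivFin _
  obtain ⟨σ, hσ⟩ := pgroup_sol r hr w hdet (G ⧸ N) hR (QuotientGroup.mk' N)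
  have hproj : Wr.proj.comp f = QuotientGroup.mk' N := by
    ext g
    exact hfr g
  have hdet' : ¬ (r : ℤ) ∣ (expMat (compSys f ε σ w)).det :=
    not_dvd_det_comp r hr hR f ε σ w hdet
  have hNfg : Group.FG N := inferInstance
  obtain ⟨H, _, g, hg, hd, y, hy⟩ := partA (G := N) (A.subgroupOf N)
    (by
      intro a ha b hb
      exact Subtype.ext (hA a (Subgroup.mem_subgroupOf.1 ha) b (Subgroup.mem_subgroupOf.1 hb)))
    (by
      intro a b
      rw [Subgroup.mem_subgroupOf]
      exact hT a a.2 b b.2) q hq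
    (by
      intro g n hn h
      rw [Subgroup.mem_subgroupOf] at h
      obtain ⟨k, hk⟩ := htor g g.2 n hn h
      exact ⟨k, Subgroup.mem_subgroupOf.2 hk⟩)
    (compSys f ε σ w)
    (by
      intro h
      apply hdet'
      rw [h]
      exact dvd_zero _)
  have hsol := sol_of_comp f ε σ w (by rw [hproj]; exact hσ) g y hy
  refine ⟨Wr H (G ⧸ N), inferInstance, (Wr.map g).comp f, ?_, ?_, _, hsol⟩
  · exact (Wr.map_injective hg).comp hf
  · apply Wr.derivedSeries_eq_bot 2 s hd
    rw [eq_bot_iff, ← map_derivedSeries_eq (QuotientGroup.mk'_surjective N) s]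
    rintro _ ⟨z, hz, rfl⟩
    rw [Subgroup.mem_bot]
    exact (QuotientGroup.eq_one_iff z).2 (hs hz)

end Pool.Agent.Lib.MP_69c751_al.TM
end

section

set_option autoImplicit false

/-!
The general theorem.
-/

namespace Pool.Agent.Lib.MP_69c751_al.TM

open Monoid

universe u

/-- The general theorem for one finitely generated group and one quotient. -/
theorem general_aux {G : Type u} [Group G] [Group.FG G] {m n : ℕ}
    (w : Fin m → Coprod G (FreeGroup (Fin n))) (s q r : ℕ) (hq : q.Prime) (hr : r.Prime)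
    (hrank : ((expMat w).map (Int.cast : ℤ → ZMod r)).rank = m)
    (B D : Subgroup G) [B.Normal] [D.Normal]
    (hB : ∀ a ∈ B, ∀ b ∈ B, a * b = b * a)
    (hD : ∀ a ∈ D, ∀ b ∈ D, a * b * a⁻¹ * b⁻¹ ∈ B)
    (htor : ∀ y ∈ D, ∀ k : ℕ, 0 < k → y ^ k ∈ B → ∃ j : ℕ, y ^ q ^ j ∈ B)
    (hidx : ∃ a : ℕ, D.index = r ^ a) (hs : derivedSeries G s ≤ D) : Sol (s + 2) w := by
  classical
  have := Fact.mk hr
  obtain ⟨c, hc, hdet⟩ := exists_cols _ hrank
  obtain ⟨a, ha⟩ := hidx
  apply sol_of_cols (s + 2) w c
  apply partB B D hB hD q hq htor r hr a ha s hs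
  rw [expMat_cols w hc]
  intro h
  apply hdet
  have h1 : ((expMat w).map (Int.cast : ℤ → ZMod r)).submatrix id c =
      ((expMat w).submatrix id c).map (Int.castRingHom (ZMod r)) := rfl
  have h2 := RingHom.map_det (Int.castRingHom (ZMod r)) ((expMat w).submatrix id c)
  rw [h1]
  rw [RingHom.mapMatrix_apply] at h2
  rw [← h2]
  exact (ZMod.intCast_zmod_eq_zero_iff_dvd _ r).2 h

/-- The general theorem. -/
theorem general {G : Type u} [Group G] {m n : ℕ} (w : Fin m → Coprod G (FreeGroup (Fin n)))
    (s : ℕ)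
    (h : ∀ H : Subgroup G, H.FG → ∀ g : H, g ≠ 1 →
      ∃ q r : ℕ, q.Prime ∧ r.Prime ∧ ((expMat w).map (Int.cast : ℤ → ZMod r)).rank = m ∧
      ∃ C B D : Subgroup H, C.Normal ∧ B.Normal ∧ D.Normal ∧ C ≤ B ∧ B ≤ D ∧ g ∉ C ∧
        (∀ a ∈ B, ∀ b ∈ B, a * b * a⁻¹ * b⁻¹ ∈ C) ∧
        (∀ a ∈ D, ∀ b ∈ D, a * b * a⁻¹ * b⁻¹ ∈ B) ∧
        (∀ y ∈ D, ∀ k : ℕ, 0 < k → y ^ k ∈ B → ∃ j : ℕ, y ^ q ^ j ∈ B) ∧
        (∃ a : ℕ, D.index = r ^ a) ∧ derivedSeries H s ≤ D) :
    Sol (s + 2) w := by
  apply sol_of_local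
  intro H hH w' hw'
  have hexp : expMat w' = expMat w := by
    rw [← expMat_map H.subtype w']
    congr 1
    funext i
    exact hw' i
  apply sol_of_residual
  intro g hg
  obtain ⟨q, r, hq, hr, hrank, C, B, D, hCn, hBn, hDn, hCB, hBD, hgC, hBC, hDB, htor, ⟨a, ha⟩,
    hs⟩ := h H hH g hg
  have hHfg : Group.FG H := (Group.fg_iff_subgroup_fg H).2 hH
  refine ⟨H ⧸ C, inferInstance, QuotientGroup.mk' C, ?_, ?_⟩
  · intro h1
    exact hgC ((QuotientGroup.eq_one_iff g).1 h1)
  have hsurj := QuotientGroup.mk'_surjective C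
  have hBn' : (B.map (QuotientGroup.mk' C)).Normal := hBn.map _ hsurj
  have hDn' : (D.map (QuotientGroup.mk' C)).Normal := hDn.map _ hsurj
  have hmemB : ∀ y : H, QuotientGroup.mk' C y ∈ B.map (QuotientGroup.mk' C) → y ∈ B := by
    rintro y ⟨z, hz, hzy⟩
    have h1 : z⁻¹ * y ∈ C := QuotientGroup.eq.1 hzy
    have h2 : y = z * (z⁻¹ * y) := by group
    rw [h2]
    exact B.mul_mem hz (hCB h1)
  refine general_aux (fun i => Coprod.map (QuotientGroup.mk' C) (MonoidHom.id _) (w' i)) s q r hq hr
    ?_ (B.map (QuotientGroup.mk' C)) (D.map (QuotientGroup.mk' C)) ?_ ?_ ?_ ?_ ?_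
  · rw [expMat_map, hexp]
    exact hrank
  · rintro _ ⟨x, hx, rfl⟩ _ ⟨y, hy, rfl⟩
    rw [← map_mul, ← map_mul]
    apply QuotientGroup.eq.2
    have h1 := hBC y⁻¹ (B.inv_mem hy) x⁻¹ (B.inv_mem hx)
    have h2 : (x * y)⁻¹ * (y * x) = y⁻¹ * x⁻¹ * y⁻¹⁻¹ * x⁻¹⁻¹ := by group
    rw [h2]
    exact h1
  · rintro _ ⟨x, hx, rfl⟩ _ ⟨y, hy, rfl⟩
    exact ⟨x * y * x⁻¹ * y⁻¹, hDB x hx y hy, by simp⟩
  · rintro _ ⟨x, hx, rfl⟩ k hk hxk
    rw [← map_pow] at hxk
    obtain ⟨j, hj⟩ := htor x hx k hk (hmemB _ hxk)
    exact ⟨j, _, hj, map_pow _ _ _⟩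
  · refine ⟨a, ?_⟩
    rw [← ha]
    exact Subgroup.index_map_eq D hsurj (by rw [QuotientGroup.ker_mk']; exact hCB.trans hBD)
  · rw [← map_derivedSeries_eq hsurj s]
    exact Subgroup.map_mono hs

end Pool.Agent.Lib.MP_69c751_al.TM
end

section

set_option autoImplicit false

/-!
The corollaries for abelian-by-abelian groups.
-/

namespace Pool.Agent.Lib.MP_69c751_al.TM

open Monoid

universe u

/-- A matrix of full row rank over the rationals has full row rank modulo some prime. -/
theorem exists_prime_rank {m n : ℕ} (M : Matrix (Fin m) (Fin n) ℤ)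
    (h : (M.map (Int.cast : ℤ → ℚ)).rank = m) :
    ∃ r : ℕ, r.Prime ∧ (M.map (Int.cast : ℤ → ZMod r)).rank = m := by
  obtain ⟨c, hc, hdet⟩ := exists_cols _ h
  have hdet0 : (M.submatrix id c).det ≠ 0 := by
    intro h0
    apply hdet
    have h1 : (M.map (Int.cast : ℤ → ℚ)).submatrix id c =
        (M.submatrix id c).map (Int.castRingHom ℚ) := rfl
    have h2 := RingHom.map_det (Int.castRingHom ℚ) (M.submatrix id c)
    rw [RingHom.mapMatrix_apply] at h2
    rw [h1, ← h2, h0, map_zero]
  obtain ⟨r, hrle, hr⟩ := Nat.exists_infinite_primes ((M.submatrix id c).det.natAbs + 1)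
  have := Fact.mk hr
  refine ⟨r, hr, ?_⟩
  have hndvd : ¬ (r : ℤ) ∣ (M.submatrix id c).det := by
    intro hd
    have h1 : r ∣ (M.submatrix id c).det.natAbs := Int.natCast_dvd.1 hd
    have h2 := Nat.le_of_dvd (Int.natAbs_pos.2 hdet0) h1
    omega
  have hdet' : ((M.map (Int.cast : ℤ → ZMod r)).submatrix id c).det ≠ 0 := by
    have h1 : (M.map (Int.cast : ℤ → ZMod r)).submatrix id c =
        (M.submatrix id c).map (Int.castRingHom (ZMod r)) := rfl
    have h2 := RingHom.map_det (Int.castRingHom (ZMod r)) (M.submatrix id c)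
    rw [RingHom.mapMatrix_apply] at h2
    rw [h1, ← h2]
    intro h3
    exact hndvd ((ZMod.intCast_zmod_eq_zero_iff_dvd _ r).1 h3)
  apply le_antisymm (Matrix.rank_le_height _)
  have h3 : ((M.map (Int.cast : ℤ → ZMod r)).submatrix id c).rank = m := by
    rw [Matrix.rank_of_isUnit _ ((Matrix.isUnit_iff_isUnit_det _).2 (isUnit_iff_ne_zero.2 hdet'))]
    simp
  calc m = ((M.map (Int.cast : ℤ → ZMod r)).submatrix id c).rank := h3.symm
    _ = ((M.map (Int.cast : ℤ → ZMod r)) *
        (Matrix.of fun i j => if i = c j then 1 else 0 : Matrix (Fin n) (Fin m) (ZMod r))).rank := by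
        congr 1
        ext i j
        simp [Matrix.mul_apply]
    _ ≤ _ := Matrix.rank_mul_le_left _ _

/-- First corollary: independent systems, one torsion prime. -/
theorem cor_one {G : Type u} [Group G] {m n : ℕ} (w : Fin m → Coprod G (FreeGroup (Fin n)))
    (hrank : ((expMat w).map (Int.cast : ℤ → ℚ)).rank = m) (A : Subgroup G) [A.Normal]
    (hA : ∀ a ∈ A, ∀ b ∈ A, a * b = b * a) (hT : ∀ a b : G, a * b * a⁻¹ * b⁻¹ ∈ A) (q : ℕ)
    (hq : q.Prime) (htor : ∀ g : G, ∀ n : ℕ, 0 < n → g ^ n ∈ A → ∃ k : ℕ, g ^ q ^ k ∈ A) :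
    Sol 2 w := by
  obtain ⟨r, hr, hrank'⟩ := exists_prime_rank _ hrank
  have := general w 0 (fun H _ g hg => ⟨q, r, hq, hr, hrank', ⊥, A.subgroupOf H, ⊤, inferInstance,
    inferInstance, inferInstance, bot_le, le_top, by rwa [Subgroup.mem_bot], ?_, ?_, ?_,
    ⟨0, by simp⟩, le_top⟩)
  · exact this
  · intro a ha b hb
    rw [Subgroup.mem_bot]
    have h1 : a * b = b * a := Subtype.ext (hA a (Subgroup.mem_subgroupOf.1 ha) b
      (Subgroup.mem_subgroupOf.1 hb))
    rw [h1]
    group
  · intro a _ b _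
    rw [Subgroup.mem_subgroupOf]
    exact hT a b
  · intro y _ k hk hyk
    rw [Subgroup.mem_subgroupOf] at hyk
    obtain ⟨j, hj⟩ := htor y k hk hyk
    exact ⟨j, Subgroup.mem_subgroupOf.2 hj⟩

/-- The torsion of a finitely generated abelian group has finite exponent. -/
theorem exists_exponent (T : Type*) [CommGroup T] [Group.FG T] :
    ∃ N : ℕ, 0 < N ∧ ∀ t : T, (∃ n : ℕ, 0 < n ∧ t ^ n = 1) → t ^ N = 1 := by
  obtain ⟨ι, j, hι, hj, p, hp, e, ⟨f⟩⟩ := CommGroup.equiv_free_prod_prod_multiplicative_zmod T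
  have hne : ∀ i, NeZero (p i ^ e i) := fun i => ⟨pow_ne_zero _ (hp i).ne_zero⟩
  have hfin : ∀ i, Finite (Multiplicative (ZMod (p i ^ e i))) := fun i => by
    have := hne i
    have : Finite (ZMod (p i ^ e i)) := Finite.of_fintype _
    exact inferInstanceAs (Finite (ZMod (p i ^ e i)))
  refine ⟨Nat.card ((i : ι) → Multiplicative (ZMod (p i ^ e i))), Nat.card_pos, ?_⟩
  rintro t ⟨n, hn, ht⟩
  apply f.injective
  rw [map_pow, map_one]
  refine Prod.ext ?_ ?_
  · have h1 : (f t).1 ^ n = 1 := by
      rw [← Prod.pow_fst, ← map_pow, ht, map_one]; rfl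
    have h2 : (f t).1 = 1 := by
      rwa [pow_eq_one_iff_left hn.ne'] at h1
    rw [Prod.pow_fst, h2, one_pow]; rfl
  · rw [Prod.pow_snd]
    exact pow_card_eq_one'

/-- In a finitely generated abelian group with torsion for two primes `q`, `r`, some subgroup
`T ^ (r ^ k)` has torsion only for `q`. -/
theorem exists_power (T : Type*) [CommGroup T] [Group.FG T] (q r : ℕ) (hr : r.Prime)
    (htor : ∀ t : T, ∀ n : ℕ, 0 < n → t ^ n = 1 → ∃ k : ℕ, t ^ (q * r) ^ k = 1) :
    ∃ b : ℕ, ∀ t : T, ∀ n : ℕ, 0 < n → (t ^ r ^ b) ^ n = 1 → ∃ k : ℕ, (t ^ r ^ b) ^ q ^ k = 1 := by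
  obtain ⟨N, hN, hNt⟩ := exists_exponent T
  obtain ⟨b, N₁, hN₁, hb⟩ := Nat.exists_eq_pow_mul_and_not_dvd hN.ne' r hr.ne_one
  refine ⟨b, fun t n hn ht => ?_⟩
  have ht' : t ^ (r ^ b * n) = 1 := by rw [pow_mul, ht]
  have hpos : 0 < r ^ b * n := Nat.mul_pos (pow_pos hr.pos _) hn
  have h1 : (t ^ r ^ b) ^ N₁ = 1 := by
    rw [← pow_mul, ← hb]
    exact hNt t ⟨_, hpos, ht'⟩
  obtain ⟨k, hk⟩ := htor t _ hpos ht'
  have h2 : (t ^ r ^ b) ^ (q * r) ^ k = 1 := by
    rw [← pow_mul, mul_comm, pow_mul, hk, one_pow]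
  refine ⟨k, ?_⟩
  have h3 : orderOf (t ^ r ^ b) ∣ N₁ := orderOf_dvd_of_pow_eq_one h1
  have h4 : orderOf (t ^ r ^ b) ∣ (q * r) ^ k := orderOf_dvd_of_pow_eq_one h2
  apply orderOf_dvd_iff_pow_eq_one.1
  rw [mul_pow] at h4
  have h5 : Nat.Coprime (orderOf (t ^ r ^ b)) (r ^ k) := by
    apply Nat.Coprime.pow_right
    rw [Nat.coprime_comm, Nat.Prime.coprime_iff_not_dvd hr]
    intro h6
    exact hN₁ (h6.trans h3)
  exact h5.dvd_of_dvd_mul_right h4

end Pool.Agent.Lib.MP_69c751_al.TM
end
end
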