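import Pool.Agent.Lib.MP_69c751_al.TM.Cor

set_option autoImplicit false

/-!
The second corollary: two torsion primes.
-/

namespace Pool.Agent.Lib.MP_69c751_al.TM

open Monoid

universe u

/-- Second corollary: two torsion primes. -/
theorem cor_two {G : Type u} [Group G] {m n : ℕ} (w : Fin m → Coprod G (FreeGroup (Fin n)))
    (q r : ℕ) (hq : q.Prime) (hr : r.Prime)
    (hrank : ((expMat w).map (Int.cast : ℤ → ZMod r)).rank = m) (A : Subgroup G) [A.Normal]
    (hA : ∀ a ∈ A, ∀ b ∈ A, a * b = b * a) (hT : ∀ a b : G, a * b * a⁻¹ * b⁻¹ ∈ A)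
    (htor : ∀ g : G, ∀ n : ℕ, 0 < n → g ^ n ∈ A → ∃ k : ℕ, g ^ (q * r) ^ k ∈ A) :
    Sol 3 w := by
  have key : ∀ H : Subgroup G, H.FG → ∃ D : Subgroup H, D.Normal ∧ A.subgroupOf H ≤ D ∧
      (∀ y ∈ D, ∀ k : ℕ, 0 < k → y ^ k ∈ A.subgroupOf H → ∃ j : ℕ, y ^ q ^ j ∈ A.subgroupOf H) ∧
      (∃ a : ℕ, D.index = r ^ a) ∧ derivedSeries H 1 ≤ D := by
    intro H hH
    have hHfg : Group.FG H := (Group.fg_iff_subgroup_fg H).2 hH
    obtain ⟨B, hBdef⟩ : ∃ B : Subgroup H, B = A.subgroupOf H := ⟨_, rfl⟩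
    have hBn : B.Normal := by rw [hBdef]; infer_instance
    rw [← hBdef]
    have hcB : ∀ a b : H, a * b * a⁻¹ * b⁻¹ ∈ B := by
      intro a b
      rw [hBdef, Subgroup.mem_subgroupOf]
      exact hT a b
    have hcomm : ∀ a b : H ⧸ B, a * b = b * a := by
      intro a b
      obtain ⟨a, rfl⟩ := QuotientGroup.mk'_surjective B a
      obtain ⟨b, rfl⟩ := QuotientGroup.mk'_surjective B b
      rw [← map_mul, ← map_mul]
      apply QuotientGroup.eq.2
      have h1 := hcB b⁻¹ a⁻¹
      have h2 : (a * b)⁻¹ * (b * a) = b⁻¹ * a⁻¹ * b⁻¹⁻¹ * a⁻¹⁻¹ := by group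
      rw [h2]
      exact h1
    let _ : CommGroup (H ⧸ B) := { (inferInstance : Group (H ⧸ B)) with mul_comm := hcomm }
    have hfg : Group.FG (H ⧸ B) := inferInstance
    obtain ⟨b, hb⟩ := exists_power (H ⧸ B) q r hr (by
      intro t n hn ht
      obtain ⟨y, rfl⟩ := QuotientGroup.mk'_surjective B t
      rw [← map_pow] at ht
      have h1 : y ^ n ∈ B := (QuotientGroup.eq_one_iff _).1 ht
      rw [hBdef, Subgroup.mem_subgroupOf] at h1
      obtain ⟨k, hk⟩ := htor y n hn h1
      refine ⟨k, ?_⟩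
      rw [← map_pow]
      apply (QuotientGroup.eq_one_iff _).2
      rw [hBdef, Subgroup.mem_subgroupOf]
      exact hk)
    have hfin : (powMonoidHom (r ^ b) : (H ⧸ B) →* (H ⧸ B)).range.FiniteIndex :=
      Subgroup.finiteIndex_range_powMonoidHom_of_fg _ (pow_ne_zero _ hr.ne_zero)
    refine ⟨(powMonoidHom (r ^ b) : (H ⧸ B) →* (H ⧸ B)).range.comap (QuotientGroup.mk' B),
      inferInstance, ?_, ?_, ?_, ?_⟩
    · intro x hx
      have h1 : QuotientGroup.mk' B x = 1 := (QuotientGroup.eq_one_iff _).2 hx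
      rw [Subgroup.mem_comap, h1]
      exact one_mem _
    · rintro y hy k hk hyk
      rw [Subgroup.mem_comap] at hy
      obtain ⟨t, ht⟩ := hy
      have ht' : t ^ r ^ b = QuotientGroup.mk' B y := ht
      have h1 : (t ^ r ^ b) ^ k = 1 := by
        rw [ht', ← map_pow]
        exact (QuotientGroup.eq_one_iff _).2 hyk
      obtain ⟨j, hj⟩ := hb t k hk h1
      refine ⟨j, ?_⟩
      rw [ht', ← map_pow] at hj
      exact (QuotientGroup.eq_one_iff _).1 hj
    · rw [Subgroup.index_comap_of_surjective _ (QuotientGroup.mk'_surjective B)]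
      have := Fact.mk hr
      have hp : IsPGroup r ((H ⧸ B) ⧸ (powMonoidHom (r ^ b) : (H ⧸ B) →* (H ⧸ B)).range) := by
        intro x
        obtain ⟨t, rfl⟩ := QuotientGroup.mk'_surjective _ x
        refine ⟨b, ?_⟩
        rw [← map_pow]
        exact (QuotientGroup.eq_one_iff _).2 ⟨t, rfl⟩
      have hf : Finite ((H ⧸ B) ⧸ (powMonoidHom (r ^ b) : (H ⧸ B) →* (H ⧸ B)).range) :=
        Subgroup.finite_quotient_of_finiteIndex
      exact IsPGroup.iff_card.1 hp
    · have h1 : derivedSeries H 1 ≤ B := by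
        rw [derivedSeries_succ, derivedSeries_zero, Subgroup.commutator_le]
        intro a _ b _
        exact hcB a b
      refine h1.trans ?_
      intro x hx
      have h1 : QuotientGroup.mk' B x = 1 := (QuotientGroup.eq_one_iff _).2 hx
      rw [Subgroup.mem_comap, h1]
      exact one_mem _
  have := general w 1 (fun H hH g hg => by
    obtain ⟨D, hDn, hBD, htor', hidx, hs⟩ := key H hH
    refine ⟨q, r, hq, hr, hrank, ⊥, A.subgroupOf H, D, inferInstance, inferInstance, hDn, bot_le,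
      hBD, by rwa [Subgroup.mem_bot], ?_, ?_, htor', hidx, hs⟩
    · intro a ha b hb
      rw [Subgroup.mem_bot]
      have h1 : a * b = b * a := Subtype.ext (hA a (Subgroup.mem_subgroupOf.1 ha) b
        (Subgroup.mem_subgroupOf.1 hb))
      rw [h1]
      group
    · intro a _ b _
      rw [Subgroup.mem_subgroupOf]
      exact hT a b)
  exact this

end Pool.Agent.Lib.MP_69c751_al.TM
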