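import Pool.Agent.Lib.MP_69c751_al.TM.Defs

set_option autoImplicit false

/-!
The wreath product and the Kaloujnine-Krasner embedding (Job TM-W1, TM-W2).
-/

namespace Pool.Agent.Lib.MP_69c751_al.TM

open Monoid
open scoped commutatorElement

universe u v

/-- The (unrestricted) wreath product of `P` by `R`. -/
@[ext]
structure Wr (P : Type u) (R : Type v) where
  l : R → P
  r : R

namespace Wr

variable {P : Type u} {R : Type v} [Group P] [Group R]

instance : Mul (Wr P R) := ⟨fun a b => ⟨fun s => a.l s * b.l (s * a.r), a.r * b.r⟩⟩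
instance : One (Wr P R) := ⟨⟨fun _ => 1, 1⟩⟩
instance : Inv (Wr P R) := ⟨fun a => ⟨fun s => (a.l (s * a.r⁻¹))⁻¹, a.r⁻¹⟩⟩

@[simp] theorem mul_l (a b : Wr P R) (s : R) : (a * b).l s = a.l s * b.l (s * a.r) := rfl
@[simp] theorem mul_r (a b : Wr P R) : (a * b).r = a.r * b.r := rfl
@[simp] theorem one_l (s : R) : (1 : Wr P R).l s = 1 := rfl
@[simp] theorem one_r : (1 : Wr P R).r = 1 := rfl
@[simp] theorem inv_l (a : Wr P R) (s : R) : (a⁻¹).l s = (a.l (s * a.r⁻¹))⁻¹ := rfl
@[simp] theorem inv_r (a : Wr P R) : (a⁻¹).r = a.r⁻¹ := rfl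

instance : Group (Wr P R) :=
  Group.ofLeftAxioms
    (fun a b c => by
      apply Wr.ext
      · funext s
        simp [mul_assoc]
      · simp [mul_assoc])
    (fun a => by
      apply Wr.ext
      · funext s; simp
      · simp)
    (fun a => by
      apply Wr.ext
      · funext s; simp
      · simp)

/-- The projection. -/
def proj : Wr P R →* R where
  toFun := Wr.r
  map_one' := rfl
  map_mul' _ _ := rfl

@[simp] theorem proj_apply (a : Wr P R) : proj a = a.r := rfl

/-- Functoriality. -/
def map {P' : Type*} [Group P'] (p : P →* P') : Wr P R →* Wr P' R where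
  toFun a := ⟨fun s => p (a.l s), a.r⟩
  map_one' := by
    apply Wr.ext
    · funext s; simp
    · simp
  map_mul' a b := by
    apply Wr.ext
    · funext s; simp
    · simp

@[simp] theorem map_l {P' : Type*} [Group P'] (p : P →* P') (a : Wr P R) (s : R) :
    (map p a).l s = p (a.l s) := rfl
@[simp] theorem map_r {P' : Type*} [Group P'] (p : P →* P') (a : Wr P R) :
    (map p a).r = a.r := rfl

theorem map_injective {P' : Type*} [Group P'] {p : P →* P'} (hp : Function.Injective p) :
    Function.Injective (map p : Wr P R →* Wr P' R) := by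
  intro a b hab
  apply Wr.ext
  · funext s
    apply hp
    have := congrArg (fun z => Wr.l z s) hab
    simpa using this
  · have := congrArg Wr.r hab
    simpa using this

/-- The derived length of a wreath product.

Proof: `derivedSeries (Wr P R) b` is contained in the kernel of `proj` (its image is
`derivedSeries R b = ⊥`). For every `s` and every `j`, the elements `z` of
`derivedSeries (Wr P R) (b + j)` have `z.r = 1` and `z.l s ∈ derivedSeries P j`: induction on `j`,
for `z, z'` with `z.r = z'.r = 1` one has `⁅z, z'⁆.l s = ⁅z.l s, z'.l s⁆`; the set of the elements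
with this property is a subgroup. -/
theorem derivedSeries_eq_bot (a b : ℕ) (hP : derivedSeries P a = ⊥) (hR : derivedSeries R b = ⊥) :
    derivedSeries (Wr P R) (b + a) = ⊥ := by
  have h1 : ∀ j, ∀ z ∈ derivedSeries (Wr P R) (b + j), z.r = 1 ∧ ∀ s, z.l s ∈ derivedSeries P j := by
    intro j
    induction j with
    | zero =>
      intro z hz
      refine ⟨?_, fun s => by simp⟩
      have h2 : proj z ∈ derivedSeries R b :=
        map_derivedSeries_le_derivedSeries (proj : Wr P R →* R) b (Subgroup.mem_map_of_mem _ hz)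
      rw [hR, Subgroup.mem_bot] at h2
      exact h2
    | succ j ih =>
      let K : Subgroup (Wr P R) :=
        { carrier := {z | z.r = 1 ∧ ∀ s, z.l s ∈ derivedSeries P (j + 1)}
          mul_mem' := by
            rintro x y ⟨hx, hx'⟩ ⟨hy, hy'⟩
            refine ⟨by rw [mul_r, hx, hy, one_mul], fun s => ?_⟩
            rw [mul_l]
            exact mul_mem (hx' _) (hy' _)
          one_mem' := ⟨rfl, fun s => by rw [one_l]; exact one_mem _⟩
          inv_mem' := by
            rintro x ⟨hx, hx'⟩
            refine ⟨by rw [inv_r, hx, inv_one], fun s => ?_⟩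
            rw [inv_l]
            exact inv_mem (hx' _) }
      have hK : derivedSeries (Wr P R) (b + (j + 1)) ≤ K := by
        rw [← add_assoc, derivedSeries_succ, Subgroup.commutator_le]
        intro z hz z' hz'
        obtain ⟨hzr, hzl⟩ := ih z hz
        obtain ⟨hzr', hzl'⟩ := ih z' hz'
        refine ⟨?_, fun s => ?_⟩
        · rw [commutatorElement_def, mul_r, mul_r, mul_r, inv_r, inv_r, hzr, hzr']
          simp
        · have e : (⁅z, z'⁆ : Wr P R).l s = ⁅z.l s, z'.l s⁆ := by
            rw [commutatorElement_def, commutatorElement_def]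
            simp [hzr, hzr']
          rw [e, derivedSeries_succ]
          exact Subgroup.commutator_mem_commutator (hzl s) (hzl' s)
      exact fun z hz => hK hz
  rw [eq_bot_iff]
  intro z hz
  obtain ⟨h2, h3⟩ := h1 a z hz
  rw [Subgroup.mem_bot]
  apply Wr.ext
  · funext s
    have h4 := h3 s
    rw [hP, Subgroup.mem_bot] at h4
    rw [h4, one_l]
  · rw [h2, one_r]

/-- The Kaloujnine-Krasner embedding. With a section `σ : G ⧸ N → G` it is
`g ↦ (s ↦ σ s * g * (σ (s * mk g))⁻¹, mk g)`. If `g` is in the kernel then `mk g = 1` and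
`σ 1 * g * (σ 1)⁻¹ = 1`. -/
theorem exists_kk {G : Type u} [Group G] (N : Subgroup G) [N.Normal] :
    ∃ f : G →* Wr N (G ⧸ N), Function.Injective f ∧ ∀ g, (f g).r = (g : G ⧸ N) := by
  have hmem : ∀ (g : G) (s : G ⧸ N), s.out * g * ((s * (g : G ⧸ N)).out)⁻¹ ∈ N := by
    intro g s
    rw [← QuotientGroup.eq_one_iff]
    rw [QuotientGroup.mk_mul, QuotientGroup.mk_mul, QuotientGroup.mk_inv, QuotientGroup.out_eq',
      QuotientGroup.out_eq', mul_inv_cancel]
  let f : G →* Wr N (G ⧸ N) := MonoidHom.mk'
    (fun g => ⟨fun s => ⟨s.out * g * ((s * (g : G ⧸ N)).out)⁻¹, hmem g s⟩, (g : G ⧸ N)⟩) (by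
      intro g g'
      apply Wr.ext
      · funext s
        apply Subtype.ext
        show s.out * (g * g') * ((s * ((g * g' : G) : G ⧸ N)).out)⁻¹ =
          (s.out * g * ((s * (g : G ⧸ N)).out)⁻¹) *
            ((s * (g : G ⧸ N)).out * g' * ((s * (g : G ⧸ N) * (g' : G ⧸ N)).out)⁻¹)
        rw [QuotientGroup.mk_mul, ← mul_assoc s]
        group
      · rfl)
  refine ⟨f, ?_, fun g => rfl⟩
  rw [injective_iff_map_eq_one]
  intro g hg
  have h1 : (g : G ⧸ N) = 1 := congrArg Wr.r hg
  have h2 : (1 : G ⧸ N).out * g * (((1 : G ⧸ N) * (g : G ⧸ N)).out)⁻¹ = 1 :=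
    congrArg (fun z : Wr N (G ⧸ N) => ((z.l 1 : N) : G)) hg
  rw [h1, mul_one] at h2
  have h3 : g = (1 : G ⧸ N).out⁻¹ * ((1 : G ⧸ N).out * g * ((1 : G ⧸ N).out)⁻¹) * (1 : G ⧸ N).out := by
    group
  rw [h3, h2]
  group

end Wr

end Pool.Agent.Lib.MP_69c751_al.TM
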